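import Pool.Agent.Lib.MP_629a14_nt.Lk.Defs

/-! Tuples and subsets. -/

set_option autoImplicit false

namespace Pool.Agent.Lib.MP_629a14_nt.Lk

open Finset

open Classical in
/-- Every subset with `j` elements is the image of `j!` injective tuples. -/
theorem sub_tup (j L : ℕ) (Q : Finset ℕ → Prop) :
    j.factorial * ((powersetCard j (Icc 1 L)).filter Q).card ≤
      ((tup j L).filter (fun a => Function.Injective a ∧ Q (univ.image a))).card := by
  have hmaps : ∀ a ∈ (tup j L).filter (fun a => Function.Injective a ∧ Q (univ.image a)),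
      univ.image a ∈ (powersetCard j (Icc 1 L)).filter Q := by
    intro a ha
    obtain ⟨h1, h2, h3⟩ := Finset.mem_filter.1 ha
    refine Finset.mem_filter.2 ⟨Finset.mem_powersetCard.2 ⟨?_, ?_⟩, h3⟩
    · intro x hx
      obtain ⟨i, _, rfl⟩ := Finset.mem_image.1 hx
      exact Fintype.mem_piFinset.1 h1 i
    · rw [Finset.card_image_of_injective _ h2, Finset.card_univ, Fintype.card_fin]
  rw [Finset.card_eq_sum_card_fiberwise hmaps, mul_comm, ← smul_eq_mul, ← Finset.sum_const]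
  refine Finset.sum_le_sum fun A hA => ?_
  obtain ⟨hA1, hA2⟩ := Finset.mem_filter.1 hA
  obtain ⟨hA3, hA4⟩ := Finset.mem_powersetCard.1 hA1
  have hcard : (univ : Finset (Equiv.Perm (Fin j))).card = j.factorial := by
    rw [Finset.card_univ, Fintype.card_perm, Fintype.card_fin]
  rw [← hcard]
  have himg : ∀ σ : Equiv.Perm (Fin j), univ.image (fun i => A.orderEmbOfFin hA4 (σ i)) = A := by
    intro σ
    ext x
    constructor
    · intro hx
      obtain ⟨i, _, rfl⟩ := Finset.mem_image.1 hx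
      exact Finset.orderEmbOfFin_mem A hA4 _
    · intro hx
      have h1 : x ∈ Set.range (A.orderEmbOfFin hA4) := by
        rw [Finset.range_orderEmbOfFin]; exact hx
      obtain ⟨i, rfl⟩ := h1
      exact Finset.mem_image.2 ⟨σ.symm i, Finset.mem_univ _, by simp⟩
  refine Finset.card_le_card_of_injOn (fun σ => fun i => A.orderEmbOfFin hA4 (σ i)) ?_ ?_
  · intro σ _
    refine Finset.mem_filter.2 ⟨Finset.mem_filter.2 ⟨?_, ?_, ?_⟩, himg σ⟩
    · refine Fintype.mem_piFinset.2 fun i => hA3 (Finset.orderEmbOfFin_mem A hA4 _)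
    · exact (A.orderEmbOfFin hA4).injective.comp σ.injective
    · rw [himg σ]; exact hA2
  · intro σ _ τ _ h
    ext i
    have h2 := congrFun h i
    have h3 := (A.orderEmbOfFin hA4).injective h2
    rw [h3]

/-- `∏_{i<j} (1 - i/L) ≥ 1 - j²/L`. -/
theorem falling (j L : ℕ) (h : 2 * j ^ 2 ≤ L) :
    (L : ℝ) ^ j ≤ 2 * ((j.factorial : ℝ) * (L.choose j : ℝ)) := by
  have h1 : (j.factorial : ℝ) * (L.choose j : ℝ) = (L.descFactorial j : ℝ) := by
    rw [Nat.descFactorial_eq_factorial_mul_choose]; push_cast; ring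
  rw [h1]
  rcases Nat.eq_zero_or_pos j with h0 | h0
  · subst h0; simp
  have hL : 0 < L := by
    have : 1 ≤ j ^ 2 := Nat.one_le_pow _ _ h0
    omega
  have hjL : j ≤ L := by nlinarith
  have h2 : ((L : ℝ) - j) ^ j ≤ (L.descFactorial j : ℝ) := by
    have h3 := Nat.pow_sub_le_descFactorial L j
    have h4 : (L - j) ^ j ≤ L.descFactorial j := le_trans (Nat.pow_le_pow_left (by omega) j) h3
    have h5 : (((L - j) ^ j : ℕ) : ℝ) ≤ (L.descFactorial j : ℝ) := by exact_mod_cast h4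
    rw [Nat.cast_pow, Nat.cast_sub hjL] at h5
    exact h5
  have hLR : (0 : ℝ) < L := by exact_mod_cast hL
  have h6 : (L : ℝ) - j = L * (1 + (-(j / L : ℝ))) := by field_simp; ring
  have h7 : (-2 : ℝ) ≤ -(j / L : ℝ) := by
    have : (j : ℝ) / L ≤ 1 := div_le_one_of_le₀ (by exact_mod_cast hjL) hLR.le
    linarith
  have h8 := one_add_mul_le_pow h7 j
  have h9 : (j : ℝ) * (-(j / L : ℝ)) ≥ -(1 / 2) := by
    have h10 : (j : ℝ) * (j / L) ≤ 1 / 2 := by
      rw [← mul_div_assoc, div_le_iff₀ hLR]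
      have : (2 * (j : ℝ) ^ 2) ≤ L := by exact_mod_cast h
      nlinarith
    linarith
  have h11 : (1 / 2 : ℝ) ≤ (1 + (-(j / L : ℝ))) ^ j := by linarith
  rw [h6, mul_pow] at h2
  have h12 : (0 : ℝ) < (L : ℝ) ^ j := by positivity
  nlinarith

/-- `C(n-b,j)/C(n,j) = ∏_{i<j} (1 - b/(n-i)) ≥ 1 - jb/(n-j)`. -/
theorem choose_trunc (n b j : ℕ) (h : j + b < n) :
    (1 - (j : ℝ) * b / (n - j)) * (n.choose j : ℝ) ≤ ((n - b).choose j : ℝ) := by
  have hnj : (0 : ℝ) < (n : ℝ) - j := by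
    have : (j : ℝ) < n := by exact_mod_cast (by omega : j < n)
    linarith
  have hbn : (b : ℝ) ≤ (n : ℝ) - j := by
    have : (j : ℝ) + b < n := by exact_mod_cast h
    linarith
  set t : ℝ := (b : ℝ) / (n - j) with ht
  have ht0 : 0 ≤ t := by positivity
  have ht1 : t ≤ 1 := div_le_one_of_le₀ hbn hnj.le
  have h1 : 1 - (j : ℝ) * b / (n - j) ≤ (1 - t) ^ j := by
    have h2 := one_add_mul_le_pow (a := -t) (by linarith) j
    calc 1 - (j : ℝ) * b / (n - j) = 1 + (j : ℝ) * (-t) := by rw [ht]; ring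
      _ ≤ (1 + -t) ^ j := h2
      _ = (1 - t) ^ j := by ring
  have hd1 : (n.descFactorial j : ℝ) = ∏ i ∈ range j, ((n : ℝ) - i) := by
    rw [Nat.descFactorial_eq_prod_range]
    push_cast
    refine Finset.prod_congr rfl fun i hi => ?_
    rw [Nat.cast_sub (by have := Finset.mem_range.1 hi; omega)]
  have hd2 : ((n - b).descFactorial j : ℝ) = ∏ i ∈ range j, ((n : ℝ) - b - i) := by
    rw [Nat.descFactorial_eq_prod_range]
    push_cast
    refine Finset.prod_congr rfl fun i hi => ?_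
    rw [Nat.cast_sub (by have := Finset.mem_range.1 hi; omega), Nat.cast_sub (by omega)]
  have h3 : (1 - t) ^ j * (n.descFactorial j : ℝ) ≤ ((n - b).descFactorial j : ℝ) := by
    have h0 : (1 - t) ^ j = ∏ _i ∈ range j, (1 - t) := by rw [Finset.prod_const, Finset.card_range]
    rw [hd1, hd2, h0, ← Finset.prod_mul_distrib]
    refine Finset.prod_le_prod (fun i hi => ?_) (fun i hi => ?_)
    · have hi2 : (i : ℝ) ≤ j := by exact_mod_cast (Finset.mem_range.1 hi).le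
      exact mul_nonneg (by linarith) (by linarith)
    · have hi2 : (i : ℝ) ≤ j := by exact_mod_cast (Finset.mem_range.1 hi).le
      have h4 : (b : ℝ) = t * (n - j) := by rw [ht]; field_simp
      nlinarith
  rw [Nat.descFactorial_eq_factorial_mul_choose, Nat.descFactorial_eq_factorial_mul_choose] at h3
  push_cast at h3
  have hf : (0 : ℝ) < (j.factorial : ℝ) := by exact_mod_cast Nat.factorial_pos j
  have h5 : (1 - t) ^ j * (n.choose j : ℝ) ≤ ((n - b).choose j : ℝ) := by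
    refine le_of_mul_le_mul_left ?_ hf
    calc _ = (1 - t) ^ j * ((j.factorial : ℝ) * (n.choose j : ℝ)) := by ring
      _ ≤ _ := h3
  exact (mul_le_mul_of_nonneg_right h1 (Nat.cast_nonneg _)).trans h5

/-- `j b ≤ ε (n - j)` for large `n` if `j³ ≤ n` and `2^b ≤ 16 j`. -/
theorem jb_small (ε : ℝ) (hε : 0 < ε) : ∃ n₀ : ℕ, ∀ n j b : ℕ, n₀ ≤ n → 1 ≤ j → j ^ 3 ≤ n → 2 ^ b ≤ 16 * j →
    (j : ℝ) * b ≤ ε * (n - j) ∧ 2 * j ^ 2 ≤ n - b ∧ j + b < n ∧ (j : ℝ) ≤ Real.log ((2 ^ (n + 2) : ℕ) : ℝ) ∧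
      64 * (j : ℝ) ≤ (Real.log ((2 ^ (n + 2) : ℕ) : ℝ)) ^ 2 := by
  obtain ⟨J, hJ⟩ : ∃ J : ℕ, J = 18 + ⌈32 / ε⌉₊ := ⟨_, rfl⟩
  refine ⟨J ^ 3, fun n j b hn hj hjn hb => ?_⟩
  have hJ18 : 18 ≤ J := by omega
  have hJε : 32 ≤ ε * J := by
    have h1 : 32 / ε ≤ (⌈32 / ε⌉₊ : ℝ) := Nat.le_ceil _
    have h2 : (⌈32 / ε⌉₊ : ℝ) ≤ J := by exact_mod_cast (by omega : ⌈32 / ε⌉₊ ≤ J)
    have h3 := h1.trans h2
    rw [div_le_iff₀ hε] at h3
    linarith
  have hb2 : b < 16 * j := lt_of_lt_of_le Nat.lt_two_pow_self hb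
  have hjj : J * j ^ 2 ≤ n := by
    rcases le_or_gt J j with h | h
    · calc J * j ^ 2 ≤ j * j ^ 2 := Nat.mul_le_mul_right _ h
        _ = j ^ 3 := by ring
        _ ≤ n := hjn
    · calc J * j ^ 2 ≤ J * J ^ 2 := Nat.mul_le_mul_left _ (Nat.pow_le_pow_left h.le 2)
        _ = J ^ 3 := by ring
        _ ≤ n := hn
  have hj2 : j ≤ j ^ 2 := by nlinarith
  have hj2' : 1 ≤ j ^ 2 := by nlinarith
  have h18 : 18 * j ^ 2 ≤ n := le_trans (Nat.mul_le_mul_right _ hJ18) hjj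
  have hnbig : 5832 ≤ n := by
    have : 18 ^ 3 ≤ J ^ 3 := Nat.pow_le_pow_left hJ18 3
    omega
  have hnR : (5832 : ℝ) ≤ n := by exact_mod_cast hnbig
  have hjjR : (J : ℝ) * (j : ℝ) ^ 2 ≤ n := by exact_mod_cast hjj
  have h18R : 18 * (j : ℝ) ^ 2 ≤ n := by exact_mod_cast h18
  have hj1R : (1 : ℝ) ≤ j := by exact_mod_cast hj
  have hjR : (j : ℝ) ≤ (j : ℝ) ^ 2 := by nlinarith
  have hbR : (b : ℝ) ≤ 16 * j := by exact_mod_cast hb2.le
  have hlog : (n : ℝ) / 2 ≤ Real.log ((2 ^ (n + 2) : ℕ) : ℝ) := by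
    push_cast
    rw [Real.log_pow]
    have h2 : (1 / 2 : ℝ) ≤ Real.log 2 := by
      have := Real.log_two_gt_d9; linarith
    push_cast
    nlinarith
  refine ⟨?_, ?_, ?_, ?_, ?_⟩
  · have h1 : (j : ℝ) * b ≤ 16 * (j : ℝ) ^ 2 := by nlinarith
    have h2 : 32 * (j : ℝ) ^ 2 ≤ ε * n := by
      calc 32 * (j : ℝ) ^ 2 ≤ ε * J * (j : ℝ) ^ 2 := mul_le_mul_of_nonneg_right hJε (by positivity)
        _ = ε * (J * (j : ℝ) ^ 2) := by ring
        _ ≤ ε * n := mul_le_mul_of_nonneg_left hjjR hε.le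
    have h3 : (j : ℝ) ≤ n / 2 := by linarith
    nlinarith
  · omega
  · omega
  · linarith
  · have h1 : (j : ℝ) ≤ n / 18 := by linarith
    have h2 : ((n : ℝ) / 2) ^ 2 ≤ (Real.log ((2 ^ (n + 2) : ℕ) : ℝ)) ^ 2 := pow_le_pow_left₀ (by positivity) hlog 2
    nlinarith

end Pool.Agent.Lib.MP_629a14_nt.Lk
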