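import Pool.Agent.Lib.MP_629a14_nt.Th.Defs

/-! Definitions for the criterion with a majorant and for sums of powers of two. -/

set_option autoImplicit false

namespace Pool.Agent.Lib.MP_629a14_nt.Lk

open Finset Pool.Agent.Lib.MP_629a14_nt Pool.Agent.Lib.MP_629a14_nt.Th

/-- The number of pairs of primes in `(P, 2N]` with difference `m`, weighted. -/
noncomputable def Rm (P N : ℕ) (m : ℤ) : ℝ :=
  ∑ p ∈ Icc 1 (2 * N), ∑ q ∈ Icc 1 (2 * N), if (p : ℤ) - q = m then aP P p * aP P q else 0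

/-- The cosine polynomial with coefficients `u`. -/
noncomputable def CU (u : ℤ → ℝ) (N : ℕ) (α : ℝ) : ℝ :=
  ∑ m ∈ Icc (-(N : ℤ)) N, u m * Real.cos (2 * Real.pi * m * α)

/-- The weights `u` are nonnegative with nonnegative cosine polynomial; they put little mass on zero and on integers
with many small prime factors. -/
def Maj (u : ℤ → ℝ) (N : ℕ) (K : ℝ) : Prop :=
  (∀ m, 0 ≤ u m) ∧ (∀ α, 0 ≤ CU u N α) ∧
    u 0 * (Real.log N) ^ 2 + ∑ m ∈ (Icc (-(N : ℤ)) N).erase 0, u m * ((m.natAbs : ℝ) / (m.natAbs.totient : ℝ)) ^ 2 ≤ K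

/-- The average of `e(2^a α)`, `1 ≤ a ≤ L`. -/
noncomputable def gg (L : ℕ) (α : ℝ) : ℂ := (1 / (L : ℂ)) * ∑ a ∈ Icc 1 L, ee ((2 : ℝ) ^ a * α)

/-- The tuples of `k` exponents. -/
def tup (k L : ℕ) : Finset (Fin k → ℕ) := Fintype.piFinset (fun _ => Icc 1 L)

/-- `s + σ ∑ 2^(a_i)`. -/
def xx (s σ : ℤ) {k : ℕ} (a : Fin k → ℕ) : ℤ := s + σ * ∑ i, (2 : ℤ) ^ (a i)

/-- The distribution of `xx`. -/
noncomputable def lw (k L : ℕ) (s σ : ℤ) (n : ℕ) : ℝ :=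
  (((tup k L).filter (fun a => xx s σ a = n)).card : ℝ) / (L : ℝ) ^ k

/-- The distribution of `2^a + 2^b - 2^c - 2^d`. -/
noncomputable def u4 (L : ℕ) (m : ℤ) : ℝ :=
  (((tup 4 L).filter (fun a => (2 : ℤ) ^ (a 0) + 2 ^ (a 1) - 2 ^ (a 2) - 2 ^ (a 3) = m)).card : ℝ) / (L : ℝ) ^ 4

end Pool.Agent.Lib.MP_629a14_nt.Lk
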