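import Pool.Agent.Lib.MP_629a14_nt.Lk.PairUp
import Pool.Agent.Lib.MP_629a14_nt.Lk.Defs
import Pool.Agent.Lib.MP_629a14_nt.Th.Vino2

/-! Bounds for `Rm`, and the quadratic form in the prime sums. -/

set_option autoImplicit false

namespace Pool.Agent.Lib.MP_629a14_nt.Lk

open Finset Pool.Agent.Lib.MP_629a14_nt Pool.Agent.Lib.MP_629a14_nt.Th

private theorem aPn (P m : ℕ) : 0 ≤ aP P m := by
  unfold aP
  split_ifs with h
  · exact Real.log_nonneg (by exact_mod_cast h.1.one_lt.le)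
  · exact le_refl _

private theorem aP_le_log (P N m : ℕ) (hm : m ∈ Icc 1 (2 * N)) :
    aP P m ≤ if m.Prime then Real.log (2 * N) else 0 := by
  rw [mem_Icc] at hm
  have hm1 : (1 : ℝ) ≤ m := by exact_mod_cast hm.1
  have hm2 : (m : ℝ) ≤ 2 * N := by exact_mod_cast hm.2
  have h3 : Real.log m ≤ Real.log (2 * N) := Real.log_le_log (by linarith) hm2
  have h4 : 0 ≤ Real.log m := Real.log_nonneg hm1
  unfold aP
  by_cases h : m.Prime
  · rw [if_pos h]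
    split_ifs
    · exact h3
    · exact h4.trans h3
  · rw [if_neg h, if_neg (fun h' => h h'.1)]

theorem Rm_nonneg (P N : ℕ) (m : ℤ) : 0 ≤ Rm P N m := by
  unfold Rm
  refine sum_nonneg fun p _ => sum_nonneg fun q _ => ?_
  split_ifs
  · exact mul_nonneg (aPn P p) (aPn P q)
  · exact le_refl _

/-- `∑ aP²`, `sum_aP_sq_le`. -/
theorem Rm_zero (P N : ℕ) : Rm P N 0 ≤ 4 * N * Real.log (2 * N) := by
  refine le_trans (le_of_eq ?_) (sum_aP_sq_le P N)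
  unfold Rm
  refine sum_congr rfl fun p hp => ?_
  rw [sum_eq_single_of_mem p hp]
  · rw [if_pos (sub_self _), pow_two]
  · intro q _ hq
    rw [if_neg]
    intro h
    apply hq
    have : (p : ℤ) = q := sub_eq_zero.1 h
    exact_mod_cast this.symm

private theorem Rm_neg (P N : ℕ) (m : ℤ) : Rm P N (-m) = Rm P N m := by
  unfold Rm
  rw [sum_comm]
  refine sum_congr rfl fun p _ => sum_congr rfl fun q _ => ?_
  have h : ((q : ℤ) - p = -m) ↔ ((p : ℤ) - q = m) := by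
    constructor <;> intro h <;> linarith
  by_cases h1 : (p : ℤ) - q = m
  · rw [if_pos h1, if_pos (h.2 h1), mul_comm]
  · rw [if_neg h1, if_neg (fun h' => h1 (h.1 h'))]

private theorem Rm_pos (P N m : ℕ) (hN : 2 ≤ N) :
    Rm P N m ≤ Real.log (2 * N) ^ 2 *
      (((Icc 1 (2 * N)).filter (fun p => p.Prime ∧ (p + m).Prime)).card : ℝ) := by
  have hN1 : 1 ≤ N := by omega
  have hl : 0 ≤ Real.log (2 * N) := by
    apply Real.log_nonneg
    have : (1 : ℝ) ≤ N := by exact_mod_cast hN1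
    linarith
  unfold Rm
  rw [sum_comm, card_filter]
  push_cast
  rw [mul_sum]
  refine sum_le_sum fun q hq => ?_
  -- the sum over p of the indicator of p = q + m
  have h1 : ∀ p ∈ Icc 1 (2 * N), (if (p : ℤ) - q = m then aP P p * aP P q else 0) ≤
      if p = q + m then Real.log (2 * N) ^ 2 * (if q.Prime ∧ (q + m).Prime then 1 else 0) else 0 := by
    intro p hp
    have he : ((p : ℤ) - q = m) ↔ p = q + m := by
      constructor <;> intro h <;> omega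
    by_cases h : p = q + m
    · rw [if_pos (he.2 h), if_pos h]
      have e1 := aP_le_log P N p hp
      have e2 := aP_le_log P N q hq
      by_cases hpp : p.Prime
      · by_cases hqp : q.Prime
        · rw [if_pos hpp] at e1
          rw [if_pos hqp] at e2
          rw [if_pos ⟨hqp, h ▸ hpp⟩, mul_one, pow_two]
          exact mul_le_mul e1 e2 (aPn P q) hl
        · rw [if_neg hqp] at e2
          have : aP P q = 0 := le_antisymm e2 (aPn P q)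
          rw [this, mul_zero]
          positivity
      · rw [if_neg hpp] at e1
        have : aP P p = 0 := le_antisymm e1 (aPn P p)
        rw [this, zero_mul]
        positivity
    · rw [if_neg (fun h' => h (he.1 h')), if_neg h]
  refine (sum_le_sum h1).trans ?_
  rw [sum_ite_eq']
  by_cases hqm : q + m ∈ Icc 1 (2 * N)
  · rw [if_pos hqm]
  · rw [if_neg hqm]
    positivity

/-- `pair_up`; the number of `q` with `q`, `q + |m|` prime and `q ≤ 2N`, times `(log 2N)²`. -/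
theorem Rm_le : ∃ C : ℝ, 1 ≤ C ∧ ∀ (P N : ℕ) (m : ℤ), 2 ≤ N → m ≠ 0 → m.natAbs ≤ 2 * N →
    Rm P N m ≤ C * N * ((m.natAbs : ℝ) / (m.natAbs.totient : ℝ)) := by
  obtain ⟨C, hC1, hC⟩ := pair_up
  refine ⟨4 * C, by linarith, ?_⟩
  intro P N m hN hm hmN
  have h0 : Rm P N m = Rm P N (m.natAbs : ℤ) := by
    rcases Int.natAbs_eq m with h | h
    · rw [← h]
    · conv_lhs => rw [h]
      rw [Rm_neg]
  rw [h0]
  have hk : 1 ≤ m.natAbs := Int.natAbs_pos.2 hm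
  have h1 := hC N m.natAbs hN hk hmN
  have h2 := Rm_pos P N m.natAbs hN
  have hN2 : (2 : ℝ) ≤ N := by exact_mod_cast hN
  have hlogN : 0 < Real.log N := Real.log_pos (by linarith)
  have hlog2 : Real.log (2 * N) ≤ 2 * Real.log N := by
    rw [Real.log_mul (by norm_num) (by linarith)]
    have : Real.log 2 ≤ Real.log N := Real.log_le_log (by norm_num) hN2
    linarith
  have hlog0 : 0 ≤ Real.log (2 * N) := Real.log_nonneg (by linarith)
  set r : ℝ := (m.natAbs : ℝ) / (m.natAbs.totient : ℝ) with hr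
  have hr0 : 0 ≤ r := by positivity
  calc Rm P N (m.natAbs : ℤ) ≤ Real.log (2 * N) ^ 2 * (C * N / (Real.log N) ^ 2 * r) :=
        h2.trans (mul_le_mul_of_nonneg_left h1 (by positivity))
    _ ≤ (2 * Real.log N) ^ 2 * (C * N / (Real.log N) ^ 2 * r) := by
        refine mul_le_mul_of_nonneg_right (pow_le_pow_left₀ hlog0 hlog2 2) ?_
        have : 0 ≤ C := by linarith
        positivity
    _ = 4 * C * N * r := by
        field_simp
        ring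

private theorem orth2 (Q : ℕ) (hQ : 1 ≤ Q) (j : ℤ) (hj : |j| < Q) :
    ∑ h ∈ range Q, ee ((h : ℝ) * ((j : ℝ) / Q)) = if j = 0 then (Q : ℂ) else 0 := by
  rw [sum_ee_range Q hQ]
  by_cases h0 : j = 0
  · rw [if_pos h0, h0, if_pos (dvd_zero _)]
  · rw [if_neg h0, if_neg]
    intro h
    exact h0 (Int.eq_zero_of_abs_lt_dvd h hj)

private theorem SS_sq (P N : ℕ) (α : ℝ) :
    ((‖SS P N α‖ : ℝ) : ℂ) ^ 2 = ∑ p ∈ Icc 1 (2 * N), ∑ q ∈ Icc 1 (2 * N),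
      (aP P p : ℂ) * (aP P q : ℂ) * ee (((p : ℤ) - (q : ℤ) : ℤ) * α) := by
  rw [← Complex.mul_conj']
  unfold SS
  rw [map_sum, sum_mul_sum]
  refine sum_congr rfl fun p _ => sum_congr rfl fun q _ => ?_
  rw [map_mul, conj_ee, Complex.conj_ofReal]
  have : ee ((((p : ℤ) - (q : ℤ) : ℤ) : ℝ) * α) = ee (p * α) * ee (-(q * α)) := by
    rw [← ee_add]
    congr 1
    push_cast
    ring
  rw [this]
  ring

/-- Orthogonality modulo `8N`: all frequencies `p - q - m` have absolute value `< 4N < 8N`. -/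
theorem Rm_four (P N : ℕ) (hN : 1 ≤ N) (m : ℤ) (hm : m.natAbs ≤ N) :
    ∑ h ∈ range (8 * N), (‖SS P N ((h : ℝ) / (8 * N : ℕ))‖ ^ 2 : ℂ) * ee (-(m * ((h : ℝ) / (8 * N : ℕ)))) =
      ((8 * N : ℕ) : ℂ) * (Rm P N m : ℂ) := by
  have hQ : 1 ≤ 8 * N := by omega
  have h1 : ∀ h ∈ range (8 * N),
      (‖SS P N ((h : ℝ) / (8 * N : ℕ))‖ ^ 2 : ℂ) * ee (-(m * ((h : ℝ) / (8 * N : ℕ)))) =
      ∑ p ∈ Icc 1 (2 * N), ∑ q ∈ Icc 1 (2 * N), (aP P p : ℂ) * (aP P q : ℂ) *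
        ee ((h : ℝ) * ((((p : ℤ) - (q : ℤ) - m : ℤ) : ℝ) / (8 * N : ℕ))) := by
    intro h _
    rw [SS_sq, sum_mul]
    refine sum_congr rfl fun p _ => ?_
    rw [sum_mul]
    refine sum_congr rfl fun q _ => ?_
    rw [mul_assoc, ← ee_add]
    congr 2
    push_cast
    ring
  rw [sum_congr rfl h1, sum_comm]
  unfold Rm
  push_cast
  rw [mul_sum]
  refine sum_congr rfl fun p hp => ?_
  rw [sum_comm, mul_sum]
  refine sum_congr rfl fun q hq => ?_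
  rw [← mul_sum]
  have hj : |(p : ℤ) - (q : ℤ) - m| < ((8 * N : ℕ) : ℤ) := by
    rw [mem_Icc] at hp hq
    have : |m| ≤ N := by
      rw [Int.abs_eq_natAbs]
      exact_mod_cast hm
    rw [abs_le] at this
    rw [abs_lt]
    push_cast
    constructor <;> omega
  have h2 := orth2 (8 * N) hQ _ hj
  push_cast at h2 ⊢
  rw [h2]
  by_cases h3 : (p : ℤ) - q = m
  · rw [if_pos h3, if_pos (by rw [h3]; exact sub_self m)]
    push_cast
    ring
  · rw [if_neg h3, if_neg (fun h' => h3 (sub_eq_zero.1 h'))]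
    push_cast
    ring

private theorem cos_eq (x : ℝ) : Real.cos (2 * Real.pi * x) = (ee x).re := by
  unfold ee
  have : (2 * Real.pi * x * Complex.I : ℂ) = ((2 * Real.pi * x : ℝ) : ℂ) * Complex.I := by
    push_cast; ring
  rw [this, Complex.exp_ofReal_mul_I_re]

/-- Expand `cos(2πm(h-h')/(8N))` as the real part of `e(mh/(8N)) e(-mh'/(8N))` and use `Rm_four`
(`Rm` is real and even). -/
theorem quad_eq (P N : ℕ) (hN : 1 ≤ N) (u : ℤ → ℝ) :
    ∑ h ∈ range (8 * N), ∑ h' ∈ range (8 * N), ‖SS P N ((h : ℝ) / (8 * N : ℕ))‖ ^ 2 *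
      ‖SS P N ((h' : ℝ) / (8 * N : ℕ))‖ ^ 2 * CU u N (((h : ℝ) - h') / (8 * N : ℕ)) =
      ((8 * N : ℕ) : ℝ) ^ 2 * ∑ m ∈ Icc (-(N : ℤ)) N, u m * Rm P N m ^ 2 := by
  -- the identity for one `m`
  have key : ∀ m ∈ Icc (-(N : ℤ)) N,
      ∑ h ∈ range (8 * N), ∑ h' ∈ range (8 * N), ‖SS P N ((h : ℝ) / (8 * N : ℕ))‖ ^ 2 *
        ‖SS P N ((h' : ℝ) / (8 * N : ℕ))‖ ^ 2 *
          Real.cos (2 * Real.pi * m * (((h : ℝ) - h') / (8 * N : ℕ))) =
        ((8 * N : ℕ) : ℝ) ^ 2 * Rm P N m ^ 2 := by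
    intro m hm
    rw [mem_Icc] at hm
    have hm1 : m.natAbs ≤ N := by omega
    have hm2 : (-m).natAbs ≤ N := by omega
    have e1 := Rm_four P N hN m hm1
    have e2 := Rm_four P N hN (-m) hm2
    rw [Rm_neg] at e2
    have e3 : ((∑ h ∈ range (8 * N), (‖SS P N ((h : ℝ) / (8 * N : ℕ))‖ ^ 2 : ℂ) *
        ee (-(((-m : ℤ) : ℝ) * ((h : ℝ) / (8 * N : ℕ))))) *
        (∑ h ∈ range (8 * N), (‖SS P N ((h : ℝ) / (8 * N : ℕ))‖ ^ 2 : ℂ) *
          ee (-(m * ((h : ℝ) / (8 * N : ℕ)))))).re = ((8 * N : ℕ) : ℝ) ^ 2 * Rm P N m ^ 2 := by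
      rw [e1, e2]
      have : (((8 * N : ℕ) : ℂ) * (Rm P N m : ℂ) * (((8 * N : ℕ) : ℂ) * (Rm P N m : ℂ))) =
          ((((8 * N : ℕ) : ℝ) ^ 2 * Rm P N m ^ 2 : ℝ) : ℂ) := by
        push_cast
        ring
      rw [this, Complex.ofReal_re]
    rw [← e3, sum_mul_sum, Complex.re_sum]
    refine sum_congr rfl fun h _ => ?_
    rw [Complex.re_sum]
    refine sum_congr rfl fun h' _ => ?_
    have e4 : (‖SS P N ((h : ℝ) / (8 * N : ℕ))‖ ^ 2 : ℂ) *
        ee (-(((-m : ℤ) : ℝ) * ((h : ℝ) / (8 * N : ℕ)))) *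
        ((‖SS P N ((h' : ℝ) / (8 * N : ℕ))‖ ^ 2 : ℂ) * ee (-(m * ((h' : ℝ) / (8 * N : ℕ))))) =
        ((‖SS P N ((h : ℝ) / (8 * N : ℕ))‖ ^ 2 * ‖SS P N ((h' : ℝ) / (8 * N : ℕ))‖ ^ 2 : ℝ) : ℂ) *
          ee (m * (((h : ℝ) - h') / (8 * N : ℕ))) := by
      have : ee (m * (((h : ℝ) - h') / (8 * N : ℕ))) =
          ee (-(((-m : ℤ) : ℝ) * ((h : ℝ) / (8 * N : ℕ)))) * ee (-(m * ((h' : ℝ) / (8 * N : ℕ)))) := by
        rw [← ee_add]
        congr 1
        push_cast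
        ring
      rw [this]
      push_cast
      ring
    rw [e4, Complex.re_ofReal_mul, ← cos_eq, mul_assoc (2 * Real.pi)]
  rw [mul_sum]
  have h2 : ∀ m ∈ Icc (-(N : ℤ)) N, ((8 * N : ℕ) : ℝ) ^ 2 * (u m * Rm P N m ^ 2) =
      ∑ h ∈ range (8 * N), ∑ h' ∈ range (8 * N), u m * (‖SS P N ((h : ℝ) / (8 * N : ℕ))‖ ^ 2 *
        ‖SS P N ((h' : ℝ) / (8 * N : ℕ))‖ ^ 2 *
          Real.cos (2 * Real.pi * m * (((h : ℝ) - h') / (8 * N : ℕ)))) := by
    intro m hm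
    rw [mul_left_comm, ← key m hm, mul_sum]
    refine sum_congr rfl fun h _ => ?_
    rw [mul_sum]
  rw [sum_congr rfl h2]
  symm
  rw [sum_comm]
  refine sum_congr rfl fun h _ => ?_
  rw [sum_comm]
  refine sum_congr rfl fun h' _ => ?_
  unfold CU
  rw [mul_sum]
  refine sum_congr rfl fun m _ => ?_
  ring

/-- `Rm_zero`, `Rm_le` and `Maj`. -/
theorem quad_le : ∃ C : ℝ, 1 ≤ C ∧ ∀ (P N : ℕ) (u : ℤ → ℝ) (K : ℝ), 3 ≤ N → Maj u N K →
    ∑ h ∈ range (8 * N), ∑ h' ∈ range (8 * N), ‖SS P N ((h : ℝ) / (8 * N : ℕ))‖ ^ 2 *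
      ‖SS P N ((h' : ℝ) / (8 * N : ℕ))‖ ^ 2 * CU u N (((h : ℝ) - h') / (8 * N : ℕ)) ≤
      C * K * (N : ℝ) ^ 2 * ((8 * N : ℕ) : ℝ) ^ 2 := by
  obtain ⟨C, hC1, hC⟩ := Rm_le
  refine ⟨64 * C ^ 2, by nlinarith, ?_⟩
  intro P N u K hN hM
  obtain ⟨hu, -, hK⟩ := hM
  rw [quad_eq P N (by omega) u]
  have hN2 : (2 : ℝ) ≤ N := by exact_mod_cast (by omega : 2 ≤ N)
  have hlogN : 0 < Real.log N := Real.log_pos (by linarith)
  have hlog2 : Real.log (2 * N) ≤ 2 * Real.log N := by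
    rw [Real.log_mul (by norm_num) (by linarith)]
    have : Real.log 2 ≤ Real.log N := Real.log_le_log (by norm_num) hN2
    linarith
  have hlog0 : 0 ≤ Real.log (2 * N) := Real.log_nonneg (by linarith)
  have hC2 : 1 ≤ C ^ 2 := one_le_pow₀ hC1
  have h0mem : (0 : ℤ) ∈ Icc (-(N : ℤ)) N := by
    rw [mem_Icc]
    constructor <;> omega
  have hz : u 0 * Rm P N 0 ^ 2 ≤ 64 * C ^ 2 * (N : ℝ) ^ 2 * (u 0 * Real.log N ^ 2) := by
    have h1 : Rm P N 0 ≤ 8 * N * Real.log N := by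
      refine (Rm_zero P N).trans ?_
      nlinarith [mul_le_mul_of_nonneg_left hlog2 (by linarith : (0 : ℝ) ≤ N)]
    have h2 : Rm P N 0 ^ 2 ≤ (8 * N * Real.log N) ^ 2 := pow_le_pow_left₀ (Rm_nonneg P N 0) h1 2
    calc u 0 * Rm P N 0 ^ 2 ≤ u 0 * (8 * N * Real.log N) ^ 2 := mul_le_mul_of_nonneg_left h2 (hu 0)
      _ = 1 * (64 * (N : ℝ) ^ 2 * (u 0 * Real.log N ^ 2)) := by ring
      _ ≤ C ^ 2 * (64 * (N : ℝ) ^ 2 * (u 0 * Real.log N ^ 2)) := by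
          refine mul_le_mul_of_nonneg_right hC2 ?_
          have := hu 0
          positivity
      _ = 64 * C ^ 2 * (N : ℝ) ^ 2 * (u 0 * Real.log N ^ 2) := by ring
  have hnz : ∀ m ∈ (Icc (-(N : ℤ)) N).erase 0, u m * Rm P N m ^ 2 ≤
      64 * C ^ 2 * (N : ℝ) ^ 2 * (u m * ((m.natAbs : ℝ) / (m.natAbs.totient : ℝ)) ^ 2) := by
    intro m hm
    rw [mem_erase, mem_Icc] at hm
    have h1 := hC P N m (by omega) hm.1 (by omega)
    have h2 := pow_le_pow_left₀ (Rm_nonneg P N m) h1 2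
    have hu0 := hu m
    calc u m * Rm P N m ^ 2 ≤ u m * (C * N * ((m.natAbs : ℝ) / (m.natAbs.totient : ℝ))) ^ 2 :=
          mul_le_mul_of_nonneg_left h2 hu0
      _ = 1 * (C ^ 2 * (N : ℝ) ^ 2 * (u m * ((m.natAbs : ℝ) / (m.natAbs.totient : ℝ)) ^ 2)) := by ring
      _ ≤ 64 * (C ^ 2 * (N : ℝ) ^ 2 * (u m * ((m.natAbs : ℝ) / (m.natAbs.totient : ℝ)) ^ 2)) := by
          refine mul_le_mul_of_nonneg_right (by norm_num) ?_
          positivity
      _ = _ := by ring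
  have hsum : ∑ m ∈ Icc (-(N : ℤ)) N, u m * Rm P N m ^ 2 ≤ 64 * C ^ 2 * (N : ℝ) ^ 2 * K := by
    rw [← add_sum_erase _ _ h0mem]
    calc u 0 * Rm P N 0 ^ 2 + ∑ m ∈ (Icc (-(N : ℤ)) N).erase 0, u m * Rm P N m ^ 2
        ≤ 64 * C ^ 2 * (N : ℝ) ^ 2 * (u 0 * Real.log N ^ 2) +
          ∑ m ∈ (Icc (-(N : ℤ)) N).erase 0,
            64 * C ^ 2 * (N : ℝ) ^ 2 * (u m * ((m.natAbs : ℝ) / (m.natAbs.totient : ℝ)) ^ 2) :=
          add_le_add hz (sum_le_sum hnz)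
      _ = 64 * C ^ 2 * (N : ℝ) ^ 2 * (u 0 * Real.log N ^ 2 +
          ∑ m ∈ (Icc (-(N : ℤ)) N).erase 0, u m * ((m.natAbs : ℝ) / (m.natAbs.totient : ℝ)) ^ 2) := by
          rw [← mul_sum]
          ring
      _ ≤ 64 * C ^ 2 * (N : ℝ) ^ 2 * K := mul_le_mul_of_nonneg_left hK (by positivity)
  calc ((8 * N : ℕ) : ℝ) ^ 2 * ∑ m ∈ Icc (-(N : ℤ)) N, u m * Rm P N m ^ 2
      ≤ ((8 * N : ℕ) : ℝ) ^ 2 * (64 * C ^ 2 * (N : ℝ) ^ 2 * K) :=
        mul_le_mul_of_nonneg_left hsum (by positivity)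
    _ = 64 * C ^ 2 * K * (N : ℝ) ^ 2 * ((8 * N : ℕ) : ℝ) ^ 2 := by ring

end Pool.Agent.Lib.MP_629a14_nt.Lk
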