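import Pool.Agent.Lib.MP_629a14_nt.Lk.Defs
import Pool.Agent.Lib.MP_629a14_nt.Th.Spec

/-! From the measure to the number of frequencies, with a majorant. -/

set_option autoImplicit false

namespace Pool.Agent.Lib.MP_629a14_nt.Lk

open Finset Pool.Agent.Lib.MP_629a14_nt Pool.Agent.Lib.MP_629a14_nt.Th MeasureTheory

private theorem SpecU_mass (u : ℤ → ℝ) (N : ℕ) (K : ℝ) (hN : 3 ≤ N) (hu : Maj u N K) :
    ∑ m ∈ Icc (-(N : ℤ)) N, u m ≤ K := by
  obtain ⟨h0, _, h2⟩ := hu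
  have hmem : (0 : ℤ) ∈ Icc (-(N : ℤ)) N := by
    rw [mem_Icc]
    constructor <;> omega
  rw [← add_sum_erase _ _ hmem]
  refine le_trans (add_le_add ?_ (sum_le_sum fun m hm => ?_)) h2
  · have hN3 : (3 : ℝ) ≤ N := by exact_mod_cast hN
    have hl : 1 ≤ Real.log N := by
      rw [Real.le_log_iff_exp_le (by linarith)]
      have := Real.exp_one_lt_d9
      linarith
    exact le_mul_of_one_le_right (h0 0) (one_le_pow₀ hl)
  · rw [mem_erase] at hm
    have h1 : 0 < m.natAbs := Int.natAbs_pos.2 hm.1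
    have h3 : (0 : ℝ) < (m.natAbs.totient : ℝ) := by exact_mod_cast Nat.totient_pos.2 h1
    have h4 : (m.natAbs.totient : ℝ) ≤ (m.natAbs : ℝ) := by exact_mod_cast Nat.totient_le _
    have h5 : 1 ≤ (m.natAbs : ℝ) / (m.natAbs.totient : ℝ) := (one_le_div h3).2 h4
    exact le_mul_of_one_le_right (h0 m) (one_le_pow₀ h5)

/-- `|cos x - cos y| ≤ |x - y|`; `∑ u m ≤ 2K`: `u 0 ≤ K/(log N)² ≤ K` and `(m/φ(m))² ≥ 1`. -/
theorem CU_lip (u : ℤ → ℝ) (N : ℕ) (K : ℝ) (hN : 3 ≤ N) (hu : Maj u N K) (α β : ℝ) :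
    |CU u N α - CU u N β| ≤ 4 * Real.pi * N * K * |α - β| := by
  have hm := SpecU_mass u N K hN hu
  have hm0 : 0 ≤ ∑ m ∈ Icc (-(N : ℤ)) N, u m := sum_nonneg fun m _ => hu.1 m
  have hpi := Real.pi_pos
  unfold CU
  rw [← sum_sub_distrib]
  refine (abs_sum_le_sum_abs _ _).trans ?_
  have h1 : ∀ m ∈ Icc (-(N : ℤ)) N, |u m * Real.cos (2 * Real.pi * m * α) -
      u m * Real.cos (2 * Real.pi * m * β)| ≤ u m * (2 * Real.pi * N * |α - β|) := by
    intro m hm
    rw [mem_Icc] at hm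
    have hm1 : |(m : ℝ)| ≤ N := by
      rw [abs_le]
      constructor
      · exact_mod_cast hm.1
      · exact_mod_cast hm.2
    rw [← mul_sub, abs_mul, abs_of_nonneg (hu.1 m)]
    refine mul_le_mul_of_nonneg_left ?_ (hu.1 m)
    refine (Real.abs_cos_sub_cos_le _ _).trans ?_
    have e : 2 * Real.pi * (m : ℝ) * α - 2 * Real.pi * m * β = (2 * Real.pi) * m * (α - β) := by
      ring
    rw [e, abs_mul, abs_mul, abs_of_pos (by positivity : (0 : ℝ) < 2 * Real.pi)]
    gcongr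
  refine (sum_le_sum h1).trans ?_
  rw [← sum_mul]
  have h2 : 0 ≤ 2 * Real.pi * N * |α - β| := by positivity
  have h3 : (∑ m ∈ Icc (-(N : ℤ)) N, u m) * (2 * Real.pi * N * |α - β|) ≤
      K * (2 * Real.pi * N * |α - β|) := mul_le_mul_of_nonneg_right hm h2
  have h4 : 0 ≤ K * (2 * Real.pi * N * |α - β|) := mul_nonneg (hm0.trans hm) h2
  linarith

private theorem SpecU_ee (s t : ℝ) : ‖ee s - ee t‖ ≤ 2 * Real.pi * |s - t| := by
  have h1 : ee s - ee t = ee t * (Complex.exp (Complex.I * ((2 * Real.pi * (s - t) : ℝ) : ℂ)) - 1) := by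
    unfold ee
    rw [mul_sub, mul_one, ← Complex.exp_add]
    congr 2
    push_cast
    ring
  have h2 : ‖ee t‖ = 1 := by
    unfold ee
    have : (2 * (Real.pi : ℂ) * (t : ℂ) * Complex.I) = Complex.I * ((2 * Real.pi * t : ℝ) : ℂ) := by
      push_cast
      ring
    rw [this, Complex.norm_exp_I_mul_ofReal]
  rw [h1, norm_mul, h2, one_mul]
  refine (Real.norm_exp_I_mul_ofReal_sub_one_le).trans ?_
  rw [Real.norm_eq_abs, abs_mul, abs_of_pos (by positivity : (0 : ℝ) < 2 * Real.pi)]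

private theorem SpecU_lip (N : ℕ) (w : ℕ → ℝ) (hw : ∀ n, 0 ≤ w n) (hw1 : ∑ n ∈ Icc 1 N, w n ≤ 1)
    (α β : ℝ) : ‖WW w N α - WW w N β‖ ≤ 2 * Real.pi * N * |α - β| := by
  unfold WW
  rw [← sum_sub_distrib]
  refine (norm_sum_le _ _).trans ?_
  have h1 : ∀ n ∈ Icc 1 N, ‖(w n : ℂ) * ee (n * α) - (w n : ℂ) * ee (n * β)‖ ≤
      w n * (2 * Real.pi * N * |α - β|) := by
    intro n hn
    rw [mem_Icc] at hn
    rw [← mul_sub, norm_mul, Complex.norm_real, Real.norm_eq_abs, abs_of_nonneg (hw n)]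
    refine mul_le_mul_of_nonneg_left ?_ (hw n)
    refine (SpecU_ee _ _).trans ?_
    rw [← mul_sub, abs_mul, Nat.abs_cast]
    have hnN : (n : ℝ) ≤ N := by exact_mod_cast hn.2
    have hpi := Real.pi_pos
    calc 2 * Real.pi * ((n : ℝ) * |α - β|) = (2 * Real.pi * |α - β|) * n := by ring
      _ ≤ (2 * Real.pi * |α - β|) * N := mul_le_mul_of_nonneg_left hnN (by positivity)
      _ = _ := by ring
  refine (sum_le_sum h1).trans ?_
  rw [← sum_mul]
  have : 0 ≤ 2 * Real.pi * N * |α - β| := by positivity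
  nlinarith

/-- Proof (compare `Th.spec_count`). Let `ρ = κ'/(64N(1+K))`. For each `h` counted and `|α - h/(8N)| ≤ ρ`:
`‖WW(α)‖ ≥ ‖WW(h/8N)‖ - 2πNρ > 2κ CU(h/8N) + κ' - 2πNρ ≥ κ CU(α) + κ' - 2πNρ - 4πNKκρ > κ CU(α)`
(`κ ≤ 1`, `2π(1+2K)/(64(1+K)) < 1`). These intervals do not overlap. -/
theorem spec_countU (N : ℕ) (hN : 3 ≤ N) (w : ℕ → ℝ) (u : ℤ → ℝ) (K : ℝ) (hK : 0 ≤ K) (hu : Maj u N K)
    (hw : ∀ n, 0 ≤ w n) (hw1 : ∑ n ∈ Icc 1 N, w n ≤ 1) (κ κ' μ : ℝ) (hκ : 0 < κ) (hκ1 : κ ≤ 1)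
    (hκ' : 0 < κ') (hκ'1 : κ' ≤ 1) (hμ : 0 ≤ μ)
    (h : volume {α : ℝ | α ∈ Set.Icc (0 : ℝ) 1 ∧ κ * CU u N α < ‖WW w N α‖} ≤ ENNReal.ofReal μ) :
    (((range (8 * N)).filter (fun h : ℕ =>
      2 * κ * CU u N ((h : ℝ) / (8 * N : ℕ)) + κ' < ‖WW w N ((h : ℝ) / (8 * N : ℕ))‖)).card : ℝ) ≤
      32 * N * (1 + K) * μ / κ' + 1 := by
  classical
  have hN3 : (3 : ℝ) ≤ N := by exact_mod_cast hN
  have hN0 : (0 : ℝ) < N := by linarith
  set S := (range (8 * N)).filter (fun h : ℕ =>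
      2 * κ * CU u N ((h : ℝ) / (8 * N : ℕ)) + κ' < ‖WW w N ((h : ℝ) / (8 * N : ℕ))‖) with hS
  set S' := S.erase 0 with hS'
  set r : ℝ := κ' / (64 * N * (1 + K)) with hr
  have hK1 : 0 < 1 + K := by linarith
  have hr0 : 0 < r := by positivity
  have hr1 : r ≤ 1 / (16 * N) := by
    rw [hr]
    apply div_le_div₀ (by norm_num) hκ'1 (by positivity)
    nlinarith
  have hrN : N * r * (1 + K) = κ' / 64 := by
    rw [hr]
    field_simp
  set c : ℕ → ℝ := fun h => (h : ℝ) / (8 * N : ℕ) with hc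
  have hceq : ∀ k : ℕ, c k = (k : ℝ) / (8 * N) := by
    intro k
    rw [hc]
    push_cast
    rfl
  set I : ℕ → Set ℝ := fun k => Set.Ioo (c k - r) (c k + r) with hI
  have hcard : S.card ≤ S'.card + 1 := by
    rw [hS']
    have := Finset.pred_card_le_card_erase (s := S) (a := 0)
    omega
  have hsub : (⋃ k ∈ S', I k) ⊆ {α : ℝ | α ∈ Set.Icc (0 : ℝ) 1 ∧ κ * CU u N α < ‖WW w N α‖} := by
    intro α hα
    rw [Set.mem_iUnion₂] at hα
    obtain ⟨k, hk, hαk⟩ := hα
    rw [hS', mem_erase, hS, mem_filter, mem_range] at hk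
    obtain ⟨hk0, hkN, hkw⟩ := hk
    have hαk1 : c k - r < α := hαk.1
    have hαk2 : α < c k + r := hαk.2
    have hk1 : (1 : ℝ) ≤ k := by exact_mod_cast (by omega : 1 ≤ k)
    have hk2 : (k : ℝ) + 1 ≤ 8 * N := by exact_mod_cast (by omega : k + 1 ≤ 8 * N)
    have e1 : 1 / (16 * (N : ℝ)) ≤ c k := by
      rw [hceq, div_le_div_iff₀ (by positivity) (by positivity)]
      nlinarith
    have e2 : c k + 1 / (16 * (N : ℝ)) ≤ 1 := by
      rw [hceq, div_add_div _ _ (by positivity) (by positivity), div_le_one (by positivity)]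
      nlinarith
    refine ⟨⟨by linarith, by linarith⟩, ?_⟩
    have h1 := SpecU_lip N w hw hw1 (c k) α
    have hL := CU_lip u N K hN hu (c k) α
    have h2 : |c k - α| ≤ r := by
      rw [abs_le]
      constructor <;> linarith
    have h3 : ‖WW w N (c k)‖ ≤ ‖WW w N (c k) - WW w N α‖ + ‖WW w N α‖ := by
      have := norm_add_le (WW w N (c k) - WW w N α) (WW w N α)
      rwa [sub_add_cancel] at this
    have h4 : 2 * κ * CU u N (c k) + κ' < ‖WW w N (c k)‖ := hkw
    have hpi := Real.pi_pos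
    have hpi4 := Real.pi_lt_four
    have h5 : 2 * Real.pi * N * |c k - α| ≤ 2 * Real.pi * (N * r) := by
      calc 2 * Real.pi * N * |c k - α| ≤ 2 * Real.pi * N * r :=
            mul_le_mul_of_nonneg_left h2 (by positivity)
        _ = _ := by ring
    have h6 : 4 * Real.pi * N * K * |c k - α| ≤ 4 * Real.pi * (N * r) * K := by
      calc 4 * Real.pi * N * K * |c k - α| ≤ 4 * Real.pi * N * K * r :=
            mul_le_mul_of_nonneg_left h2 (by positivity)
        _ = _ := by ring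
    have h7 := (abs_le.1 hL).1
    have h0 := hu.2.1 (c k)
    have h8 : κ * CU u N α ≤ κ * CU u N (c k) + 4 * Real.pi * (N * r) * K := by
      have e3 : CU u N α ≤ CU u N (c k) + 4 * Real.pi * (N * r) * K := by linarith
      have e4 : 0 ≤ 4 * Real.pi * (N * r) * K := by positivity
      nlinarith
    have h9 : κ * CU u N (c k) ≤ 2 * κ * CU u N (c k) := by
      nlinarith
    have h10 : 2 * Real.pi * (N * r) + 4 * Real.pi * (N * r) * K ≤ κ' := by
      have e5 : 0 ≤ (N : ℝ) * r := by positivity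
      have e6 : 2 * Real.pi * (N * r) + 4 * Real.pi * (N * r) * K ≤
          4 * Real.pi * (N * r * (1 + K)) := by
        nlinarith [mul_nonneg hpi.le e5]
      rw [hrN] at e6
      nlinarith
    linarith
  have hdisj : (S' : Set ℕ).PairwiseDisjoint I := by
    intro k _ l _ hkl
    rw [Function.onFun, Set.disjoint_left]
    intro α hα hα'
    have hαk1 : c k - r < α := hα.1
    have hαk2 : α < c k + r := hα.2
    have hαl1 : c l - r < α := hα'.1
    have hαl2 : α < c l + r := hα'.2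
    have key : ∀ x y : ℕ, x < y → c x + 2 * (1 / (16 * (N : ℝ))) ≤ c y := by
      intro x y hxy
      have h1 : (x : ℝ) + 1 ≤ y := by exact_mod_cast hxy
      rw [hceq, hceq]
      have h2 : (x : ℝ) / (8 * N) + 2 * (1 / (16 * (N : ℝ))) = ((x : ℝ) + 1) / (8 * N) := by
        field_simp
        ring
      rw [h2]
      exact div_le_div_of_nonneg_right h1 (by positivity)
    rcases lt_or_gt_of_ne hkl with h1 | h1
    · have := key k l h1
      linarith
    · have := key l k h1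
      linarith
  have hmeas := measure_biUnion_finset (μ := (volume : Measure ℝ)) hdisj (fun k _ => measurableSet_Ioo)
  have hvol : ∀ k ∈ S', volume (I k) = ENNReal.ofReal (κ' / (32 * N * (1 + K))) := by
    intro k _
    rw [hI]
    simp only
    rw [Real.volume_Ioo]
    congr 1
    rw [hr]
    field_simp
    ring
  rw [sum_congr rfl hvol, sum_const, nsmul_eq_mul] at hmeas
  have h6 : (S'.card : ENNReal) * ENNReal.ofReal (κ' / (32 * N * (1 + K))) ≤ ENNReal.ofReal μ := by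
    rw [← hmeas]
    exact (measure_mono hsub).trans h
  have h7 : (S'.card : ℝ) * (κ' / (32 * N * (1 + K))) ≤ μ := by
    rw [← ENNReal.ofReal_natCast, ← ENNReal.ofReal_mul (Nat.cast_nonneg _)] at h6
    exact (ENNReal.ofReal_le_ofReal_iff hμ).1 h6
  have h8 : (S'.card : ℝ) ≤ 32 * N * (1 + K) * μ / κ' := by
    rw [le_div_iff₀ hκ']
    have h9 : (S'.card : ℝ) * (κ' / (32 * N * (1 + K))) * (32 * N * (1 + K)) ≤
        μ * (32 * N * (1 + K)) :=
      mul_le_mul_of_nonneg_right h7 (by positivity)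
    have h10 : (S'.card : ℝ) * (κ' / (32 * N * (1 + K))) * (32 * N * (1 + K)) =
        (S'.card : ℝ) * κ' := by
      field_simp
    rw [h10] at h9
    linarith
  have h9 : (S.card : ℝ) ≤ (S'.card : ℝ) + 1 := by exact_mod_cast hcard
  linarith

end Pool.Agent.Lib.MP_629a14_nt.Lk
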