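import Pool.Agent.Lib.MP_629a14_nt.Lk.Defs
import Pool.Agent.Lib.MP_629a14_nt.Th.TT

/-! The mean square over a family, with a majorant for the Fourier transform. -/

set_option autoImplicit false

namespace Pool.Agent.Lib.MP_629a14_nt.Lk

open Finset Pool.Agent.Lib.MP_629a14_nt Pool.Agent.Lib.MP_629a14_nt.Th

private lemma TTu_conj_ee (t : ℝ) : (starRingEnd ℂ) (ee t) = ee (-t) := by
  unfold ee
  rw [← Complex.exp_conj]
  congr 1
  have h2 : (starRingEnd ℂ) 2 = 2 := map_ofNat _ 2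
  simp [Complex.conj_ofReal, h2]

private lemma TTu_norm_eep (t : ℝ) : ‖ee t‖ = 1 := by
  unfold ee
  have : (2 * (Real.pi : ℂ) * (t : ℂ) * Complex.I) = ((2 * Real.pi * t : ℝ) : ℂ) * Complex.I := by
    push_cast; ring
  rw [this, Complex.norm_exp_ofReal_mul_I]

private lemma TTu_WW_add_one (w : ℕ → ℝ) (N : ℕ) (x : ℝ) : WW w N (x + 1) = WW w N x := by
  unfold WW
  refine Finset.sum_congr rfl fun n _ => ?_
  congr 1
  rw [mul_add, ee_add, mul_one]
  have := ee_int (n : ℤ)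
  rw [Int.cast_natCast] at this
  rw [this, mul_one]

private lemma TTu_WW_norm (w : ℕ → ℝ) (N : ℕ) (hw : ∀ n, 0 ≤ w n) (x : ℝ) :
    ‖WW w N x‖ ≤ ∑ n ∈ Icc 1 N, w n := by
  unfold WW
  refine (norm_sum_le _ _).trans (Finset.sum_le_sum fun n _ => ?_)
  rw [norm_mul, TTu_norm_eep, mul_one, Complex.norm_real, Real.norm_of_nonneg (hw n)]

private lemma TTu_key (M N : ℕ) (V : ℕ → ℂ) (w : ℕ → ℝ) (n : ℕ) :
    ((w n * ‖(1 / (M : ℂ)) * ∑ h ∈ range M, V h * ee (-(n * (h / M)))‖ ^ 2 : ℝ) : ℂ) =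
      (1 / (M : ℂ) ^ 2) * ∑ h ∈ range M, ∑ h' ∈ range M,
        V h * (starRingEnd ℂ) (V h') * ((w n : ℂ) * ee (n * (((h' : ℝ) - h) / M))) := by
  set S := ∑ h ∈ range M, V h * ee (-((n : ℝ) * ((h : ℝ) / M))) with hS
  have h1 : ((‖(1 / (M : ℂ)) * S‖ ^ 2 : ℝ) : ℂ) =
      (1 / (M : ℂ) ^ 2) * (S * (starRingEnd ℂ) S) := by
    rw [← Complex.normSq_eq_norm_sq, ← Complex.mul_conj]
    simp only [map_mul, map_div₀, map_one, map_natCast]
    ring
  rw [Complex.ofReal_mul, h1]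
  have h2 : S * (starRingEnd ℂ) S = ∑ h ∈ range M, ∑ h' ∈ range M,
      V h * (starRingEnd ℂ) (V h') * ee (n * (((h' : ℝ) - h) / M)) := by
    rw [hS, map_sum, Finset.sum_mul_sum]
    refine Finset.sum_congr rfl fun h _ => Finset.sum_congr rfl fun h' _ => ?_
    rw [map_mul, TTu_conj_ee, neg_neg]
    have : (n : ℝ) * (((h' : ℝ) - h) / M) = -(n * (h / M)) + n * (h' / M) := by ring
    rw [this, ee_add]
    ring
  rw [h2, ← mul_assoc, mul_comm (w n : ℂ), mul_assoc, Finset.mul_sum]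
  congr 1
  refine Finset.sum_congr rfl fun h _ => ?_
  rw [Finset.mul_sum]
  refine Finset.sum_congr rfl fun h' _ => ?_
  ring

private lemma TTu_CU_neg (u : ℤ → ℝ) (N : ℕ) (x : ℝ) : CU u N (-x) = CU u N x := by
  unfold CU
  refine Finset.sum_congr rfl fun m _ => ?_
  rw [show 2 * Real.pi * (m : ℝ) * -x = -(2 * Real.pi * m * x) by ring, Real.cos_neg]

private lemma TTu_CU_add_one (u : ℤ → ℝ) (N : ℕ) (x : ℝ) : CU u N (x + 1) = CU u N x := by
  unfold CU
  refine Finset.sum_congr rfl fun m _ => ?_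
  rw [show 2 * Real.pi * (m : ℝ) * (x + 1) = 2 * Real.pi * m * x + (m : ℤ) * (2 * Real.pi) by ring,
    Real.cos_add_int_mul_two_pi]

/-- Proof. As `Th.tt`: the left side is `(1/M²) ∑_{h,h'} V_h conj(V_{h'}) WW((h'-h)/M)` (`‖WW‖` and `CU` are even and
periodic). The pairs with `‖WW‖ ≤ κ CU + κ'` contribute the first two terms, the others at most
`(1/M²) ∑_h ‖V_h‖ · b · #{bad residues}`. -/
theorem ttu (M N : ℕ) (hM : 1 ≤ M) (V : ℕ → ℂ) (w : ℕ → ℝ) (u : ℤ → ℝ) (hw : ∀ n, 0 ≤ w n) (κ κ' b : ℝ)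
    (hκ : 0 ≤ κ) (hκ' : 0 ≤ κ') (hu : ∀ α, 0 ≤ CU u N α)
    (hb : ∀ h ∈ range M, ‖V h‖ ≤ b) (hw1 : ∑ n ∈ Icc 1 N, w n ≤ 1) :
    ∑ n ∈ Icc 1 N, w n * ‖(1 / (M : ℂ)) * ∑ h ∈ range M, V h * ee (-(n * (h / M)))‖ ^ 2 ≤
      (1 / (M : ℝ) ^ 2) *
        (κ * (∑ h ∈ range M, ∑ h' ∈ range M, ‖V h‖ * ‖V h'‖ * CU u N (((h : ℝ) - h') / M)) +
        κ' * (∑ h ∈ range M, ‖V h‖) ^ 2 +
        b * (∑ h ∈ range M, ‖V h‖) *
          ((range M).filter (fun h : ℕ => κ * CU u N ((h : ℝ) / M) + κ' < ‖WW w N ((h : ℝ) / M)‖)).card) := by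
  have hMp : (0 : ℝ) < M := by exact_mod_cast hM
  have hb0 : 0 ≤ b := (norm_nonneg _).trans (hb 0 (Finset.mem_range.2 hM))
  set C := ((range M).filter (fun h : ℕ => κ * CU u N ((h : ℝ) / M) + κ' < ‖WW w N ((h : ℝ) / M)‖)).card with hC
  -- the left side as a complex number
  have e1 : ((∑ n ∈ Icc 1 N, w n * ‖(1 / (M : ℂ)) * ∑ h ∈ range M, V h * ee (-(n * (h / M)))‖ ^ 2 : ℝ) : ℂ)
      = (1 / (M : ℂ) ^ 2) * ∑ h ∈ range M, ∑ h' ∈ range M,
        V h * (starRingEnd ℂ) (V h') * WW w N (((h' : ℝ) - h) / M) := by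
    rw [Complex.ofReal_sum]
    rw [Finset.sum_congr rfl fun n _ => TTu_key M N V w n]
    rw [← Finset.mul_sum]
    congr 1
    rw [Finset.sum_comm]
    refine Finset.sum_congr rfl fun h _ => ?_
    rw [Finset.sum_comm]
    refine Finset.sum_congr rfl fun h' _ => ?_
    rw [← Finset.mul_sum]
    rfl
  have e2 : (∑ n ∈ Icc 1 N, w n * ‖(1 / (M : ℂ)) * ∑ h ∈ range M, V h * ee (-(n * (h / M)))‖ ^ 2 : ℝ)
      ≤ (1 / (M : ℝ) ^ 2) * ∑ h ∈ range M, ∑ h' ∈ range M,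
        ‖V h‖ * ‖V h'‖ * ‖WW w N (((h' : ℝ) - h) / M)‖ := by
    have : (∑ n ∈ Icc 1 N, w n * ‖(1 / (M : ℂ)) * ∑ h ∈ range M, V h * ee (-(n * (h / M)))‖ ^ 2 : ℝ)
      ≤ ‖((∑ n ∈ Icc 1 N, w n * ‖(1 / (M : ℂ)) * ∑ h ∈ range M, V h * ee (-(n * (h / M)))‖ ^ 2 : ℝ) : ℂ)‖ := by
      rw [Complex.norm_real]
      exact Real.le_norm_self _
    refine this.trans ?_
    rw [e1, norm_mul]
    have hn : ‖(1 / (M : ℂ) ^ 2)‖ = 1 / (M : ℝ) ^ 2 := by
      rw [norm_div, norm_one, norm_pow, Complex.norm_natCast]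
    rw [hn]
    refine mul_le_mul_of_nonneg_left ?_ (by positivity)
    refine (norm_sum_le _ _).trans (Finset.sum_le_sum fun h _ => ?_)
    refine (norm_sum_le _ _).trans (Finset.sum_le_sum fun h' _ => ?_)
    rw [norm_mul, norm_mul, RCLike.norm_conj]
  refine e2.trans (mul_le_mul_of_nonneg_left ?_ (by positivity))
  -- the shift map
  let f : ℕ → ℕ → ℕ := fun h h' => if h ≤ h' then h' - h else h' + M - h
  have hf1 : ∀ h ∈ range M, ∀ h' ∈ range M, f h h' ∈ range M := by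
    intro h hh h' hh'
    simp only [Finset.mem_range] at hh hh' ⊢
    simp only [f]
    split_ifs <;> omega
  have hf2 : ∀ h ∈ range M, ∀ a ∈ range M, ∀ b ∈ range M, f h a = f h b → a = b := by
    intro h hh a ha b hb' hab
    simp only [Finset.mem_range] at hh ha hb'
    simp only [f] at hab
    split_ifs at hab <;> omega
  have hf3 : ∀ h ∈ range M, ∀ h' ∈ range M, WW w N (((h' : ℝ) - h) / M) = WW w N ((f h h' : ℕ) / M) := by
    intro h hh h' hh'
    simp only [Finset.mem_range] at hh hh'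
    simp only [f]
    split_ifs with hle
    · rw [Nat.cast_sub hle]
    · have hle' : h ≤ h' + M := by omega
      rw [Nat.cast_sub hle', Nat.cast_add]
      rw [← TTu_WW_add_one w N (((h' : ℝ) - h) / M)]
      congr 1
      field_simp
      ring
  have hf4 : ∀ h ∈ range M, ∀ h' ∈ range M, CU u N (((h : ℝ) - h') / M) = CU u N ((f h h' : ℕ) / M) := by
    intro h hh h' hh'
    rw [← TTu_CU_neg]
    have h0 : -(((h : ℝ) - h') / M) = ((h' : ℝ) - h) / M := by ring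
    rw [h0]
    simp only [Finset.mem_range] at hh hh'
    simp only [f]
    split_ifs with hle
    · rw [Nat.cast_sub hle]
    · have hle' : h ≤ h' + M := by omega
      rw [Nat.cast_sub hle', Nat.cast_add]
      rw [← TTu_CU_add_one u N (((h' : ℝ) - h) / M)]
      congr 1
      field_simp
      ring
  have main : ∀ h ∈ range M, ∑ h' ∈ range M, ‖V h'‖ * ‖WW w N (((h' : ℝ) - h) / M)‖ ≤
      κ * (∑ h' ∈ range M, ‖V h'‖ * CU u N (((h : ℝ) - h') / M)) + κ' * (∑ h ∈ range M, ‖V h‖) + b * C := by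
    intro h hh
    have hp : ∀ h' ∈ range M, ‖V h'‖ * ‖WW w N (((h' : ℝ) - h) / M)‖ ≤
        κ * (‖V h'‖ * CU u N (((h : ℝ) - h') / M)) + κ' * ‖V h'‖ +
          b * (if κ * CU u N ((f h h' : ℕ) / M) + κ' < ‖WW w N ((f h h' : ℕ) / M)‖ then 1 else 0) := by
      intro h' hh'
      rw [hf3 h hh h' hh', hf4 h hh h' hh']
      have h3 := norm_nonneg (V h')
      have h5 := hu ((f h h' : ℕ) / M)
      split_ifs with hc
      · have h1 : ‖WW w N ((f h h' : ℕ) / M)‖ ≤ 1 := (TTu_WW_norm w N hw _).trans hw1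
        have h2 := hb h' hh'
        have h4 := norm_nonneg (WW w N ((f h h' : ℕ) / M))
        nlinarith [mul_nonneg hκ (mul_nonneg h3 h5), mul_nonneg hκ' h3]
      · push Not at hc
        nlinarith [mul_le_mul_of_nonneg_left hc h3]
    refine (Finset.sum_le_sum hp).trans ?_
    rw [Finset.sum_add_distrib, Finset.sum_add_distrib, ← Finset.mul_sum, ← Finset.mul_sum, ← Finset.mul_sum]
    have hcard : (∑ h' ∈ range M,
        (if κ * CU u N ((f h h' : ℕ) / M) + κ' < ‖WW w N ((f h h' : ℕ) / M)‖ then (1 : ℝ) else 0)) ≤ C := by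
      rw [Finset.sum_ite, Finset.sum_const_zero, add_zero, Finset.sum_const, nsmul_eq_mul, mul_one]
      have : ((range M).filter
          (fun h' : ℕ => κ * CU u N ((f h h' : ℕ) / M) + κ' < ‖WW w N ((f h h' : ℕ) / M)‖)).card ≤ C := by
        rw [hC]
        refine Finset.card_le_card_of_injOn (fun h' => f h h') ?_ ?_
        · intro h' hh'
          simp only [Finset.coe_filter, Set.mem_ofPred_eq] at hh' ⊢
          exact ⟨hf1 h hh h' hh'.1, hh'.2⟩
        · intro a ha b' hb' hab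
          simp only [Finset.coe_filter, Set.mem_ofPred_eq] at ha hb'
          exact hf2 h hh a ha.1 b' hb'.1 hab
      exact_mod_cast this
    have := mul_le_mul_of_nonneg_left hcard hb0
    linarith
  calc ∑ h ∈ range M, ∑ h' ∈ range M, ‖V h‖ * ‖V h'‖ * ‖WW w N (((h' : ℝ) - h) / M)‖
      = ∑ h ∈ range M, ‖V h‖ * ∑ h' ∈ range M, ‖V h'‖ * ‖WW w N (((h' : ℝ) - h) / M)‖ := by
        refine Finset.sum_congr rfl fun h _ => ?_
        rw [Finset.mul_sum]
        refine Finset.sum_congr rfl fun h' _ => ?_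
        ring
    _ ≤ ∑ h ∈ range M, ‖V h‖ * (κ * (∑ h' ∈ range M, ‖V h'‖ * CU u N (((h : ℝ) - h') / M)) +
          κ' * (∑ h ∈ range M, ‖V h‖) + b * C) :=
        Finset.sum_le_sum fun h hh => mul_le_mul_of_nonneg_left (main h hh) (norm_nonneg _)
    _ = κ * (∑ h ∈ range M, ∑ h' ∈ range M, ‖V h‖ * ‖V h'‖ * CU u N (((h : ℝ) - h') / M)) +
        κ' * (∑ h ∈ range M, ‖V h‖) ^ 2 + b * (∑ h ∈ range M, ‖V h‖) * C := by
        have h1 : ∑ h ∈ range M, ∑ h' ∈ range M, ‖V h‖ * ‖V h'‖ * CU u N (((h : ℝ) - h') / M) =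
            ∑ h ∈ range M, ‖V h‖ * ∑ h' ∈ range M, ‖V h'‖ * CU u N (((h : ℝ) - h') / M) := by
          refine Finset.sum_congr rfl fun h _ => ?_
          rw [Finset.mul_sum]
          exact Finset.sum_congr rfl fun h' _ => by ring
        rw [h1]
        have h2 : ∀ h ∈ range M, ‖V h‖ * (κ * (∑ h' ∈ range M, ‖V h'‖ * CU u N (((h : ℝ) - h') / M)) +
            κ' * (∑ h ∈ range M, ‖V h‖) + b * C) =
            κ * (‖V h‖ * ∑ h' ∈ range M, ‖V h'‖ * CU u N (((h : ℝ) - h') / M)) +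
              ‖V h‖ * (κ' * (∑ h ∈ range M, ‖V h‖) + b * C) := fun h _ => by ring
        rw [Finset.sum_congr rfl h2, Finset.sum_add_distrib, ← Finset.mul_sum, ← Finset.sum_mul]
        ring

end Pool.Agent.Lib.MP_629a14_nt.Lk
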