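import Pool.Agent.Lib.MP_60b32f_nt.RepBound
import Pool.Agent.Lib.MP_629a14_nt.Lf.SiftA

/-! Upper bound for the number of prime pairs with a given difference. -/

set_option autoImplicit false

namespace Pool.Agent.Lib.MP_629a14_nt.Lk

open Finset Pool.Agent.Lib.MP_629a14_nt

private lemma pairUp_inv_tot (n : ℕ) (hn : Squarefree n) :
    1 / (n.totient : ℝ) = ∏ p ∈ n.primeFactors, 1 / ((p : ℝ) - 1) := by
  have h1 := Nat.totient_mul_prod_primeFactors n
  have h2 : ∏ p ∈ n.primeFactors, p = n := Nat.prod_primeFactors_of_squarefree hn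
  rw [h2, mul_comm] at h1
  have h0 : 0 < n := Nat.pos_of_ne_zero hn.ne_zero
  have h3 : n.totient = ∏ p ∈ n.primeFactors, (p - 1) := Nat.eq_of_mul_eq_mul_left h0 h1
  rw [h3, Finset.prod_div_distrib, Finset.prod_const_one, Nat.cast_prod]
  congr 1
  refine prod_congr rfl fun p hp => ?_
  have := (Nat.prime_of_mem_primeFactors hp).pos
  rw [Nat.cast_sub (by omega), Nat.cast_one]

private lemma pairUp_fib (m : ℕ) (hev : Even m) (Q : Finset (ℕ × ℕ))
    (hQ : ∀ q ∈ Q, Squarefree q.1 ∧ Squarefree q.2 ∧ q.2.Coprime m) (P : Finset ℕ)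
    (hP : ∀ p ∈ P, p.Prime) (hQP : ∀ q ∈ Q, q.1.primeFactors ∪ q.2.primeFactors = P) :
    ∑ q ∈ Q, 1 / (q.1.totient : ℝ) * (1 / (q.2.totient : ℝ)) ≤
      ∏ p ∈ P, (if p ∣ m then 1 / ((p : ℝ) - 1) else 2 / ((p : ℝ) - 2)) := by
  classical
  set x : ℕ → ℝ := fun p => 1 / ((p : ℝ) - 1) with hx
  set f : ℕ → ℝ := fun p => if p ∣ m then 0 else x p * (1 + x p) with hf
  have hx0 : ∀ p ∈ P, 0 ≤ x p := by
    intro p hp
    have : (2 : ℝ) ≤ p := by exact_mod_cast (hP p hp).two_le
    rw [hx]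
    exact div_nonneg zero_le_one (by linarith)
  have hf0 : ∀ p ∈ P, 0 ≤ f p := by
    intro p hp
    have := hx0 p hp
    rw [hf]
    dsimp only
    split_ifs
    · exact le_rfl
    · positivity
  -- step 1: pointwise
  have h1 : ∏ p ∈ P, (f p + x p) ≤
      ∏ p ∈ P, (if p ∣ m then 1 / ((p : ℝ) - 1) else 2 / ((p : ℝ) - 2)) := by
    apply prod_le_prod
    · intro p hp
      exact add_nonneg (hf0 p hp) (hx0 p hp)
    · intro p hp
      rw [hf]
      dsimp only
      by_cases hpm : p ∣ m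
      · rw [if_pos hpm, if_pos hpm, zero_add]
      · rw [if_neg hpm, if_neg hpm]
        have hp2 : p ≠ 2 := by
          rintro rfl
          exact hpm hev.two_dvd
        have hp3 : 3 ≤ p := by
          have := (hP p hp).two_le
          omega
        have hp3' : (3 : ℝ) ≤ p := by exact_mod_cast hp3
        rw [hx]
        dsimp only
        have e1 : (0 : ℝ) < (p : ℝ) - 1 := by linarith
        have e2 : (0 : ℝ) < (p : ℝ) - 2 := by linarith
        have e3 : 1 / ((p : ℝ) - 1) * (1 + 1 / ((p : ℝ) - 1)) + 1 / ((p : ℝ) - 1) =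
            (2 * p - 1) / ((p : ℝ) - 1) ^ 2 := by
          field_simp
          ring
        rw [e3, div_le_div_iff₀ (by positivity) e2]
        nlinarith
  refine le_trans ?_ h1
  rw [Finset.prod_add]
  have h2 : ∀ T ∈ P.powerset, ∑ R ∈ T.powerset,
      (if (∀ p ∈ T, ¬ p ∣ m) then (∏ p ∈ T, x p) * (∏ p ∈ R, x p) * ∏ p ∈ P \ T, x p else 0) =
      (∏ p ∈ T, f p) * ∏ p ∈ P \ T, x p := by
    intro T hT
    by_cases hTm : ∀ p ∈ T, ¬ p ∣ m
    · have e1 : ∏ p ∈ T, f p = (∏ p ∈ T, x p) * ∑ R ∈ T.powerset, ∏ p ∈ R, x p := by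
        rw [← Finset.prod_one_add, ← Finset.prod_mul_distrib]
        refine prod_congr rfl fun p hp => ?_
        rw [hf]
        dsimp only
        rw [if_neg (hTm p hp)]
      rw [e1, mul_sum, sum_mul]
      refine sum_congr rfl fun R _ => ?_
      rw [if_pos hTm]
    · have e1 : ∏ p ∈ T, f p = 0 := by
        push Not at hTm
        obtain ⟨p, hpT, hpm⟩ := hTm
        refine prod_eq_zero hpT ?_
        rw [hf]
        dsimp only
        rw [if_pos hpm]
      rw [e1, zero_mul]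
      refine sum_eq_zero fun R _ => ?_
      rw [if_neg hTm]
  rw [← sum_congr rfl h2, Finset.sum_sigma']
  -- the injection
  set e : ℕ × ℕ → (Σ _ : Finset ℕ, Finset ℕ) :=
    fun q => ⟨q.2.primeFactors, q.1.primeFactors ∩ q.2.primeFactors⟩ with he
  set F : (Σ _ : Finset ℕ, Finset ℕ) → ℝ := fun j =>
    (if (∀ p ∈ j.1, ¬ p ∣ m) then (∏ p ∈ j.1, x p) * (∏ p ∈ j.2, x p) * ∏ p ∈ P \ j.1, x p else 0)
    with hF
  have hinj : Set.InjOn e (Q : Set (ℕ × ℕ)) := by
    intro q hq r hr hqr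
    have hq' := hQ q hq
    have hr' := hQ r hr
    have hqP := hQP q hq
    have hrP := hQP r hr
    rw [he] at hqr
    simp only [Sigma.mk.injEq, heq_eq_eq] at hqr
    obtain ⟨e1, e2⟩ := hqr
    have e3 : q.2 = r.2 := by
      rw [← Nat.prod_primeFactors_of_squarefree hq'.2.1,
        ← Nat.prod_primeFactors_of_squarefree hr'.2.1, e1]
    have e4 : q.1.primeFactors = r.1.primeFactors := by
      ext p
      have a1 : p ∈ q.1.primeFactors ∪ q.2.primeFactors ↔ p ∈ r.1.primeFactors ∪ r.2.primeFactors := by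
        rw [hqP, hrP]
      have a2 : p ∈ q.1.primeFactors ∩ q.2.primeFactors ↔ p ∈ r.1.primeFactors ∩ r.2.primeFactors := by
        rw [e2]
      have a3 : p ∈ q.2.primeFactors ↔ p ∈ r.2.primeFactors := by rw [e1]
      rw [mem_union, mem_union] at a1
      rw [mem_inter, mem_inter] at a2
      tauto
    have e5 : q.1 = r.1 := by
      rw [← Nat.prod_primeFactors_of_squarefree hq'.1,
        ← Nat.prod_primeFactors_of_squarefree hr'.1, e4]
    exact Prod.ext e5 e3
  have hval : ∀ q ∈ Q, 1 / (q.1.totient : ℝ) * (1 / (q.2.totient : ℝ)) = F (e q) := by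
    intro q hq
    have hq' := hQ q hq
    have hqP := hQP q hq
    rw [hF, he]
    dsimp only
    rw [if_pos]
    · rw [pairUp_inv_tot q.1 hq'.1, pairUp_inv_tot q.2 hq'.2.1]
      have e1 : P \ q.2.primeFactors = q.1.primeFactors \ q.2.primeFactors := by
        rw [← hqP, Finset.union_sdiff_right]
      rw [e1, ← Finset.prod_inter_mul_prod_sdiff q.1.primeFactors q.2.primeFactors]
      ring
    · intro p hp hpm
      have hpp := Nat.prime_of_mem_primeFactors hp
      have hpd := Nat.dvd_of_mem_primeFactors hp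
      have : p ∣ 1 := by
        rw [← hq'.2.2]
        exact Nat.dvd_gcd hpd hpm
      exact hpp.one_lt.ne' (Nat.dvd_one.1 this)
  rw [sum_congr rfl hval, ← Finset.sum_image (f := F) hinj]
  apply sum_le_sum_of_subset_of_nonneg
  · intro j hj
    obtain ⟨q, hq, rfl⟩ := mem_image.1 hj
    rw [mem_sigma, mem_powerset, mem_powerset]
    constructor
    · rw [he]
      dsimp only
      rw [← hQP q hq]
      exact subset_union_right
    · rw [he]
      exact inter_subset_right
  · intro j hj _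
    rw [mem_sigma, mem_powerset, mem_powerset] at hj
    rw [hF]
    dsimp only
    split_ifs
    · apply mul_nonneg
      · apply mul_nonneg
        · exact prod_nonneg fun p hp => hx0 p (hj.1 hp)
        · exact prod_nonneg fun p hp => hx0 p (hj.1 (hj.2 hp))
      · exact prod_nonneg fun p hp => hx0 p (mem_sdiff.1 hp).1
    · exact le_rfl

/-- The function of the Selberg sieve for pairs with difference `m` even: `g(p) = 1/(p-1)` for `p ∣ m` and `2/(p-2)` for
`p ∤ m`. Proof. `∑_{lcm(a,b) = d, (b,m) = 1} 1/(φ(a)φ(b)) ≤ g(d)` for squarefree `d`, since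
`2/(p-1) + 1/(p-1)² = (2p-1)/(p-1)² ≤ 2/(p-2)` for `p ≥ 3`; so the left side is at least
`(∑_{a ≤ z} μ²(a)/φ(a)) (∑_{b ≤ z, (b,m)=1} μ²(b)/φ(b)) ≥ (log z)² φ(m)/m` (`Lf.sum_phi`). -/
theorem g_sum (m z : ℕ) (hm : 1 ≤ m) (hev : Even m) (hz : 1 ≤ z) :
    (m.totient : ℝ) / m * (Real.log z) ^ 2 ≤
      ∑ d ∈ (Icc 1 (z ^ 2)).filter Squarefree,
        ∏ p ∈ d.primeFactors, (if p ∣ m then 1 / ((p : ℝ) - 1) else 2 / ((p : ℝ) - 2)) := by
  classical
  have hA := Lf.sum_phi 1 z le_rfl hz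
  have hB := Lf.sum_phi m z hm hz
  set A := (Icc 1 z).filter (fun f => f.Coprime 1 ∧ Squarefree f) with hAdef
  set B := (Icc 1 z).filter (fun f => f.Coprime m ∧ Squarefree f) with hBdef
  have hlog : 0 ≤ Real.log z := Real.log_natCast_nonneg z
  have hA' : Real.log z ≤ ∑ f ∈ A, 1 / (f.totient : ℝ) := by
    have : ((Nat.totient 1 : ℕ) : ℝ) / ((1 : ℕ) : ℝ) * Real.log z = Real.log z := by
      simp
    rw [this] at hA
    exact hA
  set k : ℕ × ℕ → ℕ := fun q => ∏ p ∈ q.1.primeFactors ∪ q.2.primeFactors, p with hk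
  have hkP : ∀ q : ℕ × ℕ, (k q).primeFactors = q.1.primeFactors ∪ q.2.primeFactors := by
    intro q
    apply Nat.primeFactors_prod
    intro p hp
    rcases mem_union.1 hp with h | h
    · exact Nat.prime_of_mem_primeFactors h
    · exact Nat.prime_of_mem_primeFactors h
  have hkmem : ∀ q ∈ A ×ˢ B, k q ∈ (Icc 1 (z ^ 2)).filter Squarefree := by
    intro q hq
    rw [mem_product] at hq
    obtain ⟨h1, h2⟩ := hq
    rw [hAdef, mem_filter, mem_Icc] at h1
    rw [hBdef, mem_filter, mem_Icc] at h2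
    have hpr : ∀ p ∈ q.1.primeFactors ∪ q.2.primeFactors, p.Prime := by
      intro p hp
      rcases mem_union.1 hp with h | h
      · exact Nat.prime_of_mem_primeFactors h
      · exact Nat.prime_of_mem_primeFactors h
    rw [mem_filter, mem_Icc]
    refine ⟨⟨?_, ?_⟩, ?_⟩
    · exact Nat.one_le_iff_ne_zero.2 (prod_ne_zero_iff.2 fun p hp => (hpr p hp).ne_zero)
    · have e1 : k q ∣ q.1 * q.2 := by
        rw [hk]
        dsimp only
        rw [← Nat.prod_primeFactors_of_squarefree h1.2.2,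
          ← Nat.prod_primeFactors_of_squarefree h2.2.2]
        rw [Nat.prod_primeFactors_of_squarefree h1.2.2,
          Nat.prod_primeFactors_of_squarefree h2.2.2]
        have e2 : q.1.primeFactors ∪ q.2.primeFactors =
            (q.1.primeFactors \ q.2.primeFactors) ∪ q.2.primeFactors :=
          (Finset.sdiff_union_self_eq_union).symm
        rw [e2, prod_union sdiff_disjoint]
        apply mul_dvd_mul
        · calc ∏ p ∈ q.1.primeFactors \ q.2.primeFactors, p ∣ ∏ p ∈ q.1.primeFactors, p :=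
                prod_dvd_prod_of_subset _ _ _ sdiff_subset
            _ = q.1 := Nat.prod_primeFactors_of_squarefree h1.2.2
        · rw [Nat.prod_primeFactors_of_squarefree h2.2.2]
      have e3 : k q ≤ q.1 * q.2 := Nat.le_of_dvd (Nat.mul_pos (by omega) (by omega)) e1
      calc k q ≤ q.1 * q.2 := e3
        _ ≤ z * z := Nat.mul_le_mul h1.1.2 h2.1.2
        _ = z ^ 2 := by ring
    · rw [hk]
      dsimp only
      refine Finset.squarefree_prod_of_pairwise_isCoprime (fun p hp q' hq' hpq ↦ ?_) ?_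
      · rw [Function.onFun, ← Nat.coprime_iff_isRelPrime]
        exact (Nat.coprime_primes (hpr p hp) (hpr q' hq')).2 hpq
      · intro p hp
        exact (hpr p hp).prime.squarefree
  calc (m.totient : ℝ) / m * (Real.log z) ^ 2 = Real.log z * ((m.totient : ℝ) / m * Real.log z) := by
        ring
    _ ≤ (∑ f ∈ A, 1 / (f.totient : ℝ)) * ∑ f ∈ B, 1 / (f.totient : ℝ) := by
        apply mul_le_mul hA' hB
        · positivity
        · exact sum_nonneg fun f _ => by positivity
    _ = ∑ q ∈ A ×ˢ B, 1 / (q.1.totient : ℝ) * (1 / (q.2.totient : ℝ)) := by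
        rw [Finset.sum_mul_sum, Finset.sum_product]
    _ = ∑ d ∈ (Icc 1 (z ^ 2)).filter Squarefree, ∑ q ∈ (A ×ˢ B).filter (fun q => k q = d),
          1 / (q.1.totient : ℝ) * (1 / (q.2.totient : ℝ)) :=
        (Finset.sum_fiberwise_of_maps_to hkmem _).symm
    _ ≤ _ := by
        refine sum_le_sum fun d hd => ?_
        apply pairUp_fib m hev
        · intro q hq
          rw [mem_filter, mem_product, hAdef, hBdef, mem_filter, mem_filter] at hq
          exact ⟨hq.1.1.2.2, hq.1.2.2.2, hq.1.2.2.1⟩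
        · intro p hp
          exact Nat.prime_of_mem_primeFactors hp
        · intro q hq
          rw [mem_filter] at hq
          rw [← hkP, hq.2]

section PairSieve

open BoundingSieve

private noncomputable def pairUp_nu (m : ℕ) : ArithmeticFunction ℝ :=
  ⟨fun d => ((d / Nat.gcd d m).divisors.card : ℝ) / d, by simp⟩

private lemma pairUp_nu_apply (m d : ℕ) :
    pairUp_nu m d = ((d / Nat.gcd d m).divisors.card : ℝ) / d := rfl

private lemma pairUp_nu_mult (m : ℕ) : (pairUp_nu m).IsMultiplicative := by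
  rw [ArithmeticFunction.IsMultiplicative.iff_ne_zero]
  constructor
  · rw [pairUp_nu_apply]
    simp
  · intro a b ha hb hab
    rw [pairUp_nu_apply, pairUp_nu_apply, pairUp_nu_apply]
    have e1 : Nat.gcd (a * b) m = Nat.gcd a m * Nat.gcd b m := by
      rw [Nat.gcd_comm (a * b) m, Nat.Coprime.gcd_mul m hab, Nat.gcd_comm m a, Nat.gcd_comm m b]
    have e2 : a * b / (Nat.gcd a m * Nat.gcd b m) = (a / Nat.gcd a m) * (b / Nat.gcd b m) :=
      Nat.mul_div_mul_comm (Nat.gcd_dvd_left a m) (Nat.gcd_dvd_left b m)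
    have e3 : Nat.Coprime (a / Nat.gcd a m) (b / Nat.gcd b m) :=
      (hab.coprime_dvd_left (Nat.div_dvd_of_dvd (Nat.gcd_dvd_left a m))).coprime_dvd_right
        (Nat.div_dvd_of_dvd (Nat.gcd_dvd_left b m))
    rw [e1, e2, Nat.Coprime.card_divisors_mul e3]
    push_cast
    ring

private lemma pairUp_nu_dvd (m p : ℕ) (hp : p.Prime) (hpm : p ∣ m) : pairUp_nu m p = 1 / (p : ℝ) := by
  rw [pairUp_nu_apply, Nat.gcd_eq_left hpm, Nat.div_self hp.pos]
  simp

private lemma pairUp_nu_ndvd (m p : ℕ) (hp : p.Prime) (hpm : ¬ p ∣ m) :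
    pairUp_nu m p = 2 / (p : ℝ) := by
  have h1 : Nat.gcd p m = 1 := (Nat.Prime.coprime_iff_not_dvd hp).2 hpm
  rw [pairUp_nu_apply, h1, Nat.div_one, hp.divisors, card_pair hp.one_lt.ne]
  norm_num

/-- The product of all primes up to `y`. -/
private def pairUp_P (y : ℕ) : ℕ := ∏ p ∈ (Icc 1 y).filter Nat.Prime, p

private lemma pairUp_P_sq (y : ℕ) : Squarefree (pairUp_P y) := by
  unfold pairUp_P
  refine Finset.squarefree_prod_of_pairwise_isCoprime (fun p hp q hq hpq ↦ ?_) ?_
  · rw [Function.onFun, ← Nat.coprime_iff_isRelPrime]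
    have h1 : p.Prime := (mem_filter.1 hp).2
    have h2 : q.Prime := (mem_filter.1 hq).2
    exact (Nat.coprime_primes h1 h2).2 hpq
  · intro p hp
    exact (mem_filter.1 hp).2.prime.squarefree

private lemma pairUp_prime_dvd {y p : ℕ} (hp : p.Prime) : p ∣ pairUp_P y ↔ p ≤ y := by
  constructor
  · intro h
    obtain ⟨q, hq, hpq⟩ := (hp.prime.dvd_finsetProd_iff _).1 h
    have hq' : q.Prime := (mem_filter.1 hq).2
    have := (Nat.prime_dvd_prime_iff_eq hp hq').1 hpq
    rw [this]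
    exact (mem_Icc.1 (mem_filter.1 hq).1).2
  · intro h
    exact dvd_prod_of_mem _ (mem_filter.2 ⟨mem_Icc.2 ⟨hp.pos, h⟩, hp⟩)

private noncomputable def pairUp_s (m X y : ℕ) (hev : Even m) : BoundingSieve where
  support := (range X).image (fun j => (j + 1) * (j + 1 + m))
  prodPrimes := pairUp_P y
  prodPrimes_squarefree := pairUp_P_sq y
  weights := fun v => (((range X).filter (fun j => (j + 1) * (j + 1 + m) = v)).card : ℝ)
  weights_nonneg := fun v => by positivity
  totalMass := X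
  nu := pairUp_nu m
  nu_mult := pairUp_nu_mult m
  nu_pos_of_prime := by
    intro p hp _
    have hp0 : (0 : ℝ) < p := by exact_mod_cast hp.pos
    by_cases h : p ∣ m
    · rw [pairUp_nu_dvd m p hp h]; positivity
    · rw [pairUp_nu_ndvd m p hp h]; positivity
  nu_lt_one_of_prime := by
    intro p hp _
    have hp0 : (0 : ℝ) < p := by exact_mod_cast hp.pos
    by_cases h : p ∣ m
    · rw [pairUp_nu_dvd m p hp h, div_lt_one hp0]
      exact_mod_cast hp.one_lt
    · rw [pairUp_nu_ndvd m p hp h, div_lt_one hp0]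
      have hp2 : p ≠ 2 := by
        rintro rfl
        exact h hev.two_dvd
      have hp3 : 2 < p := lt_of_le_of_ne hp.two_le (Ne.symm hp2)
      exact_mod_cast hp3

private lemma pairUp_multSum (m X y d : ℕ) (hev : Even m) : (pairUp_s m X y hev).multSum d =
    (((range X).filter (fun j => d ∣ (j + 1) * (j + 1 + m))).card : ℝ) :=
  Pool.Agent.Lib.MP_60b32f_nt.fib_sum (range X) (fun j => (j + 1) * (j + 1 + m)) (fun v => d ∣ v)

private lemma pairUp_sifted (m X y : ℕ) (hev : Even m) : (pairUp_s m X y hev).siftedSum =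
    (((range X).filter (fun j => Nat.Coprime (pairUp_P y) ((j + 1) * (j + 1 + m)))).card : ℝ) :=
  Pool.Agent.Lib.MP_60b32f_nt.fib_sum (range X) (fun j => (j + 1) * (j + 1 + m))
    (fun v => Nat.Coprime (pairUp_P y) v)

private lemma pairUp_class (X d c : ℕ) (hd : 0 < d) :
    |(((range X).filter (fun j => j + 1 ≡ c [MOD d])).card : ℝ) - (X : ℝ) / d| ≤ 1 := by
  have h1 : (range X).filter (fun j => j + 1 ≡ c [MOD d]) =
      (range X).filter (fun j => j ≡ c + (d - 1) [MOD d]) := by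
    apply filter_congr
    intro j _
    have e1 : j + 1 + (d - 1) = j + d := by omega
    constructor
    · intro h
      have h2 : j + 1 + (d - 1) ≡ c + (d - 1) [MOD d] := h.add_right _
      rw [e1] at h2
      have h3 : j ≡ j + d [MOD d] := by
        have : j + 0 ≡ j + d [MOD d] := Nat.ModEq.add_left j (by
          rw [Nat.ModEq]; simp)
        simpa using this
      exact h3.trans h2
    · intro h
      have h3 : j ≡ j + d [MOD d] := by
        have : j + 0 ≡ j + d [MOD d] := Nat.ModEq.add_left j (by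
          rw [Nat.ModEq]; simp)
        simpa using this
      have h2 : j + 1 + (d - 1) ≡ c + (d - 1) [MOD d] := by
        rw [e1]
        exact h3.symm.trans h
      exact Nat.ModEq.add_right_cancel' _ h2
  rw [h1]
  exact Pool.Agent.Lib.MP_60b32f_nt.count_class X d (c + (d - 1)) hd

private lemma pairUp_count (m X a b : ℕ) (hco : Nat.Coprime a b) (ha : 0 < a) (hb : 0 < b) :
    |(((range X).filter (fun j => a ∣ j + 1 ∧ b ∣ j + 1 + m)).card : ℝ) - (X : ℝ) / (a * b : ℕ)| ≤ 1 := by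
  obtain ⟨c, hc1, hc2⟩ := Nat.chineseRemainder hco 0 (m * (b - 1))
  have h3 : (range X).filter (fun j => a ∣ j + 1 ∧ b ∣ j + 1 + m)
      = (range X).filter (fun j => j + 1 ≡ c [MOD (a * b)]) := by
    apply filter_congr
    intro j _
    rw [← Nat.modEq_and_modEq_iff_modEq_mul hco]
    have e1 : a ∣ j + 1 ↔ j + 1 ≡ c [MOD a] := by
      rw [← Nat.modEq_zero_iff_dvd]
      exact ⟨fun h => h.trans hc1.symm, fun h => h.trans hc1⟩
    have e3 : m * (b - 1) + m = m * b := by
      obtain ⟨b', rfl⟩ : ∃ b', b = b' + 1 := ⟨b - 1, by omega⟩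
      rw [Nat.add_sub_cancel]
      ring
    have e4 : m * (b - 1) + m ≡ 0 [MOD b] := by
      rw [e3, Nat.modEq_zero_iff_dvd]
      exact Dvd.intro_left m rfl
    have e2 : b ∣ j + 1 + m ↔ j + 1 ≡ c [MOD b] := by
      rw [← Nat.modEq_zero_iff_dvd]
      constructor
      · intro h
        have h5 : j + 1 + m ≡ m * (b - 1) + m [MOD b] := h.trans e4.symm
        exact (Nat.ModEq.add_right_cancel' _ h5).trans hc2.symm
      · intro h
        have h5 : j + 1 + m ≡ m * (b - 1) + m [MOD b] := (h.trans hc2).add_right m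
        exact h5.trans e4
    rw [e1, e2]
  rw [h3]
  exact pairUp_class X (a * b) c (Nat.mul_pos ha hb)

private lemma pairUp_fiber {m e f : ℕ} (hem : e ∣ m) (hfm : Nat.Coprime f m) (he : Squarefree e)
    (hef : Nat.Coprime e f) (hf0 : 0 < f) {d1 : ℕ} (hd1 : d1 ∣ f) (k : ℕ) :
    (e * f ∣ k * (k + m) ∧ Nat.gcd f k = d1) ↔ (e * d1 ∣ k ∧ f / d1 ∣ k + m) := by
  obtain ⟨d2, rfl⟩ := hd1
  have hd10 : 0 < d1 := Nat.pos_of_mul_pos_right hf0
  have hd20 : 0 < d2 := Nat.pos_of_mul_pos_left hf0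
  rw [Nat.mul_div_cancel_left _ hd10]
  constructor
  · rintro ⟨h1, h2⟩
    have h3 : d1 ∣ k := by rw [← h2]; exact Nat.gcd_dvd_right _ _
    have he1 : e ∣ k * (k + m) := (Dvd.intro _ rfl).trans h1
    have he2 : e ∣ k := by
      have e5 : e ∣ k * m := hem.mul_left k
      have e6 : e ∣ k * k := by
        have e7 : k * (k + m) = k * k + k * m := by ring
        rw [e7] at he1
        exact (Nat.dvd_add_left e5).1 he1
      have e8 : e ∣ k ^ 2 := by rw [pow_two]; exact e6
      exact (he.dvd_pow_iff_dvd two_ne_zero).1 e8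
    refine ⟨?_, ?_⟩
    · exact Nat.Coprime.mul_dvd_of_dvd_of_dvd (hef.coprime_dvd_right (Dvd.intro _ rfl)) he2 h3
    · have h6 : d1 * d2 ∣ k * (k + m) := (Dvd.intro_left e rfl).trans h1
      obtain ⟨k', rfl⟩ := h3
      have h4 : Nat.gcd d2 k' = 1 := by
        rw [Nat.gcd_mul_left] at h2
        exact Nat.eq_of_mul_eq_mul_left hd10 (by rw [h2, mul_one])
      have h5 : d2 ∣ k' * (d1 * k' + m) := by
        have : d1 * d2 ∣ d1 * (k' * (d1 * k' + m)) := by rw [← mul_assoc]; exact h6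
        exact (Nat.mul_dvd_mul_iff_left hd10).1 this
      exact Nat.Coprime.dvd_of_dvd_mul_left h4 h5
  · rintro ⟨h1, h2⟩
    have h1' : d1 ∣ k := (Dvd.intro_left e rfl).trans h1
    refine ⟨?_, ?_⟩
    · rw [← mul_assoc]
      exact Nat.mul_dvd_mul h1 h2
    · have h3 : Nat.Coprime d2 k := by
        rw [Nat.coprime_iff_gcd_eq_one]
        by_contra h
        obtain ⟨p, hp, hpd⟩ := Nat.exists_prime_and_dvd h
        have hp2 : p ∣ d2 := hpd.trans (Nat.gcd_dvd_left _ _)
        have hpk : p ∣ k := hpd.trans (Nat.gcd_dvd_right _ _)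
        have hpm : p ∣ m := (Nat.dvd_add_right hpk).1 (hp2.trans h2)
        have hpf : p ∣ d1 * d2 := hp2.mul_left _
        exact hp.one_lt.ne' (Nat.dvd_one.1 (by rw [← hfm]; exact Nat.dvd_gcd hpf hpm))
      rw [Nat.Coprime.gcd_mul_right_cancel _ h3]
      exact Nat.gcd_eq_left h1'

private lemma pairUp_rem {m X y d : ℕ} (hev : Even m) (hd : d ∣ pairUp_P y) :
    |(pairUp_s m X y hev).rem d| ≤ (d : ℝ) := by
  have hsq : Squarefree d := (pairUp_P_sq y).squarefree_of_dvd hd
  have hd0 : 0 < d := Nat.pos_of_ne_zero hsq.ne_zero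
  set e := Nat.gcd d m with he
  set f := d / e with hf
  have hed : e ∣ d := Nat.gcd_dvd_left d m
  have he0 : 0 < e := Nat.pos_of_dvd_of_pos hed hd0
  have hdef : e * f = d := Nat.mul_div_cancel' hed
  have hem : e ∣ m := Nat.gcd_dvd_right d m
  have hef : Nat.Coprime e f := Nat.coprime_of_squarefree_mul (hdef ▸ hsq)
  have hf0 : 0 < f := by
    rcases Nat.eq_zero_or_pos f with h | h
    · rw [h, mul_zero] at hdef; omega
    · exact h
  have hesq : Squarefree e := hsq.squarefree_of_dvd hed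
  have hfm : Nat.Coprime f m := by
    rw [Nat.coprime_iff_gcd_eq_one]
    by_contra h
    obtain ⟨p, hp, hpd⟩ := Nat.exists_prime_and_dvd h
    have hp1 : p ∣ f := hpd.trans (Nat.gcd_dvd_left _ _)
    have hp2 : p ∣ m := hpd.trans (Nat.gcd_dvd_right _ _)
    have hp3 : p ∣ e := Nat.dvd_gcd (hp1.trans (by rw [← hdef]; exact Dvd.intro_left e rfl)) hp2
    exact hp.one_lt.ne' (Nat.dvd_one.1 (by rw [← hef]; exact Nat.dvd_gcd hp3 hp1))
  have h1 : ((range X).filter (fun j => d ∣ (j + 1) * (j + 1 + m))).card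
      = ∑ d1 ∈ f.divisors, ((range X).filter (fun j => e * d1 ∣ j + 1 ∧ f / d1 ∣ j + 1 + m)).card := by
    rw [card_eq_sum_card_fiberwise (f := fun j => Nat.gcd f (j + 1)) (t := f.divisors)]
    · refine sum_congr rfl fun d1 hd1 => ?_
      rw [filter_filter]
      congr 1
      apply filter_congr
      intro j _
      rw [← hdef]
      exact pairUp_fiber hem hfm hesq hef hf0 (Nat.dvd_of_mem_divisors hd1) (j + 1)
    · intro j _
      rw [mem_coe, Nat.mem_divisors]
      exact ⟨Nat.gcd_dvd_left _ _, hf0.ne'⟩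
  have h2 : (pairUp_s m X y hev).rem d = ∑ d1 ∈ f.divisors,
      ((((range X).filter (fun j => e * d1 ∣ j + 1 ∧ f / d1 ∣ j + 1 + m)).card : ℝ) - (X : ℝ) / d) := by
    unfold BoundingSieve.rem
    rw [pairUp_multSum, h1, sum_sub_distrib, sum_const, nsmul_eq_mul]
    push_cast
    have : (pairUp_s m X y hev).nu d * (pairUp_s m X y hev).totalMass =
        (f.divisors.card : ℝ) * ((X : ℝ) / d) := by
      change pairUp_nu m d * (X : ℝ) = _
      rw [pairUp_nu_apply]
      ring
    rw [this]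
  rw [h2]
  refine (abs_sum_le_sum_abs _ _).trans ?_
  calc ∑ d1 ∈ f.divisors,
      |(((range X).filter (fun j => e * d1 ∣ j + 1 ∧ f / d1 ∣ j + 1 + m)).card : ℝ) - (X : ℝ) / d|
      ≤ ∑ d1 ∈ f.divisors, (1 : ℝ) := by
        apply sum_le_sum
        intro d1 hd1
        obtain ⟨d2, hd2⟩ := Nat.dvd_of_mem_divisors hd1
        have hd10 : 0 < d1 := Nat.pos_of_mem_divisors hd1
        have hd20 : 0 < d2 := by
          rcases Nat.eq_zero_or_pos d2 with h | h
          · rw [h, mul_zero] at hd2; omega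
          · exact h
        have h3 : f / d1 = d2 := by rw [hd2, Nat.mul_div_cancel_left _ hd10]
        have hco : Nat.Coprime (e * d1) d2 := by
          apply Nat.coprime_of_squarefree_mul
          rw [mul_assoc, ← hd2, hdef]
          exact hsq
        have := pairUp_count m X (e * d1) d2 hco (Nat.mul_pos he0 hd10) hd20
        rw [h3]
        rw [mul_assoc, ← hd2, hdef] at this
        exact this
    _ = (f.divisors.card : ℝ) := by simp
    _ ≤ (d : ℝ) := by
        have e1 : f.divisors.card ≤ f := Nat.card_divisors_le_self _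
        have e2 : f ≤ d := Nat.div_le_self _ _
        exact_mod_cast e1.trans e2

private lemma pairUp_lev_card (m X y : ℕ) (hev : Even m) :
    (Pool.Agent.Lib.MP_60b32f_nt.lev (pairUp_s m X y hev) y).card ≤ y := by
  have : Pool.Agent.Lib.MP_60b32f_nt.lev (pairUp_s m X y hev) y ⊆ Icc 1 y := by
    intro l hl
    rw [Pool.Agent.Lib.MP_60b32f_nt.mem_lev] at hl
    rw [mem_Icc]
    exact ⟨Nat.pos_of_ne_zero (ne_zero_of_dvd_ne_zero prodPrimes_ne_zero hl.1), hl.2⟩
  have h := card_le_card this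
  simpa using h

private lemma pairUp_lev_pos {m X y l : ℕ} {hev : Even m}
    (hl : l ∈ Pool.Agent.Lib.MP_60b32f_nt.lev (pairUp_s m X y hev) y) : 0 < l :=
  Nat.pos_of_ne_zero (ne_zero_of_dvd_ne_zero prodPrimes_ne_zero
    (Pool.Agent.Lib.MP_60b32f_nt.mem_lev.1 hl).1)

private lemma pairUp_inv_nu {m X y l : ℕ} {hev : Even m}
    (hl : l ∈ Pool.Agent.Lib.MP_60b32f_nt.lev (pairUp_s m X y hev) y) :
    ((pairUp_s m X y hev).nu l)⁻¹ ≤ (y : ℝ) := by
  change (pairUp_nu m l)⁻¹ ≤ (y : ℝ)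
  rw [pairUp_nu_apply, inv_div]
  have h0 := pairUp_lev_pos hl
  have h1 : (1 : ℝ) ≤ ((l / Nat.gcd l m).divisors.card : ℝ) := by
    have h3 : 0 < l / Nat.gcd l m :=
      Nat.div_pos (Nat.le_of_dvd h0 (Nat.gcd_dvd_left l m)) (Nat.gcd_pos_of_pos_left m h0)
    have : 0 < (l / Nat.gcd l m).divisors.card := card_pos.2 ⟨1, Nat.one_mem_divisors.2 h3.ne'⟩
    exact_mod_cast this
  have h2 : (l : ℝ) ≤ y := by exact_mod_cast (Pool.Agent.Lib.MP_60b32f_nt.mem_lev.1 hl).2
  calc (l : ℝ) / ((l / Nat.gcd l m).divisors.card : ℝ) ≤ (l : ℝ) := div_le_self (by positivity) h1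
    _ ≤ y := h2

private lemma pairUp_err (m X y : ℕ) (hev : Even m) :
    ∑ d1 ∈ Pool.Agent.Lib.MP_60b32f_nt.lev (pairUp_s m X y hev) y,
      ∑ d2 ∈ Pool.Agent.Lib.MP_60b32f_nt.lev (pairUp_s m X y hev) y,
      ((pairUp_s m X y hev).nu d1)⁻¹ * ((pairUp_s m X y hev).nu d2)⁻¹ *
        |(pairUp_s m X y hev).rem (d1.lcm d2)| ≤ (y : ℝ) ^ 6 := by
  have hterm : ∀ d1 ∈ Pool.Agent.Lib.MP_60b32f_nt.lev (pairUp_s m X y hev) y,
      ∀ d2 ∈ Pool.Agent.Lib.MP_60b32f_nt.lev (pairUp_s m X y hev) y,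
      ((pairUp_s m X y hev).nu d1)⁻¹ * ((pairUp_s m X y hev).nu d2)⁻¹ *
        |(pairUp_s m X y hev).rem (d1.lcm d2)| ≤ (y : ℝ) ^ 4 := by
    intro d1 h1 d2 h2
    have ha := pairUp_inv_nu h1
    have hb := pairUp_inv_nu h2
    have hlcm : d1.lcm d2 ∣ pairUp_P y :=
      Nat.lcm_dvd (Pool.Agent.Lib.MP_60b32f_nt.mem_lev.1 h1).1
        (Pool.Agent.Lib.MP_60b32f_nt.mem_lev.1 h2).1
    have hr := pairUp_rem (X := X) hev hlcm
    have hc : ((d1.lcm d2 : ℕ) : ℝ) ≤ (y : ℝ) * y := by
      have h4 : d1.lcm d2 ≤ d1 * d2 := Nat.le_of_dvd (Nat.mul_pos (pairUp_lev_pos h1)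
        (pairUp_lev_pos h2)) (Nat.lcm_dvd_mul _ _)
      have h5 : d1 * d2 ≤ y * y := Nat.mul_le_mul (Pool.Agent.Lib.MP_60b32f_nt.mem_lev.1 h1).2
        (Pool.Agent.Lib.MP_60b32f_nt.mem_lev.1 h2).2
      exact_mod_cast h4.trans h5
    have hn1 : 0 ≤ ((pairUp_s m X y hev).nu d1)⁻¹ :=
      (inv_pos.2 (nu_pos_of_dvd_prodPrimes (Pool.Agent.Lib.MP_60b32f_nt.mem_lev.1 h1).1)).le
    have hn2 : 0 ≤ ((pairUp_s m X y hev).nu d2)⁻¹ :=
      (inv_pos.2 (nu_pos_of_dvd_prodPrimes (Pool.Agent.Lib.MP_60b32f_nt.mem_lev.1 h2).1)).le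
    calc ((pairUp_s m X y hev).nu d1)⁻¹ * ((pairUp_s m X y hev).nu d2)⁻¹ *
          |(pairUp_s m X y hev).rem (d1.lcm d2)|
        ≤ (y : ℝ) * y * ((y : ℝ) * y) := by
          gcongr
          exact hr.trans hc
      _ = (y : ℝ) ^ 4 := by ring
  calc ∑ d1 ∈ Pool.Agent.Lib.MP_60b32f_nt.lev (pairUp_s m X y hev) y,
      ∑ d2 ∈ Pool.Agent.Lib.MP_60b32f_nt.lev (pairUp_s m X y hev) y,
      ((pairUp_s m X y hev).nu d1)⁻¹ * ((pairUp_s m X y hev).nu d2)⁻¹ *
        |(pairUp_s m X y hev).rem (d1.lcm d2)|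
      ≤ ∑ d1 ∈ Pool.Agent.Lib.MP_60b32f_nt.lev (pairUp_s m X y hev) y,
        ∑ d2 ∈ Pool.Agent.Lib.MP_60b32f_nt.lev (pairUp_s m X y hev) y, (y : ℝ) ^ 4 :=
        sum_le_sum fun d1 h1 => sum_le_sum fun d2 h2 => hterm d1 h1 d2 h2
    _ = ((Pool.Agent.Lib.MP_60b32f_nt.lev (pairUp_s m X y hev) y).card : ℝ) *
        (((Pool.Agent.Lib.MP_60b32f_nt.lev (pairUp_s m X y hev) y).card : ℝ) * (y : ℝ) ^ 4) := by
        simp [sum_const, nsmul_eq_mul]
    _ ≤ (y : ℝ) * ((y : ℝ) * (y : ℝ) ^ 4) := by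
        have : ((Pool.Agent.Lib.MP_60b32f_nt.lev (pairUp_s m X y hev) y).card : ℝ) ≤ y := by
          exact_mod_cast pairUp_lev_card m X y hev
        gcongr
    _ = (y : ℝ) ^ 6 := by ring

private lemma pairUp_J (m X z : ℕ) (hm : 1 ≤ m) (hev : Even m) (hz : 1 ≤ z) :
    (m.totient : ℝ) / m * (Real.log z) ^ 2 ≤
      Pool.Agent.Lib.MP_60b32f_nt.bigJ (pairUp_s m X (z ^ 2) hev) (z ^ 2) := by
  refine (g_sum m z hm hev hz).trans ?_
  unfold Pool.Agent.Lib.MP_60b32f_nt.bigJ
  have hval : ∀ d ∈ (Icc 1 (z ^ 2)).filter Squarefree,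
      ∏ p ∈ d.primeFactors, (if p ∣ m then 1 / ((p : ℝ) - 1) else 2 / ((p : ℝ) - 2)) =
        (pairUp_s m X (z ^ 2) hev).selbergTerms d := by
    intro d hd
    rw [mem_filter] at hd
    rw [selbergTerms_apply]
    change _ = pairUp_nu m d * ∏ p ∈ d.primeFactors, (1 - pairUp_nu m p)⁻¹
    have e1 : pairUp_nu m d = ∏ p ∈ d.primeFactors, pairUp_nu m p := by
      conv_lhs => rw [← Nat.prod_primeFactors_of_squarefree hd.2]
      exact (pairUp_nu_mult m).map_prod_of_prime _ (fun p hp => Nat.prime_of_mem_primeFactors hp)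
    rw [e1, ← Finset.prod_mul_distrib]
    refine prod_congr rfl fun p hp => ?_
    have hpp := Nat.prime_of_mem_primeFactors hp
    have hp0 : (0 : ℝ) < p := by exact_mod_cast hpp.pos
    have hp1 : (1 : ℝ) < p := by exact_mod_cast hpp.one_lt
    by_cases h : p ∣ m
    · rw [if_pos h, pairUp_nu_dvd m p hpp h]
      have : (p : ℝ) - 1 ≠ 0 := by linarith
      field_simp
    · rw [if_neg h, pairUp_nu_ndvd m p hpp h]
      have hp2 : p ≠ 2 := by
        rintro rfl
        exact h hev.two_dvd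
      have hp3 : 2 < p := lt_of_le_of_ne hpp.two_le (Ne.symm hp2)
      have hp3' : (2 : ℝ) < p := by exact_mod_cast hp3
      have : (p : ℝ) - 2 ≠ 0 := by linarith
      field_simp
  rw [sum_congr rfl hval]
  apply sum_le_sum_of_subset_of_nonneg
  · intro d hd
    rw [mem_filter, mem_Icc] at hd
    rw [Pool.Agent.Lib.MP_60b32f_nt.mem_lev]
    refine ⟨?_, hd.1.2⟩
    change d ∣ pairUp_P (z ^ 2)
    rw [← Nat.prod_primeFactors_of_squarefree hd.2]
    apply prod_dvd_prod_of_subset
    intro p hp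
    rw [mem_filter, mem_Icc]
    have hpp := Nat.prime_of_mem_primeFactors hp
    exact ⟨⟨hpp.pos, (Nat.le_of_dvd hd.1.1 (Nat.dvd_of_mem_primeFactors hp)).trans hd.1.2⟩, hpp⟩
  · intro l hl _
    exact (Pool.Agent.Lib.MP_60b32f_nt.terms_pos hl).le

private lemma pairUp_bound (m X z : ℕ) (hm : 1 ≤ m) (hev : Even m) (hz : 2 ≤ z) :
    (((Icc 1 X).filter (fun p => p.Prime ∧ (p + m).Prime)).card : ℝ) ≤
      X * ((m : ℝ) / m.totient) / (Real.log z) ^ 2 + (z : ℝ) ^ 12 + (z : ℝ) ^ 2 := by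
  have hz1 : 1 ≤ z ^ 2 := Nat.one_le_pow _ _ (by omega)
  have h1 := Pool.Agent.Lib.MP_60b32f_nt.selberg_bound (pairUp_s m X (z ^ 2) hev) (z ^ 2) hz1
  have h2 := pairUp_err m X (z ^ 2) hev
  have h3 := pairUp_J m X z hm hev (by omega)
  have h4 : (pairUp_s m X (z ^ 2) hev).totalMass = (X : ℝ) := rfl
  rw [h4] at h1
  have h5 : (((Icc 1 X).filter (fun p => p.Prime ∧ (p + m).Prime)).card : ℝ) ≤
      (pairUp_s m X (z ^ 2) hev).siftedSum + (z : ℝ) ^ 2 := by
    rw [pairUp_sifted]
    have hsub : (Icc 1 X).filter (fun p => p.Prime ∧ (p + m).Prime) ⊆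
        ((range X).filter (fun j => Nat.Coprime (pairUp_P (z ^ 2)) ((j + 1) * (j + 1 + m)))).image
          (fun j => j + 1) ∪ Icc 1 (z ^ 2) := by
      intro p hp
      rw [mem_filter, mem_Icc] at hp
      obtain ⟨⟨hp1, hpX⟩, hpp, hpm⟩ := hp
      rw [mem_union]
      by_cases hpz : p ≤ z ^ 2
      · right
        rw [mem_Icc]
        exact ⟨hp1, hpz⟩
      · left
        rw [mem_image]
        refine ⟨p - 1, ?_, by omega⟩
        rw [mem_filter, mem_range]
        refine ⟨by omega, ?_⟩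
        have e1 : p - 1 + 1 = p := by omega
        rw [e1, Nat.coprime_iff_gcd_eq_one]
        by_contra h
        obtain ⟨q, hq, hqd⟩ := Nat.exists_prime_and_dvd h
        have hq1 : q ≤ z ^ 2 := (pairUp_prime_dvd hq).1 (hqd.trans (Nat.gcd_dvd_left _ _))
        rcases hq.dvd_mul.1 (hqd.trans (Nat.gcd_dvd_right _ _)) with h6 | h6
        · have := (Nat.prime_dvd_prime_iff_eq hq hpp).1 h6
          omega
        · have := (Nat.prime_dvd_prime_iff_eq hq hpm).1 h6
          omega
    have e2 := (card_le_card hsub).trans (card_union_le _ _)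
    have e3 : (((range X).filter (fun j => Nat.Coprime (pairUp_P (z ^ 2))
        ((j + 1) * (j + 1 + m)))).image (fun j => j + 1)).card ≤
        ((range X).filter (fun j => Nat.Coprime (pairUp_P (z ^ 2)) ((j + 1) * (j + 1 + m)))).card :=
      card_image_le
    have e4 : (Icc 1 (z ^ 2)).card = z ^ 2 := by simp
    have e5 : ((Icc 1 X).filter (fun p => p.Prime ∧ (p + m).Prime)).card ≤
        ((range X).filter (fun j => Nat.Coprime (pairUp_P (z ^ 2)) ((j + 1) * (j + 1 + m)))).card +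
          z ^ 2 := by omega
    exact_mod_cast e5
  have hlog : 0 < Real.log z := Real.log_pos (by exact_mod_cast (by omega : 1 < z))
  have hm0 : (0 : ℝ) < m := by exact_mod_cast hm
  have hphi : (0 : ℝ) < m.totient := by exact_mod_cast Nat.totient_pos.2 hm
  have h6 : (X : ℝ) * (Pool.Agent.Lib.MP_60b32f_nt.bigJ (pairUp_s m X (z ^ 2) hev) (z ^ 2))⁻¹ ≤
      X * ((m : ℝ) / m.totient) / (Real.log z) ^ 2 := by
    have hJ0 : 0 < (m.totient : ℝ) / m * (Real.log z) ^ 2 := by positivity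
    have e1 : (Pool.Agent.Lib.MP_60b32f_nt.bigJ (pairUp_s m X (z ^ 2) hev) (z ^ 2))⁻¹ ≤
        ((m.totient : ℝ) / m * (Real.log z) ^ 2)⁻¹ := inv_anti₀ hJ0 h3
    calc (X : ℝ) * (Pool.Agent.Lib.MP_60b32f_nt.bigJ (pairUp_s m X (z ^ 2) hev) (z ^ 2))⁻¹ ≤
        X * ((m.totient : ℝ) / m * (Real.log z) ^ 2)⁻¹ := by gcongr
      _ = X * ((m : ℝ) / m.totient) / (Real.log z) ^ 2 := by
          field_simp
  have h7 : (((z ^ 2 : ℕ) : ℝ)) ^ 6 = (z : ℝ) ^ 12 := by
    push_cast
    ring
  rw [h7] at h2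
  linarith

end PairSieve

/-- Proof. For odd `m` the left side is at most 1. For even `m`: Selberg's sieve for the sequence `k(k+m)`, `k ≤ 2N`
(density `ν(p) = 1` for `p ∣ m`, `2` otherwise; remainders `≤ 2^{ω(d)}`), with level a small power of `N`; compare
`Lib/MP_60b32f_nt/Selberg.lean: selberg_bound`, `Goldbach.lean`, `RepBound.lean`, where this is done for `k(n-k)`; main term
`2N/J` with `J ≥ c (φ(m)/m) (log N)²` by `g_sum`. Or use Montgomery's large sieve. -/
theorem pair_up : ∃ C : ℝ, 1 ≤ C ∧ ∀ N m : ℕ, 2 ≤ N → 1 ≤ m → m ≤ 2 * N →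
    (((Icc 1 (2 * N)).filter (fun p => p.Prime ∧ (p + m).Prime)).card : ℝ) ≤
      C * N / (Real.log N) ^ 2 * ((m : ℝ) / m.totient) := by
  refine ⟨5000, by norm_num, ?_⟩
  intro N m hN hm _
  have hN' : (2 : ℝ) ≤ N := by exact_mod_cast hN
  have hN0 : (0 : ℝ) < N := by linarith
  have hlogN : 0 < Real.log N := Real.log_pos (by linarith)
  have hphi : (0 : ℝ) < m.totient := by exact_mod_cast Nat.totient_pos.2 hm
  have hr : (1 : ℝ) ≤ (m : ℝ) / m.totient := by
    rw [le_div_iff₀ hphi, one_mul]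
    exact_mod_cast Nat.totient_le m
  have hlogsq := Pool.Agent.Lib.MP_60b32f_nt.log_sq_le N (by linarith)
  have hsqrt : Real.sqrt N ≤ 16 * N / (Real.log N) ^ 2 := by
    rw [le_div_iff₀ (by positivity)]
    calc Real.sqrt N * (Real.log N) ^ 2 ≤ Real.sqrt N * (16 * Real.sqrt N) := by gcongr
      _ = 16 * (Real.sqrt N * Real.sqrt N) := by ring
      _ = 16 * N := by rw [Real.mul_self_sqrt hN0.le]
  have hsqrt1 : 1 ≤ Real.sqrt N := by
    rw [Real.one_le_sqrt]
    linarith
  have hbase : 0 ≤ (N : ℝ) / (Real.log N) ^ 2 := by positivity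
  by_cases hev : Even m
  · by_cases hbig : 4 ^ 24 ≤ N
    · set x : ℝ := (N : ℝ) ^ (1 / 24 : ℝ) with hx
      have hbig' : (4 : ℝ) ^ 24 ≤ N := by exact_mod_cast hbig
      have hx24 : x ^ 24 = N := by
        rw [hx, ← Real.rpow_natCast, ← Real.rpow_mul hN0.le]
        norm_num
      have hx0 : 0 ≤ x := Real.rpow_nonneg hN0.le _
      have hx4 : 4 ≤ x := by
        by_contra h
        push Not at h
        have h1 : x ^ 24 < 4 ^ 24 := pow_lt_pow_left₀ h hx0 (by norm_num)
        rw [hx24] at h1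
        linarith
      set z : ℕ := ⌊x⌋₊ with hz
      have hzx : (z : ℝ) ≤ x := Nat.floor_le hx0
      have hxz : x < z + 1 := Nat.lt_floor_add_one x
      have hz2 : 2 ≤ z := by
        have : (3 : ℝ) < z + 1 := by linarith
        have h2 : (2 : ℝ) < z := by linarith
        have h3 : 2 < z := by exact_mod_cast h2
        omega
      have hb := pairUp_bound m (2 * N) z hm hev hz2
      have hlogx : Real.log x = (1 / 24) * Real.log N := by rw [hx, Real.log_rpow hN0]
      have hlogz : (1 / 48) * Real.log N ≤ Real.log z := by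
        have e1 : Real.sqrt x ≤ z := by
          have e2 : Real.sqrt x ≤ x / 2 := by
            rw [Real.sqrt_le_left (by linarith)]
            nlinarith
          linarith
        have e3 : Real.log (Real.sqrt x) = (1 / 2) * Real.log x := by
          rw [Real.log_sqrt hx0]
          ring
        have e4 : Real.log (Real.sqrt x) ≤ Real.log z :=
          Real.log_le_log (Real.sqrt_pos.2 (by linarith)) e1
        rw [e3, hlogx] at e4
        linarith
      have hlogz0 : 0 < (1 / 48) * Real.log N := by positivity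
      have h1 : ((2 * N : ℕ) : ℝ) * ((m : ℝ) / m.totient) / (Real.log z) ^ 2 ≤
          4608 * (N / (Real.log N) ^ 2 * ((m : ℝ) / m.totient)) := by
        have e1 : ((2 * N : ℕ) : ℝ) * ((m : ℝ) / m.totient) / (Real.log z) ^ 2 ≤
            ((2 * N : ℕ) : ℝ) * ((m : ℝ) / m.totient) / ((1 / 48) * Real.log N) ^ 2 := by
          have : 0 ≤ (m : ℝ) / m.totient := by linarith
          gcongr
        refine e1.trans (le_of_eq ?_)
        push_cast
        field_simp
        norm_num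
      have hsq : Real.sqrt N = x ^ 12 := by
        rw [← hx24]
        rw [show x ^ 24 = (x ^ 12) ^ 2 by ring]
        exact Real.sqrt_sq (by positivity)
      have h4 : (z : ℝ) ^ 12 ≤ Real.sqrt N := by
        rw [hsq]
        gcongr
      have h5 : (z : ℝ) ^ 2 ≤ Real.sqrt N := by
        rw [hsq]
        calc (z : ℝ) ^ 2 ≤ x ^ 2 := by gcongr
          _ ≤ x ^ 12 := pow_le_pow_right₀ (by linarith) (by norm_num)
      have h6 : 16 * (N : ℝ) / (Real.log N) ^ 2 ≤ 16 * (N / (Real.log N) ^ 2 * ((m : ℝ) / m.totient)) := by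
        calc 16 * (N : ℝ) / (Real.log N) ^ 2 = 16 * (N / (Real.log N) ^ 2 * 1) := by ring
          _ ≤ 16 * (N / (Real.log N) ^ 2 * ((m : ℝ) / m.totient)) := by gcongr
      have h7 : 5000 * (N : ℝ) / (Real.log N) ^ 2 * ((m : ℝ) / m.totient) =
          5000 * (N / (Real.log N) ^ 2 * ((m : ℝ) / m.totient)) := by ring
      rw [h7]
      have h8 : 0 ≤ (N : ℝ) / (Real.log N) ^ 2 * ((m : ℝ) / m.totient) := by
        apply mul_nonneg hbase
        linarith
      linarith
    · push Not at hbig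
      have h1 : ((Icc 1 (2 * N)).filter (fun p => p.Prime ∧ (p + m).Prime)).card ≤ 2 * N := by
        refine (card_filter_le _ _).trans ?_
        simp
      have h2 : (((Icc 1 (2 * N)).filter (fun p => p.Prime ∧ (p + m).Prime)).card : ℝ) ≤ 2 * N := by
        exact_mod_cast h1
      have h3 : Real.log N ≤ 48 * Real.log 2 := by
        have e1 : (N : ℝ) ≤ 2 ^ 48 := by
          have : N ≤ 2 ^ 48 := by
            have : (4 : ℕ) ^ 24 = 2 ^ 48 := by norm_num
            omega
          exact_mod_cast this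
        calc Real.log N ≤ Real.log (2 ^ 48) := Real.log_le_log hN0 e1
          _ = 48 * Real.log 2 := by rw [Real.log_pow]; norm_num
      have h4 : Real.log 2 < 0.7 := by
        have := Real.log_two_lt_d9
        linarith
      have h5 : Real.log N ≤ 34 := by linarith
      have h6 : (Real.log N) ^ 2 ≤ 1156 := by nlinarith
      have h7 : 2 * (N : ℝ) ≤ 5000 * N / (Real.log N) ^ 2 := by
        rw [le_div_iff₀ (by positivity)]
        nlinarith
      calc (((Icc 1 (2 * N)).filter (fun p => p.Prime ∧ (p + m).Prime)).card : ℝ) ≤ 2 * N := h2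
        _ ≤ 5000 * N / (Real.log N) ^ 2 * 1 := by rw [mul_one]; exact h7
        _ ≤ 5000 * N / (Real.log N) ^ 2 * ((m : ℝ) / m.totient) := by
            have : 0 ≤ 5000 * (N : ℝ) / (Real.log N) ^ 2 := by positivity
            gcongr
  · have h1 : (Icc 1 (2 * N)).filter (fun p => p.Prime ∧ (p + m).Prime) ⊆ {2} := by
      intro p hp
      rw [mem_filter, mem_Icc] at hp
      obtain ⟨⟨hp1, _⟩, hpp, hpm⟩ := hp
      rw [mem_singleton]
      rcases hpp.eq_two_or_odd' with h | h
      · exact h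
      · exfalso
        have hmo : Odd m := Nat.not_even_iff_odd.1 hev
        have h2 : Even (p + m) := h.add_odd hmo
        have h3 := hpm.eq_two_or_odd'
        rcases h3 with h3 | h3
        · have : 2 ≤ p := hpp.two_le
          omega
        · exact (Nat.not_even_iff_odd.2 h3) h2
    have h2 : ((Icc 1 (2 * N)).filter (fun p => p.Prime ∧ (p + m).Prime)).card ≤ 1 := by
      simpa using card_le_card h1
    have h3 : (((Icc 1 (2 * N)).filter (fun p => p.Prime ∧ (p + m).Prime)).card : ℝ) ≤ 1 := by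
      exact_mod_cast h2
    have h7 : 16 * (N : ℝ) / (Real.log N) ^ 2 ≤ 5000 * N / (Real.log N) ^ 2 * ((m : ℝ) / m.totient) := by
      calc 16 * (N : ℝ) / (Real.log N) ^ 2 = 16 * (N / (Real.log N) ^ 2) * 1 := by ring
        _ ≤ 5000 * (N / (Real.log N) ^ 2) * ((m : ℝ) / m.totient) := by
            gcongr
            norm_num
        _ = 5000 * N / (Real.log N) ^ 2 * ((m : ℝ) / m.totient) := by ring
    linarith

end Pool.Agent.Lib.MP_629a14_nt.Lk
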