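import Pool.Agent.Lib.MP_629a14_nt.Lk.Romanoff
import Pool.Agent.Lib.MP_629a14_nt.Lk.Defs

/-! Differences of sums of two powers of two. -/

set_option autoImplicit false

namespace Pool.Agent.Lib.MP_629a14_nt.Lk

open Finset Pool.Agent.Lib.MP_629a14_nt Pool.Agent.Lib.MP_629a14_nt.Th

/-- `2^a + 2^b - 2^c - 2^d` -/
private def PowU_val (x : Fin 4 → ℕ) : ℤ := (2 : ℤ) ^ (x 0) + 2 ^ (x 1) - 2 ^ (x 2) - 2 ^ (x 3)

private theorem PowU_u4 (L : ℕ) (m : ℤ) :
    u4 L m = (((tup 4 L).filter (fun x => PowU_val x = m)).card : ℝ) / (L : ℝ) ^ 4 := rfl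

private theorem PowU_range {L : ℕ} {x : Fin 4 → ℕ} (hx : x ∈ tup 4 L) :
    -(2 : ℤ) ^ (L + 1) ≤ PowU_val x ∧ PowU_val x ≤ 2 ^ (L + 1) := by
  have hm : ∀ i, (2 : ℤ) ^ (x i) ≤ 2 ^ L ∧ 0 < (2 : ℤ) ^ (x i) := by
    intro i
    unfold tup at hx
    have h1 := Finset.mem_Icc.1 (Fintype.mem_piFinset.1 hx i)
    exact ⟨pow_le_pow_right₀ (by norm_num) h1.2, by positivity⟩
  unfold PowU_val
  have h0 := hm 0
  have h1 := hm 1
  have h2 := hm 2
  have h3 := hm 3
  rw [pow_succ]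
  constructor <;> linarith

private theorem PowU_pair {a b c d : ℕ} (h : 2 ^ a + 2 ^ b = 2 ^ c + 2 ^ d) :
    (c = a ∧ d = b) ∨ (c = b ∧ d = a) := by
  have hS : ∀ p q : ℕ, 2 ^ p + 2 ^ q = ∑ i ∈ (if p = q then ({p + 1} : Finset ℕ) else {p, q}), 2 ^ i := by
    intro p q
    split_ifs with hpq
    · rw [Finset.sum_singleton, hpq, pow_succ]
      ring
    · rw [Finset.sum_pair hpq]
  rw [hS a b, hS c d] at h
  have h1 := Finset.geomSum_injective (le_refl 2) h
  by_cases hab : a = b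
  · rw [if_pos hab] at h1
    by_cases hcd : c = d
    · rw [if_pos hcd, Finset.singleton_inj] at h1
      left
      omega
    · rw [if_neg hcd] at h1
      have h2 := congrArg Finset.card h1
      rw [Finset.card_singleton, Finset.card_pair hcd] at h2
      omega
  · rw [if_neg hab] at h1
    by_cases hcd : c = d
    · rw [if_pos hcd] at h1
      have h2 := congrArg Finset.card h1
      rw [Finset.card_singleton, Finset.card_pair hab] at h2
      omega
    · rw [if_neg hcd] at h1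
      have h2 : c = a ∨ c = b := by
        have : c ∈ ({a, b} : Finset ℕ) := by rw [h1]; simp
        simpa using this
      have h3 : d = a ∨ d = b := by
        have : d ∈ ({a, b} : Finset ℕ) := by rw [h1]; simp
        simpa using this
      omega

private theorem PowU_conj (t : ℝ) : (starRingEnd ℂ) (ee t) = ee (-t) := by
  unfold ee
  rw [← Complex.exp_conj]
  congr 1
  have h2 : (starRingEnd ℂ) 2 = 2 := map_ofNat _ 2
  simp [Complex.conj_ofReal, h2]

private theorem PowU_re (t : ℝ) : (ee t).re = Real.cos (2 * Real.pi * t) := by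
  unfold ee
  have : (2 * (Real.pi : ℂ) * (t : ℂ) * Complex.I) = ((2 * Real.pi * t : ℝ) : ℂ) * Complex.I := by
    push_cast; ring
  rw [this, Complex.exp_ofReal_mul_I_re]

/-- `2^a ≡ t mod d` determines `a` modulo the order of 2 (`d` odd). -/
theorem pow_class (L d : ℕ) (t : ℤ) (hd : Odd d) (hL : 1 ≤ L) :
    (((Icc 1 L).filter (fun a : ℕ => (d : ℤ) ∣ (2 : ℤ) ^ a - t)).card : ℝ) ≤
      L / (orderOf (2 : ZMod d) : ℝ) + 1 := by
  have hd0 : d ≠ 0 := by
    rintro rfl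
    exact absurd hd (by decide)
  have : NeZero d := ⟨hd0⟩
  have hcop : Nat.Coprime 2 d := Nat.coprime_two_left.2 hd
  set u : (ZMod d)ˣ := ZMod.unitOfCoprime 2 hcop with hu
  have huv : (u : ZMod d) = 2 := by
    rw [hu, ZMod.coe_unitOfCoprime]
    norm_num
  have hord : orderOf (2 : ZMod d) = orderOf u := by
    rw [← huv, orderOf_units]
  rw [hord]
  set o : ℕ := orderOf u with ho
  have ho0 : 0 < o := orderOf_pos u
  have hcard : ((Icc 1 L).filter (fun a : ℕ => (d : ℤ) ∣ (2 : ℤ) ^ a - t)).card ≤ L / o + 1 := by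
    have h1 : ((Icc 1 L).filter (fun a : ℕ => (d : ℤ) ∣ (2 : ℤ) ^ a - t)).card ≤
        (range (L / o + 1)).card := by
      apply Finset.card_le_card_of_injOn (fun a => a / o)
      · intro a ha
        simp only [Finset.coe_filter, Finset.mem_Icc, Set.mem_ofPred_eq] at ha
        simp only [Finset.coe_range, Set.mem_Iio]
        have := Nat.div_le_div_right (c := o) ha.1.2
        omega
      · intro a ha b hb hab
        simp only [Finset.coe_filter, Finset.mem_Icc, Set.mem_ofPred_eq] at ha hb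
        have key : ∀ x : ℕ, (d : ℤ) ∣ (2 : ℤ) ^ x - t → ((u ^ x : (ZMod d)ˣ) : ZMod d) = (t : ZMod d) := by
          intro x hx
          have h3 : (((2 : ℤ) ^ x - t : ℤ) : ZMod d) = 0 := (ZMod.intCast_zmod_eq_zero_iff_dvd _ _).2 hx
          push_cast at h3
          rw [Units.val_pow_eq_pow_val, huv]
          exact sub_eq_zero.1 h3
        have h4 : u ^ a = u ^ b := Units.ext ((key a ha.2).trans (key b hb.2).symm)
        have h5 : a ≡ b [MOD o] := pow_eq_pow_iff_modEq.1 h4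
        have h6 : a % o = b % o := h5
        simp only at hab
        rw [← Nat.div_add_mod a o, ← Nat.div_add_mod b o, hab, h6]
    rwa [card_range] at h1
  have h7 : (((Icc 1 L).filter (fun a : ℕ => (d : ℤ) ∣ (2 : ℤ) ^ a - t)).card : ℝ) ≤
      ((L / o + 1 : ℕ) : ℝ) := by exact_mod_cast hcard
  refine h7.trans ?_
  push_cast
  have h8 : ((L / o : ℕ) : ℝ) ≤ (L : ℝ) / o := Nat.cast_div_le
  linarith

/-- `2^a + 2^b = 2^c + 2^d` implies `{a,b} = {c,d}`. -/
theorem u4_zero (L : ℕ) (hL : 1 ≤ L) : u4 L 0 ≤ 2 / (L : ℝ) ^ 2 := by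
  have hL0 : (0 : ℝ) < L := by exact_mod_cast hL
  have hcard : ((tup 4 L).filter (fun a => (2 : ℤ) ^ (a 0) + 2 ^ (a 1) - 2 ^ (a 2) - 2 ^ (a 3) = 0)).card ≤
      2 * L ^ 2 := by
    have hsub : (tup 4 L).filter (fun a => (2 : ℤ) ^ (a 0) + 2 ^ (a 1) - 2 ^ (a 2) - 2 ^ (a 3) = 0) ⊆
        ((Icc 1 L ×ˢ Icc 1 L).image (fun p : ℕ × ℕ => (![p.1, p.2, p.1, p.2] : Fin 4 → ℕ))) ∪
        ((Icc 1 L ×ˢ Icc 1 L).image (fun p : ℕ × ℕ => (![p.1, p.2, p.2, p.1] : Fin 4 → ℕ))) := by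
      intro x hx
      rw [Finset.mem_filter] at hx
      obtain ⟨hx1, hx2⟩ := hx
      have hm : ∀ i, x i ∈ Icc 1 L := by
        intro i
        unfold tup at hx1
        exact Fintype.mem_piFinset.1 hx1 i
      have h1 : 2 ^ (x 0) + 2 ^ (x 1) = 2 ^ (x 2) + 2 ^ (x 3) := by
        have : ((2 ^ (x 0) + 2 ^ (x 1) : ℕ) : ℤ) = ((2 ^ (x 2) + 2 ^ (x 3) : ℕ) : ℤ) := by
          push_cast
          linarith
        exact_mod_cast this
      rw [Finset.mem_union, Finset.mem_image, Finset.mem_image]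
      rcases PowU_pair h1 with ⟨h2, h3⟩ | ⟨h2, h3⟩
      · left
        refine ⟨(x 0, x 1), Finset.mem_product.2 ⟨hm 0, hm 1⟩, ?_⟩
        ext i
        fin_cases i
        · rfl
        · rfl
        · exact h2.symm
        · exact h3.symm
      · right
        refine ⟨(x 0, x 1), Finset.mem_product.2 ⟨hm 0, hm 1⟩, ?_⟩
        ext i
        fin_cases i
        · rfl
        · rfl
        · exact h2.symm
        · exact h3.symm
    have hc : ∀ f : ℕ × ℕ → (Fin 4 → ℕ), ((Icc 1 L ×ˢ Icc 1 L).image f).card ≤ L ^ 2 := by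
      intro f
      refine Finset.card_image_le.trans ?_
      rw [Finset.card_product, Nat.card_Icc]
      have : L + 1 - 1 = L := by omega
      rw [this, sq]
    refine (Finset.card_le_card hsub).trans ((Finset.card_union_le _ _).trans ?_)
    have h1 := hc (fun p : ℕ × ℕ => (![p.1, p.2, p.1, p.2] : Fin 4 → ℕ))
    have h2 := hc (fun p : ℕ × ℕ => (![p.1, p.2, p.2, p.1] : Fin 4 → ℕ))
    omega
  have hcard' : (((tup 4 L).filter (fun a => (2 : ℤ) ^ (a 0) + 2 ^ (a 1) - 2 ^ (a 2) - 2 ^ (a 3) = 0)).card : ℝ) ≤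
      2 * (L : ℝ) ^ 2 := by exact_mod_cast hcard
  unfold u4
  rw [div_le_div_iff₀ (by positivity) (by positivity)]
  nlinarith [mul_le_mul_of_nonneg_right hcard' (by positivity : (0 : ℝ) ≤ (L : ℝ) ^ 2)]

theorem u4_nonneg (L : ℕ) (m : ℤ) : 0 ≤ u4 L m := by
  unfold u4
  positivity

/-- `CU (u4 L) N α = |gg L α|⁴`. -/
theorem u4_four (L N : ℕ) (hL : 1 ≤ L) (hN : 2 ^ (L + 1) ≤ N) (α : ℝ) : CU (u4 L) N α = ‖gg L α‖ ^ 4 := by
  have hL0 : (0 : ℝ) < L := by exact_mod_cast hL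
  have h1 : CU (u4 L) N α = (1 / (L : ℝ) ^ 4) * ∑ x ∈ tup 4 L, Real.cos (2 * Real.pi * (PowU_val x : ℝ) * α) := by
    unfold CU
    have h2 : ∀ m : ℤ, u4 L m * Real.cos (2 * Real.pi * m * α) =
        (1 / (L : ℝ) ^ 4) * ∑ x ∈ tup 4 L, (if PowU_val x = m then Real.cos (2 * Real.pi * m * α) else 0) := by
      intro m
      rw [PowU_u4, ← Finset.sum_filter, Finset.sum_const, nsmul_eq_mul]
      ring
    rw [Finset.sum_congr rfl fun m _ => h2 m, ← Finset.mul_sum, Finset.sum_comm]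
    congr 1
    refine Finset.sum_congr rfl fun x hx => ?_
    rw [Finset.sum_ite_eq, if_pos]
    obtain ⟨h3, h4⟩ := PowU_range hx
    rw [Finset.mem_Icc]
    have h5 : ((2 : ℤ) ^ (L + 1)) ≤ N := by exact_mod_cast hN
    constructor <;> linarith
  have hconj : (starRingEnd ℂ) (∑ a ∈ Icc 1 L, ee ((2 : ℝ) ^ a * α)) = ∑ a ∈ Icc 1 L, ee (-((2 : ℝ) ^ a * α)) := by
    rw [map_sum]
    exact Finset.sum_congr rfl fun a _ => PowU_conj _
  have h2 : ((∑ a ∈ Icc 1 L, ee ((2 : ℝ) ^ a * α)) * (∑ a ∈ Icc 1 L, ee ((2 : ℝ) ^ a * α)) *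
      (∑ a ∈ Icc 1 L, ee (-((2 : ℝ) ^ a * α))) * (∑ a ∈ Icc 1 L, ee (-((2 : ℝ) ^ a * α)))) =
      ∑ x ∈ tup 4 L, ee ((PowU_val x : ℝ) * α) := by
    have h3 := Finset.prod_univ_sum (fun _ : Fin 4 => Icc 1 L)
      (fun (i : Fin 4) (a : ℕ) => ee ((![1, 1, -1, -1] : Fin 4 → ℝ) i * ((2 : ℝ) ^ a * α)))
    rw [Fin.prod_univ_four] at h3
    have h4 : ∀ c : ℝ, c = 1 → ∑ a ∈ Icc 1 L, ee (c * ((2 : ℝ) ^ a * α)) = ∑ a ∈ Icc 1 L, ee ((2 : ℝ) ^ a * α) := by
      intro c hc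
      rw [hc]
      simp only [one_mul]
    have h5 : ∀ c : ℝ, c = -1 → ∑ a ∈ Icc 1 L, ee (c * ((2 : ℝ) ^ a * α)) =
        ∑ a ∈ Icc 1 L, ee (-((2 : ℝ) ^ a * α)) := by
      intro c hc
      rw [hc]
      simp only [neg_mul, one_mul]
    rw [h4 ((![1, 1, -1, -1] : Fin 4 → ℝ) 0) rfl, h4 ((![1, 1, -1, -1] : Fin 4 → ℝ) 1) rfl,
      h5 ((![1, 1, -1, -1] : Fin 4 → ℝ) 2) rfl, h5 ((![1, 1, -1, -1] : Fin 4 → ℝ) 3) rfl] at h3
    rw [h3]
    refine Finset.sum_congr rfl fun x _ => ?_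
    rw [Fin.prod_univ_four, ← ee_add, ← ee_add, ← ee_add]
    congr 1
    unfold PowU_val
    push_cast
    show 1 * ((2 : ℝ) ^ (x 0) * α) + 1 * ((2 : ℝ) ^ (x 1) * α) + -1 * ((2 : ℝ) ^ (x 2) * α) +
      -1 * ((2 : ℝ) ^ (x 3) * α) = _
    ring
  have h3 : ((‖gg L α‖ ^ 4 : ℝ) : ℂ) = ((1 / (L : ℝ) ^ 4 : ℝ) : ℂ) * ∑ x ∈ tup 4 L, ee ((PowU_val x : ℝ) * α) := by
    rw [← h2, ← hconj]
    set S := ∑ a ∈ Icc 1 L, ee ((2 : ℝ) ^ a * α) with hS
    have h4 : ‖gg L α‖ = (1 / (L : ℝ)) * ‖S‖ := by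
      unfold gg
      rw [norm_mul, norm_div, norm_one, Complex.norm_natCast]
    have h5 : S * (starRingEnd ℂ) S = ((‖S‖ ^ 2 : ℝ) : ℂ) := by
      rw [Complex.mul_conj, Complex.normSq_eq_norm_sq]
    have h6 : S * S * (starRingEnd ℂ) S * (starRingEnd ℂ) S = (S * (starRingEnd ℂ) S) ^ 2 := by ring
    rw [h6, h5, h4]
    push_cast
    ring
  have h4 : (∑ x ∈ tup 4 L, ee ((PowU_val x : ℝ) * α)).re =
      ∑ x ∈ tup 4 L, Real.cos (2 * Real.pi * (PowU_val x : ℝ) * α) := by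
    rw [Complex.re_sum]
    exact Finset.sum_congr rfl fun x _ => by rw [PowU_re]; congr 1; ring
  have h5 : ‖gg L α‖ ^ 4 = (((1 / (L : ℝ) ^ 4 : ℝ) : ℂ) * ∑ x ∈ tup 4 L, ee ((PowU_val x : ℝ) * α)).re := by
    rw [← h3, Complex.ofReal_re]
  rw [h1, h5, Complex.re_ofReal_mul, h4]

/-- for fixed `b, c, d` -/
private theorem PowU_count (L d : ℕ) (hodd : Odd d) (hL : 1 ≤ L) :
    (((tup 4 L).filter (fun x => (d : ℤ) ∣ PowU_val x)).card : ℝ) ≤
      (L : ℝ) ^ 3 * (L / (orderOf (2 : ZMod d) : ℝ) + 1) := by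
  classical
  have h1 : (tup 4 L).filter (fun x => (d : ℤ) ∣ PowU_val x) ⊆
      (Icc 1 L ×ˢ Icc 1 L ×ˢ Icc 1 L).biUnion (fun q : ℕ × ℕ × ℕ =>
        ((Icc 1 L).filter (fun a : ℕ => (d : ℤ) ∣ (2 : ℤ) ^ a - (2 ^ q.2.1 + 2 ^ q.2.2 - 2 ^ q.1))).image
          (fun a => (![a, q.1, q.2.1, q.2.2] : Fin 4 → ℕ))) := by
    intro x hx
    rw [Finset.mem_filter] at hx
    obtain ⟨hx1, hx2⟩ := hx
    have hm : ∀ i, x i ∈ Icc 1 L := by
      intro i
      unfold tup at hx1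
      exact Fintype.mem_piFinset.1 hx1 i
    rw [Finset.mem_biUnion]
    refine ⟨(x 1, x 2, x 3), ?_, ?_⟩
    · rw [Finset.mem_product, Finset.mem_product]
      exact ⟨hm 1, hm 2, hm 3⟩
    · rw [Finset.mem_image]
      refine ⟨x 0, ?_, ?_⟩
      · rw [Finset.mem_filter]
        refine ⟨hm 0, ?_⟩
        have h2 : (2 : ℤ) ^ (x 0) - (2 ^ (x 2) + 2 ^ (x 3) - 2 ^ (x 1)) = PowU_val x := by
          unfold PowU_val
          ring
        rw [h2]
        exact hx2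
      · ext i
        fin_cases i <;> rfl
  have h2 : (((tup 4 L).filter (fun x => (d : ℤ) ∣ PowU_val x)).card : ℝ) ≤
      ∑ q ∈ (Icc 1 L ×ˢ Icc 1 L ×ˢ Icc 1 L : Finset (ℕ × ℕ × ℕ)), ((L : ℝ) / (orderOf (2 : ZMod d) : ℝ) + 1) := by
    have h3 := (Finset.card_le_card h1).trans Finset.card_biUnion_le
    have h4 : (((tup 4 L).filter (fun x => (d : ℤ) ∣ PowU_val x)).card : ℝ) ≤
        ∑ q ∈ (Icc 1 L ×ˢ Icc 1 L ×ˢ Icc 1 L : Finset (ℕ × ℕ × ℕ)),
          ((((Icc 1 L).filter (fun a : ℕ => (d : ℤ) ∣ (2 : ℤ) ^ a - (2 ^ q.2.1 + 2 ^ q.2.2 - 2 ^ q.1))).image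
            (fun a => (![a, q.1, q.2.1, q.2.2] : Fin 4 → ℕ))).card : ℝ) := by exact_mod_cast h3
    refine h4.trans (Finset.sum_le_sum fun q _ => ?_)
    refine le_trans ?_ (pow_class L d (2 ^ q.2.1 + 2 ^ q.2.2 - 2 ^ q.1) hodd hL)
    exact_mod_cast Finset.card_image_le
  refine h2.trans (le_of_eq ?_)
  rw [Finset.sum_const, nsmul_eq_mul, Finset.card_product, Finset.card_product, Nat.card_Icc]
  have h5 : L + 1 - 1 = L := by omega
  rw [h5]
  push_cast
  ring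

/-- Proof. `ratio_sq`, exchange of sums; for fixed `b, c, d` by `pow_class` the proportion of the tuples with
`f ∣ 2^a + 2^b - 2^c - 2^d` is at most `1/ord f + 1/L`; `romanoff`, `smooth_sum`. -/
theorem u4_sum : ∃ C : ℝ, 1 ≤ C ∧ ∀ (L N : ℕ), 2 ≤ L →
    ∑ m ∈ (Icc (-(N : ℤ)) N).erase 0, u4 L m * ((m.natAbs : ℝ) / (m.natAbs.totient : ℝ)) ^ 2 ≤ C := by
  classical
  obtain ⟨C1, hC1, hratio⟩ := ratio_sq
  obtain ⟨C2, hC2, hrom⟩ := romanoff
  obtain ⟨C3, hC3, hsm⟩ := smooth_sum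
  refine ⟨C1 * (C2 + C3), by nlinarith, ?_⟩
  intro L N hL
  have hL0 : (0 : ℝ) < L := by exact_mod_cast (by omega : 0 < L)
  set D : Finset ℕ := (Icc 1 (2 ^ (L + 1))).filter
    (fun d => Odd d ∧ Squarefree d ∧ ∀ p ∈ d.primeFactors, p ≤ L) with hD
  set T : ℕ → ℝ := fun d => (((tup 4 L).filter (fun x => (d : ℤ) ∣ PowU_val x)).card : ℝ) / (L : ℝ) ^ 4 with hT
  -- pointwise
  have hpt : ∀ m ∈ (Icc (-(N : ℤ)) N).erase 0,
      u4 L m * ((m.natAbs : ℝ) / (m.natAbs.totient : ℝ)) ^ 2 ≤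
        u4 L m * (C1 * ∑ d ∈ D, (if (d : ℤ) ∣ m then (4 : ℝ) ^ d.primeFactors.card / d else 0)) := by
    intro m hm
    have hm0 : m ≠ 0 := (Finset.mem_erase.1 hm).1
    by_cases h0 : u4 L m = 0
    · rw [h0]
      simp
    · refine mul_le_mul_of_nonneg_left ?_ (u4_nonneg L m)
      have hex : ∃ x ∈ tup 4 L, PowU_val x = m := by
        by_contra hcon
        push Not at hcon
        apply h0
        rw [PowU_u4]
        have : (tup 4 L).filter (fun x => PowU_val x = m) = ∅ := by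
          rw [Finset.filter_eq_empty_iff]
          exact fun x hx => hcon x hx
        rw [this]
        simp
      obtain ⟨x, hx, hxm⟩ := hex
      obtain ⟨h3, h4⟩ := PowU_range hx
      have h5 : m.natAbs ≤ 2 ^ (L + 1) := by
        rw [hxm] at h3 h4
        have : ((m.natAbs : ℕ) : ℤ) ≤ ((2 ^ (L + 1) : ℕ) : ℤ) := by
          rw [Int.natCast_natAbs]
          push_cast
          exact abs_le.2 ⟨h3, h4⟩
        exact_mod_cast this
      have h6 : 1 ≤ m.natAbs := Int.natAbs_pos.2 hm0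
      refine (hratio L m.natAbs hL h6 h5).trans ?_
      refine mul_le_mul_of_nonneg_left ?_ (by linarith)
      rw [← Finset.sum_filter]
      refine Finset.sum_le_sum_of_subset_of_nonneg ?_ (fun d _ _ => by positivity)
      intro d hd
      rw [Finset.mem_filter, Nat.mem_divisors] at hd
      obtain ⟨⟨hd1, -⟩, hd2⟩ := hd
      rw [Finset.mem_filter, hD, Finset.mem_filter, Finset.mem_Icc]
      refine ⟨⟨⟨Nat.pos_of_dvd_of_pos hd1 h6, (Nat.le_of_dvd h6 hd1).trans h5⟩, hd2⟩, ?_⟩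
      exact Int.natCast_dvd.2 hd1
  refine (Finset.sum_le_sum hpt).trans ?_
  -- exchange
  have hex : ∑ m ∈ (Icc (-(N : ℤ)) N).erase 0,
      u4 L m * (C1 * ∑ d ∈ D, (if (d : ℤ) ∣ m then (4 : ℝ) ^ d.primeFactors.card / d else 0)) ≤
      C1 * ∑ d ∈ D, (4 : ℝ) ^ d.primeFactors.card / d * T d := by
    have h1 : ∀ m : ℤ, u4 L m * (C1 * ∑ d ∈ D, (if (d : ℤ) ∣ m then (4 : ℝ) ^ d.primeFactors.card / d else 0)) =
        C1 * ∑ d ∈ D, (4 : ℝ) ^ d.primeFactors.card / d * (if (d : ℤ) ∣ m then u4 L m else 0) := by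
      intro m
      rw [mul_left_comm]
      congr 1
      rw [Finset.mul_sum]
      refine Finset.sum_congr rfl fun d _ => ?_
      split_ifs <;> ring
    rw [Finset.sum_congr rfl fun m _ => h1 m, ← Finset.mul_sum, Finset.sum_comm]
    refine mul_le_mul_of_nonneg_left ?_ (by linarith)
    refine Finset.sum_le_sum fun d _ => ?_
    rw [← Finset.mul_sum]
    refine mul_le_mul_of_nonneg_left ?_ (by positivity)
    have h2 : ∀ m : ℤ, (if (d : ℤ) ∣ m then u4 L m else 0) =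
        (1 / (L : ℝ) ^ 4) * ∑ x ∈ tup 4 L, (if PowU_val x = m then (if (d : ℤ) ∣ PowU_val x then 1 else 0) else 0) := by
      intro m
      rw [PowU_u4]
      have h3 : ∑ x ∈ tup 4 L, (if PowU_val x = m then (if (d : ℤ) ∣ PowU_val x then (1 : ℝ) else 0) else 0) =
          ∑ x ∈ tup 4 L, (if PowU_val x = m then (if (d : ℤ) ∣ m then (1 : ℝ) else 0) else 0) := by
        refine Finset.sum_congr rfl fun x _ => ?_
        by_cases hxm : PowU_val x = m
        · rw [if_pos hxm, if_pos hxm, hxm]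
        · rw [if_neg hxm, if_neg hxm]
      rw [h3, ← Finset.sum_filter, Finset.sum_const, nsmul_eq_mul]
      split_ifs
      · rw [mul_one, one_div, inv_mul_eq_div]
      · rw [mul_zero, mul_zero]
    rw [Finset.sum_congr rfl fun m _ => h2 m, ← Finset.mul_sum, Finset.sum_comm, hT]
    dsimp only
    have h4 : (((tup 4 L).filter (fun x => (d : ℤ) ∣ PowU_val x)).card : ℝ) =
        ∑ x ∈ tup 4 L, (if (d : ℤ) ∣ PowU_val x then (1 : ℝ) else 0) := by
      rw [← Finset.sum_filter, Finset.sum_const, nsmul_eq_mul, mul_one]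
    rw [h4]
    refine le_trans (mul_le_mul_of_nonneg_left (Finset.sum_le_sum (g := fun x =>
      (if (d : ℤ) ∣ PowU_val x then (1 : ℝ) else 0)) fun x _ => ?_) (by positivity)) (le_of_eq ?_)
    · rw [Finset.sum_ite_eq]
      split_ifs <;> simp
    · ring
  refine hex.trans ?_
  rw [mul_comm C1]
  rw [mul_comm C1]
  refine mul_le_mul_of_nonneg_right ?_ (by linarith)
  -- the proportion
  have hprop : ∀ d ∈ D, T d ≤ 1 / (orderOf (2 : ZMod d) : ℝ) + 1 / L := by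
    intro d hd
    rw [hD, Finset.mem_filter] at hd
    have hodd := hd.2.1
    have h1 : (((tup 4 L).filter (fun x => (d : ℤ) ∣ PowU_val x)).card : ℝ) ≤
        (L : ℝ) ^ 3 * (L / (orderOf (2 : ZMod d) : ℝ) + 1) := PowU_count L d hodd (by omega)
    rw [hT]
    dsimp only
    rw [div_le_iff₀ (by positivity)]
    refine h1.trans (le_of_eq ?_)
    field_simp
  have hsum : ∑ d ∈ D, (4 : ℝ) ^ d.primeFactors.card / d * T d ≤
      ∑ d ∈ D, ((16 : ℝ) ^ d.primeFactors.card / (d * (orderOf (2 : ZMod d) : ℝ)) +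
        (1 / L) * ((4 : ℝ) ^ d.primeFactors.card / d)) := by
    refine Finset.sum_le_sum fun d hd => ?_
    have h1 := hprop d hd
    have h2 : (4 : ℝ) ^ d.primeFactors.card ≤ 16 ^ d.primeFactors.card :=
      pow_le_pow_left₀ (by norm_num) (by norm_num) _
    calc (4 : ℝ) ^ d.primeFactors.card / d * T d
        ≤ (4 : ℝ) ^ d.primeFactors.card / d * (1 / (orderOf (2 : ZMod d) : ℝ) + 1 / L) :=
          mul_le_mul_of_nonneg_left h1 (by positivity)
      _ = (4 : ℝ) ^ d.primeFactors.card / (d * (orderOf (2 : ZMod d) : ℝ)) +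
          (1 / L) * ((4 : ℝ) ^ d.primeFactors.card / d) := by
          rw [mul_add, div_mul_div_comm, mul_one]
          ring
      _ ≤ _ := by
          have h3 : (4 : ℝ) ^ d.primeFactors.card / (d * (orderOf (2 : ZMod d) : ℝ)) ≤
              (16 : ℝ) ^ d.primeFactors.card / (d * (orderOf (2 : ZMod d) : ℝ)) :=
            div_le_div_of_nonneg_right h2 (by positivity)
          linarith
  refine hsum.trans ?_
  rw [Finset.sum_add_distrib, ← Finset.mul_sum]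
  have h7 : ∑ d ∈ D, (16 : ℝ) ^ d.primeFactors.card / (d * (orderOf (2 : ZMod d) : ℝ)) ≤ C2 := by
    refine le_trans ?_ (hrom (2 ^ (L + 1)))
    refine Finset.sum_le_sum_of_subset_of_nonneg ?_ (fun d _ _ => by positivity)
    intro d hd
    rw [hD, Finset.mem_filter] at hd
    rw [Finset.mem_filter]
    exact ⟨hd.1, hd.2.1, hd.2.2.1⟩
  have h8 : ∑ d ∈ D, (4 : ℝ) ^ d.primeFactors.card / d ≤ C3 * L := hsm L (2 ^ (L + 1)) hL
  have h9 : (1 / (L : ℝ)) * ∑ d ∈ D, (4 : ℝ) ^ d.primeFactors.card / d ≤ C3 := by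
    rw [one_div, inv_mul_le_iff₀ hL0]
    linarith
  linarith

/-- `N ≤ 2^L (log N)²` and `N` large give `log N ≤ L`. -/
theorem u4_maj : ∃ K : ℝ, 1 ≤ K ∧ ∃ N₀ : ℕ, ∀ N L : ℕ, N₀ ≤ N → 2 ^ (L + 1) ≤ N →
    (N : ℝ) ≤ 2 ^ L * (Real.log N) ^ 2 → Maj (u4 L) N K := by
  obtain ⟨C, hC, hsum⟩ := u4_sum
  have tn : Filter.Tendsto (fun n : ℕ => (n : ℝ)) Filter.atTop Filter.atTop := tendsto_natCast_atTop_atTop
  have tl : Filter.Tendsto (fun n : ℕ => Real.log (n : ℝ)) Filter.atTop Filter.atTop :=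
    Real.tendsto_log_atTop.comp tn
  have E1 : ∀ᶠ n : ℕ in Filter.atTop, 2 ≤ Real.log (n : ℝ) := tl.eventually_ge_atTop 2
  have E2 : ∀ᶠ n : ℕ in Filter.atTop, 2 * Real.log (Real.log (n : ℝ)) ≤ (3 / 10) * Real.log (n : ℝ) := by
    have h := (Real.isLittleO_log_id_atTop).comp_tendsto tl
    have h2 := h.bound (show (0 : ℝ) < 3 / 20 by norm_num)
    filter_upwards [h2, E1] with n hn h13
    simp only [Function.comp_apply, id_eq] at hn
    have h0 : 0 ≤ Real.log (Real.log (n : ℝ)) := Real.log_nonneg (by linarith)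
    rw [Real.norm_of_nonneg h0, Real.norm_of_nonneg (by linarith)] at hn
    linarith
  obtain ⟨N₀, hN₀⟩ := Filter.eventually_atTop.mp (E1.and E2)
  refine ⟨2 + C, by linarith, N₀, ?_⟩
  intro N L hN hNL hN2
  obtain ⟨h1, h2⟩ := hN₀ N hN
  have hlN : 0 < Real.log N := by linarith
  have hNpos : (0 : ℝ) < N := by
    have : 0 < N := lt_of_lt_of_le (by positivity) hNL
    exact_mod_cast this
  have hlog2a : 0.6931471803 < Real.log 2 := Real.log_two_gt_d9
  have hlog2b : Real.log 2 < 0.6931471808 := Real.log_two_lt_d9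
  have hlogL : Real.log N ≤ L := by
    have h3 : Real.log N ≤ L * Real.log 2 + 2 * Real.log (Real.log N) := by
      have h4 := Real.log_le_log hNpos hN2
      rw [Real.log_mul (by positivity) (by positivity), Real.log_pow, Real.log_pow] at h4
      push_cast at h4
      exact h4
    have h4 : Real.log N * (7 / 10) ≤ L * Real.log 2 := by linarith
    have h5 : (L : ℝ) * Real.log 2 ≤ L * (7 / 10) := mul_le_mul_of_nonneg_left (by linarith) (Nat.cast_nonneg L)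
    linarith
  have hL2 : 2 ≤ L := by
    have : (2 : ℝ) ≤ L := by linarith
    exact_mod_cast this
  have hL0 : (0 : ℝ) < L := by linarith
  refine ⟨u4_nonneg L, fun α => ?_, ?_⟩
  · rw [u4_four L N (by omega) hNL α]
    positivity
  · have h3 : u4 L 0 * (Real.log N) ^ 2 ≤ 2 := by
      have h4 := u4_zero L (by omega)
      have h5 : (Real.log N) ^ 2 ≤ (L : ℝ) ^ 2 := pow_le_pow_left₀ hlN.le hlogL 2
      calc u4 L 0 * (Real.log N) ^ 2 ≤ 2 / (L : ℝ) ^ 2 * (L : ℝ) ^ 2 :=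
            mul_le_mul h4 h5 (by positivity) (by positivity)
        _ = 2 := by field_simp
    have h4 := hsum L N hL2
    linarith

end Pool.Agent.Lib.MP_629a14_nt.Lk
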