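import Pool.Agent.Lib.MP_629a14_nt.Lk.PowU
import Pool.Agent.Lib.MP_629a14_nt.Th.BinM

/-! The distribution of `s + σ ∑ 2^(a_i)`. -/

set_option autoImplicit false

namespace Pool.Agent.Lib.MP_629a14_nt.Lk

open Finset Pool.Agent.Lib.MP_629a14_nt Pool.Agent.Lib.MP_629a14_nt.Th MeasureTheory

private theorem PowW_sum {E : Type*} [AddCommGroup E] [Module ℝ E] (k L N : ℕ) (s σ : ℤ)
    (h : ∀ a ∈ tup k L, 1 ≤ xx s σ a ∧ xx s σ a ≤ N) (F : ℕ → E) :
    ∑ n ∈ Icc 1 N, lw k L s σ n • F n = ((L : ℝ) ^ k)⁻¹ • ∑ a ∈ tup k L, F (xx s σ a).toNat := by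
  classical
  have h1 : ∀ n : ℕ, lw k L s σ n • F n =
      ((L : ℝ) ^ k)⁻¹ • ∑ a ∈ tup k L, (if xx s σ a = n then F n else 0) := by
    intro n
    unfold lw
    rw [div_eq_inv_mul, mul_smul]
    congr 1
    rw [← sum_filter, sum_const, Nat.cast_smul_eq_nsmul]
  rw [sum_congr rfl fun n _ => h1 n, ← smul_sum, sum_comm]
  congr 1
  refine sum_congr rfl fun a ha => ?_
  obtain ⟨h2, h3⟩ := h a ha
  have h4 : ∀ n : ℕ, (xx s σ a = (n : ℤ)) ↔ (xx s σ a).toNat = n := by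
    intro n
    omega
  simp only [h4]
  rw [sum_ite_eq, if_pos]
  rw [mem_Icc]
  omega

/-- Counting over fibres. -/
theorem lw_sum (k L N : ℕ) (s σ : ℤ) (h : ∀ a ∈ tup k L, 1 ≤ xx s σ a ∧ xx s σ a ≤ N)
    (Q : ℕ → Prop) [DecidablePred Q] :
    ∑ n ∈ (Icc 1 N).filter Q, lw k L s σ n =
      (((tup k L).filter (fun a => Q (xx s σ a).toNat)).card : ℝ) / (L : ℝ) ^ k := by
  have h1 := PowW_sum (E := ℝ) k L N s σ h (fun n => if Q n then 1 else 0)
  simp only [smul_eq_mul, mul_ite, mul_one, mul_zero] at h1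
  rw [sum_filter, h1, card_filter, div_eq_inv_mul]
  push_cast
  rfl

private theorem PowW_conj (y : ℝ) : ee (-y) = (starRingEnd ℂ) (ee y) := by
  have h1 : ee (-y) * ee y = 1 := by rw [← ee_add, neg_add_cancel, ee_zero]
  have h2 : (starRingEnd ℂ) (ee y) * ee y = 1 := by
    rw [mul_comm, Complex.mul_conj, Complex.normSq_eq_norm_sq, norm_ee]
    norm_num
  have h3 : ee y ≠ 0 := by
    intro h
    have := norm_ee y
    rw [h, norm_zero] at this
    exact zero_ne_one this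
  exact mul_right_cancel₀ h3 (h1.trans h2.symm)

private theorem PowW_ee_sum {κ : Type} (t : Finset κ) (f : κ → ℝ) :
    ee (∑ i ∈ t, f i) = ∏ i ∈ t, ee (f i) := by
  classical
  induction t using Finset.induction_on with
  | empty => simp [ee_zero]
  | insert i t hi ih => rw [sum_insert hi, prod_insert hi, ee_add, ih]

theorem lw_hat (k L N : ℕ) (s σ : ℤ) (hσ : σ = 1 ∨ σ = -1) (h : ∀ a ∈ tup k L, 1 ≤ xx s σ a ∧ xx s σ a ≤ N)
    (α : ℝ) : ‖WW (lw k L s σ) N α‖ = ‖gg L α‖ ^ k := by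
  have h1 := PowW_sum (E := ℂ) k L N s σ h (fun n => ee (n * α))
  have h2 : WW (lw k L s σ) N α = ∑ n ∈ Icc 1 N, lw k L s σ n • ee (n * α) := by
    unfold WW
    exact sum_congr rfl fun n _ => by rw [Complex.real_smul]
  have h3 : ∑ a ∈ tup k L, ee (((xx s σ a).toNat : ℝ) * α) =
      ee (s * α) * ∏ _i : Fin k, ∑ b ∈ Icc 1 L, ee (σ * ((2 : ℝ) ^ b * α)) := by
    unfold tup
    rw [prod_univ_sum (fun _ : Fin k => Icc 1 L) (fun _ b => ee (σ * ((2 : ℝ) ^ b * α))), mul_sum]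
    refine sum_congr rfl fun a ha => ?_
    obtain ⟨h4, _⟩ := h a ha
    have h5 : ((xx s σ a).toNat : ℝ) = ((xx s σ a : ℤ) : ℝ) := by
      have : (((xx s σ a).toNat : ℤ)) = xx s σ a := Int.toNat_of_nonneg (by omega)
      exact_mod_cast this
    rw [h5, ← PowW_ee_sum, ← ee_add]
    congr 1
    unfold xx
    push_cast
    rw [add_mul, mul_sum, sum_mul]
    congr 1
    exact sum_congr rfl fun i _ => by ring
  have h4 : ‖∑ b ∈ Icc 1 L, ee (σ * ((2 : ℝ) ^ b * α))‖ = ‖∑ b ∈ Icc 1 L, ee ((2 : ℝ) ^ b * α)‖ := by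
    rcases hσ with rfl | rfl
    · simp
    · have h5 : ∑ b ∈ Icc 1 L, ee (((-1 : ℤ) : ℝ) * ((2 : ℝ) ^ b * α)) =
          (starRingEnd ℂ) (∑ b ∈ Icc 1 L, ee ((2 : ℝ) ^ b * α)) := by
        rw [map_sum]
        refine sum_congr rfl fun b _ => ?_
        rw [← PowW_conj]
        congr 1
        push_cast
        ring
      rw [h5, RCLike.norm_conj]
  rw [h2, h1, h3, norm_smul, norm_mul, norm_ee, one_mul, prod_const, norm_pow, h4, norm_inv, norm_pow]
  unfold gg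
  rw [norm_mul, mul_pow, norm_div, norm_one]
  simp

/-- Large `N` and `L`. -/
private theorem PowW_L {N L : ℕ} (hN : 16 ≤ Real.log (N : ℝ))
    (h : (N : ℝ) ≤ 2 ^ L * (Real.log N) ^ 2) : Real.log (N : ℝ) / 4 ≤ L := by
  by_contra hc
  push Not at hc
  obtain ⟨y, hy⟩ : ∃ y : ℝ, y = Real.log (N : ℝ) := ⟨_, rfl⟩
  rw [← hy] at h hc hN
  have hN0 : (0 : ℝ) < N := by
    rcases Nat.eq_zero_or_pos N with h0 | h0
    · rw [h0] at hy
      simp at hy
      linarith
    · exact_mod_cast h0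
  have hNe : (N : ℝ) = Real.exp y := by rw [hy, Real.exp_log hN0]
  have h1 : (2 : ℝ) ^ L ≤ Real.exp (y / 4) := by
    have h2 : (2 : ℝ) ≤ Real.exp 1 := by
      have := Real.exp_one_gt_d9
      linarith
    calc (2 : ℝ) ^ L ≤ (Real.exp 1) ^ L := pow_le_pow_left₀ (by norm_num) h2 L
      _ = Real.exp L := by rw [← Real.exp_nat_mul, mul_one]
      _ ≤ Real.exp (y / 4) := Real.exp_le_exp.2 hc.le
  have h2 : Real.exp y = Real.exp (y / 4) * Real.exp (3 * y / 4) := by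
    rw [← Real.exp_add]; congr 1; ring
  have h3 : (3 * y / 4) ^ 3 / (Nat.factorial 3 : ℝ) ≤ Real.exp (3 * y / 4) :=
    Real.pow_div_factorial_le_exp _ (by linarith) 3
  have h4 : Real.exp (3 * y / 4) ≤ y ^ 2 := by
    rw [hNe, h2] at h
    have h5 : Real.exp (y / 4) * Real.exp (3 * y / 4) ≤ Real.exp (y / 4) * y ^ 2 :=
      h.trans (mul_le_mul_of_nonneg_right h1 (sq_nonneg _))
    exact le_of_mul_le_mul_left h5 (Real.exp_pos _)
  have h5 : (Nat.factorial 3 : ℝ) = 6 := by norm_num [Nat.factorial]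
  rw [h5] at h3
  nlinarith [mul_pos (by linarith : 0 < y) (by linarith : 0 < y)]

private theorem PowW_large (Y : ℝ) : ∃ N₀ : ℕ, ∀ N : ℕ, N₀ ≤ N → Y ≤ Real.log (N : ℝ) := by
  have hlog : Filter.Tendsto (fun N : ℕ => Real.log (N : ℝ)) Filter.atTop Filter.atTop :=
    Real.tendsto_log_atTop.comp tendsto_natCast_atTop_atTop
  exact (hlog.eventually_ge_atTop Y).exists_forall_of_atTop

/-- The order of two modulo `m`. -/
private theorem PowW_ord {m : ℕ} (hm : Odd m) (h3 : 3 ≤ m) :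
    Real.log m ≤ orderOf (2 : ZMod m) := by
  have hm1 : (1 : ℝ) < m := by
    have : 1 < m := by omega
    exact_mod_cast this
  have hpos : 0 < orderOf (2 : ZMod m) := by
    have hcop : Nat.Coprime 2 m := Nat.coprime_two_left.2 hm
    have : NeZero m := ⟨by omega⟩
    have h1 : orderOf (2 : ZMod m) = orderOf (ZMod.unitOfCoprime 2 hcop) := by
      rw [← orderOf_units, ZMod.coe_unitOfCoprime]
      simp
    rw [h1]
    exact orderOf_pos _
  have h1 : (m : ℤ) ∣ 2 ^ orderOf (2 : ZMod m) - 1 := by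
    rw [← ZMod.intCast_zmod_eq_zero_iff_dvd]
    push_cast
    rw [pow_orderOf_eq_one, sub_self]
  have h2 : (m : ℤ) ≤ 2 ^ orderOf (2 : ZMod m) - 1 := by
    apply Int.le_of_dvd _ h1
    have : (2 : ℤ) ^ 1 ≤ 2 ^ orderOf (2 : ZMod m) := pow_le_pow_right₀ (by norm_num) hpos
    linarith
  have h4 : (m : ℝ) ≤ 2 ^ orderOf (2 : ZMod m) := by
    have : (m : ℤ) ≤ 2 ^ orderOf (2 : ZMod m) := by linarith
    exact_mod_cast this
  have h5 : Real.log m ≤ orderOf (2 : ZMod m) * Real.log 2 := by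
    rw [← Real.log_pow]
    exact Real.log_le_log (by linarith) h4
  have h6 : Real.log 2 ≤ 1 := by
    have := Real.log_two_lt_d9
    linarith
  have h7 : (orderOf (2 : ZMod m) : ℝ) * Real.log 2 ≤ orderOf (2 : ZMod m) * 1 :=
    mul_le_mul_of_nonneg_left h6 (Nat.cast_nonneg _)
  linarith

/-- Counting tuples. -/
private theorem PowW_count (j L m : ℕ) (s σ : ℤ) (hσ : σ = 1 ∨ σ = -1) (hm : Odd m) (hL : 1 ≤ L) :
    (((tup (j + 1) L).filter (fun a => (m : ℤ) ∣ xx s σ a)).card : ℝ) ≤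
      (L : ℝ) ^ j * (L / (orderOf (2 : ZMod m) : ℝ) + 1) := by
  classical
  have hmaps : ∀ a ∈ (tup (j + 1) L).filter (fun a => (m : ℤ) ∣ xx s σ a), Fin.tail a ∈ tup j L := by
    intro a ha
    rw [mem_filter] at ha
    unfold tup at ha ⊢
    rw [Fintype.mem_piFinset] at ha ⊢
    intro i
    exact ha.1 i.succ
  have h1 := card_eq_sum_card_fiberwise (f := fun a : Fin (j + 1) → ℕ => Fin.tail a)
    (s := (tup (j + 1) L).filter (fun a => (m : ℤ) ∣ xx s σ a)) (t := tup j L) hmaps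
  have hfib : ∀ b ∈ tup j L,
      ((((tup (j + 1) L).filter (fun a => (m : ℤ) ∣ xx s σ a)).filter
        (fun a => Fin.tail a = b)).card : ℝ) ≤ L / (orderOf (2 : ZMod m) : ℝ) + 1 := by
    intro b _
    refine le_trans ?_ (pow_class L m (-(σ * s + ∑ i, (2 : ℤ) ^ (b i))) hm hL)
    have hc : (((tup (j + 1) L).filter (fun a => (m : ℤ) ∣ xx s σ a)).filter
        (fun a => Fin.tail a = b)).card ≤
        ((Icc 1 L).filter (fun a : ℕ => (m : ℤ) ∣ (2 : ℤ) ^ a -
          (-(σ * s + ∑ i, (2 : ℤ) ^ (b i))))).card := by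
      refine card_le_card_of_injOn (fun a => a 0) ?_ ?_
      · intro a ha
        rw [mem_coe, mem_filter, mem_filter] at ha
        obtain ⟨⟨ha1, ha2⟩, ha3⟩ := ha
        rw [mem_coe, mem_filter]
        refine ⟨?_, ?_⟩
        · unfold tup at ha1
          rw [Fintype.mem_piFinset] at ha1
          exact ha1 0
        · have e : (2 : ℤ) ^ (a 0) - (-(σ * s + ∑ i, (2 : ℤ) ^ (b i))) = σ * xx s σ a := by
            have hb : ∀ i, b i = a i.succ := fun i => by rw [← ha3]; rfl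
            have e1 : ∑ i, (2 : ℤ) ^ (b i) = ∑ i : Fin j, (2 : ℤ) ^ (a i.succ) :=
              sum_congr rfl fun i _ => by rw [hb]
            rw [e1]
            unfold xx
            rw [Fin.sum_univ_succ]
            rcases hσ with rfl | rfl <;> ring
          rw [e]
          exact Dvd.dvd.mul_left ha2 σ
      · intro a ha a' ha' h0
        rw [mem_coe, mem_filter] at ha ha'
        have h2 : Fin.tail a = Fin.tail a' := ha.2.trans ha'.2.symm
        funext i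
        refine Fin.cases h0 (fun i => ?_) i
        exact congrFun h2 i
    exact_mod_cast hc
  rw [h1]
  push_cast
  refine (sum_le_sum hfib).trans ?_
  rw [sum_const, nsmul_eq_mul]
  have hcard : ((tup j L).card : ℝ) = (L : ℝ) ^ j := by
    unfold tup
    rw [Fintype.card_piFinset]
    simp
  rw [hcard]

/-- Proof. Fix `a_2, ..., a_k` and use `pow_class` for `a_1`; `2^{ord m} > m`; `m ≤ N` (otherwise nothing is divisible by
`m`) and `1/L ≤ 4/log N` as `N ≤ 2^L (log N)²`. -/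
theorem lw_div : ∃ K : ℝ, 1 ≤ K ∧ ∃ N₀ : ℕ, ∀ (k L N : ℕ) (s σ : ℤ), N₀ ≤ N → 1 ≤ k → (σ = 1 ∨ σ = -1) →
    (N : ℝ) ≤ 2 ^ L * (Real.log N) ^ 2 → (∀ a ∈ tup k L, 1 ≤ xx s σ a ∧ xx s σ a ≤ N) →
    ∀ m : ℕ, Odd m → 3 ≤ m → ∑ n ∈ (Icc 1 N).filter (fun n => m ∣ n), lw k L s σ n ≤ K / Real.log m := by
  obtain ⟨N₀, hN₀⟩ := PowW_large 16
  refine ⟨5, by norm_num, N₀, ?_⟩
  intro k L N s σ hN hk hσ hNL h m hm h3
  have hlogN := hN₀ N hN
  have hL4 := PowW_L hlogN hNL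
  have hLr : (1 : ℝ) ≤ L := by linarith
  have hL1 : 1 ≤ L := by exact_mod_cast hLr
  have hm1 : (1 : ℝ) < m := by
    have : 1 < m := by omega
    exact_mod_cast this
  have hlogm : 0 < Real.log (m : ℝ) := Real.log_pos hm1
  rcases Nat.lt_or_ge N m with hmN | hmN
  · have hempty : (Icc 1 N).filter (fun n => m ∣ n) = ∅ := by
      rw [filter_eq_empty_iff]
      intro n hn hd
      rw [mem_Icc] at hn
      have := Nat.le_of_dvd (by omega) hd
      omega
    rw [hempty, sum_empty]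
    positivity
  · rw [lw_sum k L N s σ h (fun n => m ∣ n)]
    obtain ⟨j, rfl⟩ : ∃ j, k = j + 1 := ⟨k - 1, by omega⟩
    have hset : (tup (j + 1) L).filter (fun a => m ∣ (xx s σ a).toNat) =
        (tup (j + 1) L).filter (fun a => (m : ℤ) ∣ xx s σ a) := by
      apply filter_congr
      intro a ha
      obtain ⟨h4, _⟩ := h a ha
      have h5 : (((xx s σ a).toNat : ℤ)) = xx s σ a := Int.toNat_of_nonneg (by omega)
      rw [← Int.natCast_dvd_natCast, h5]
    rw [hset]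
    have hc := PowW_count j L m s σ hσ hm hL1
    have ho := PowW_ord hm h3
    have hop : (0 : ℝ) < orderOf (2 : ZMod m) := lt_of_lt_of_le hlogm ho
    have hLj : (0 : ℝ) < (L : ℝ) ^ (j + 1) := by positivity
    rw [div_le_iff₀ hLj]
    refine hc.trans ?_
    have h6 : (L : ℝ) ^ j * (L / (orderOf (2 : ZMod m) : ℝ) + 1) =
        (1 / (orderOf (2 : ZMod m) : ℝ) + 1 / L) * (L : ℝ) ^ (j + 1) := by
      rw [pow_succ]
      field_simp
    rw [h6]
    refine mul_le_mul_of_nonneg_right ?_ hLj.le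
    have h7 : 1 / (orderOf (2 : ZMod m) : ℝ) ≤ 1 / Real.log m := one_div_le_one_div_of_le hlogm ho
    have h8 : 1 / (L : ℝ) ≤ 4 / Real.log m := by
      have h9 : Real.log m ≤ Real.log N := Real.log_le_log (by linarith) (by exact_mod_cast hmN)
      rw [div_le_div_iff₀ (by linarith) hlogm]
      linarith
    have h9 : 5 / Real.log (m : ℝ) = 1 / Real.log m + 4 / Real.log m := by ring
    rw [h9]
    exact add_le_add h7 h8

/-- Rotation of the average. -/
private theorem PowW_rot (L : ℕ) (hL : 1 ≤ L) (α η : ℝ) (hη : η < 1) (h : 1 - η < ‖gg L α‖) :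
    ∃ u : ℂ, ‖u‖ = 1 ∧ ∑ a ∈ Icc 1 L, (1 - (u * ee (2 ^ a * α)).re) ≤ η * L := by
  have hLr : (1 : ℝ) ≤ L := by exact_mod_cast hL
  have hg : 0 < ‖gg L α‖ := by linarith
  have hgC : (‖gg L α‖ : ℂ) ≠ 0 := by exact_mod_cast hg.ne'
  refine ⟨(starRingEnd ℂ) (gg L α) / (‖gg L α‖ : ℂ), ?_, ?_⟩
  · rw [norm_div, RCLike.norm_conj, Complex.norm_real, norm_norm, div_self hg.ne']
  · obtain ⟨u, hu⟩ : ∃ u : ℂ, u = (starRingEnd ℂ) (gg L α) / (‖gg L α‖ : ℂ) := ⟨_, rfl⟩
    rw [← hu]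
    have h1 : u * gg L α = (‖gg L α‖ : ℂ) := by
      rw [hu, div_mul_eq_mul_div, mul_comm, Complex.mul_conj, Complex.normSq_eq_norm_sq]
      push_cast
      field_simp
    have h2 : ∑ a ∈ Icc 1 L, ee ((2 : ℝ) ^ a * α) = (L : ℂ) * gg L α := by
      unfold gg
      have : (L : ℂ) ≠ 0 := by
        have : L ≠ 0 := by omega
        exact_mod_cast this
      rw [← mul_assoc, mul_one_div_cancel this, one_mul]
    have h3 : ∑ a ∈ Icc 1 L, (1 - (u * ee (2 ^ a * α)).re) = L - L * ‖gg L α‖ := by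
      rw [sum_sub_distrib]
      have h4 : ∑ a ∈ Icc 1 L, (u * ee (2 ^ a * α)).re = (L : ℝ) * ‖gg L α‖ := by
        rw [← Complex.re_sum, ← mul_sum, h2]
        have h5 : u * ((L : ℂ) * gg L α) = (((L : ℝ) * ‖gg L α‖ : ℝ) : ℂ) := by
          calc u * ((L : ℂ) * gg L α) = (L : ℂ) * (u * gg L α) := by ring
            _ = _ := by rw [h1]; push_cast; ring
        rw [h5, Complex.ofReal_re]
      rw [h4]
      simp
    rw [h3]
    nlinarith

/-- Proof. If `‖gg‖ > 1 - η` then with a suitable `u`, `‖u‖ = 1`: `∑_a (1 - Re(u e(2^a α))) ≤ η L`. By `digit_measure` and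
`choose_sum` the measure is at most `4 · 2^{-L} (e/(16η))^{16ηL} ≤ 2^{-L} 2^{cL/2}` (`η` small in terms of `c`, `L` large), and
`2^{-L} ≤ (log N)²/N`. -/
theorem gg_measure (c : ℝ) (hc : 0 < c) : ∃ η : ℝ, 0 < η ∧ η < 1 ∧ ∃ N₀ : ℕ, ∀ L N : ℕ, N₀ ≤ N → 2 ^ L ≤ N →
    (N : ℝ) ≤ 2 ^ L * (Real.log N) ^ 2 →
    volume {α : ℝ | α ∈ Set.Icc (0 : ℝ) 1 ∧ 1 - η < ‖gg L α‖} ≤ ENNReal.ofReal ((N : ℝ) ^ (-1 + c)) := by
  obtain ⟨η, hη⟩ : ∃ η : ℝ, η = min (1 / 64) ((c / 112) ^ 2) := ⟨_, rfl⟩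
  have hη0 : 0 < η := by rw [hη]; exact lt_min (by norm_num) (by positivity)
  have hη1 : η ≤ 1 / 64 := by rw [hη]; exact min_le_left _ _
  have hη2 : Real.sqrt η ≤ c / 112 := by
    rw [Real.sqrt_le_left (by positivity), hη]
    exact min_le_right _ _
  obtain ⟨N₀, hN₀⟩ := PowW_large (max (max 16 (192 / c ^ 3)) (1 / (4 * η)))
  refine ⟨η, hη0, by linarith, N₀, ?_⟩
  intro L N hN h2N hNL
  have hY := hN₀ N hN
  have hY1 : 16 ≤ Real.log (N : ℝ) := (le_max_left _ _).trans ((le_max_left _ _).trans hY)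
  have hY2 : 192 / c ^ 3 ≤ Real.log (N : ℝ) := (le_max_right _ _).trans ((le_max_left _ _).trans hY)
  have hY3 : 1 / (4 * η) ≤ Real.log (N : ℝ) := (le_max_right _ _).trans hY
  have hL4 := PowW_L hY1 hNL
  have hLr : (1 : ℝ) ≤ L := by linarith
  have hL1 : 1 ≤ L := by exact_mod_cast hLr
  obtain ⟨y, hy⟩ : ∃ y : ℝ, y = Real.log (N : ℝ) := ⟨_, rfl⟩
  have hN0 : (0 : ℝ) < N := by
    have : 0 < 2 ^ L := by positivity
    have : 0 < N := by omega
    exact_mod_cast this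
  have hNe : (N : ℝ) = Real.exp y := by rw [hy, Real.exp_log hN0]
  rw [← hy] at hY1 hY2 hY3 hL4 hNL
  -- `16 η L ≥ 1`
  have hηL : 1 ≤ 16 * η * L := by
    rw [div_le_iff₀ (by positivity)] at hY3
    nlinarith
  have hsub : {α : ℝ | α ∈ Set.Icc (0 : ℝ) 1 ∧ 1 - η < ‖gg L α‖} ⊆
      {α : ℝ | α ∈ Set.Icc (0 : ℝ) 1 ∧ ∃ u : ℂ, ‖u‖ = 1 ∧
      ∑ a ∈ Icc 1 L, (1 - (u * ee (2 ^ a * α)).re) ≤ η * L} := by
    rintro α ⟨h1, h2⟩
    exact ⟨h1, PowW_rot L hL1 α η (by linarith) h2⟩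
  refine (measure_mono hsub).trans ((digit_measure L hL1 η hη0.le).trans ?_)
  apply ENNReal.ofReal_le_ofReal
  -- the sum of the binomial coefficients
  obtain ⟨M, hM⟩ : ∃ M : ℕ, M = ⌊16 * η * L⌋₊ + 1 := ⟨_, rfl⟩
  have hM1 : 16 * η * L ≤ M := by
    rw [hM]
    push_cast
    exact (Nat.lt_floor_add_one _).le
  have hM2 : (M : ℝ) ≤ 32 * η * L := by
    rw [hM]
    push_cast
    have := Nat.floor_le (show 0 ≤ 16 * η * L by positivity)
    linarith
  have hM3 : M ≤ L := by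
    have h1 : (M : ℝ) ≤ L := by nlinarith
    exact_mod_cast h1
  have hM0 : 1 ≤ M := by omega
  have hMr : (1 : ℝ) ≤ M := by exact_mod_cast hM0
  have hsum : ∑ i ∈ range (⌊16 * η * L⌋₊ + 1), (L.choose i : ℝ) ≤ Real.exp (c / 4 * L) := by
    have h1 : ∑ i ∈ range (⌊16 * η * L⌋₊ + 1), (L.choose i : ℝ) ≤
        ∑ i ∈ range (M + 1), (L.choose i : ℝ) := by
      rw [← hM]
      apply sum_le_sum_of_subset_of_nonneg
      · intro i hi
        rw [mem_range] at hi ⊢
        omega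
      · intro i _ _
        positivity
    refine h1.trans ((choose_sum L M hM0 hM3).trans ?_)
    -- `(e L / M)^M ≤ exp (M * log (e / (16 η)))`
    obtain ⟨B, hB⟩ : ∃ B : ℝ, B = Real.exp 1 / (16 * η) := ⟨_, rfl⟩
    have hB1 : 1 ≤ B := by
      rw [hB, one_le_div (by positivity)]
      have := Real.exp_one_gt_d9
      linarith
    have hB0 : 0 < B := by linarith
    have h2 : Real.exp 1 * L / M ≤ B := by
      rw [hB, div_le_div_iff₀ (by linarith) (by positivity)]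
      have := Real.exp_pos 1
      nlinarith
    have h3 : (Real.exp 1 * L / M) ^ M ≤ B ^ M := pow_le_pow_left₀ (by positivity) h2 M
    refine h3.trans ?_
    have h4 : B ^ M = Real.exp (M * Real.log B) := by
      rw [Real.exp_nat_mul, Real.exp_log hB0]
    rw [h4, Real.exp_le_exp]
    -- `log B ≤ 2 √B`
    have h5 : Real.log B ≤ 2 * Real.sqrt B := by
      have h6 : Real.log B = 2 * Real.log (Real.sqrt B) := by
        rw [Real.log_sqrt hB0.le]; ring
      rw [h6]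
      have h7 : Real.log (Real.sqrt B) ≤ Real.sqrt B - 1 :=
        Real.log_le_sub_one_of_pos (Real.sqrt_pos.2 hB0)
      linarith
    have h6 : 0 ≤ Real.log B := Real.log_nonneg hB1
    have h7 : M * Real.log B ≤ 32 * η * L * (2 * Real.sqrt B) :=
      mul_le_mul hM2 h5 h6 (by positivity)
    refine h7.trans ?_
    -- `η √B = √η √(e/16)`
    have h8 : Real.sqrt η * Real.sqrt B ≤ 7 / 16 := by
      rw [← Real.sqrt_mul hη0.le, hB]
      have h9 : η * (Real.exp 1 / (16 * η)) = Real.exp 1 / 16 := by field_simp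
      rw [h9, Real.sqrt_le_left (by norm_num)]
      have := Real.exp_one_lt_d9
      linarith
    have h9 : η = Real.sqrt η * Real.sqrt η := (Real.mul_self_sqrt hη0.le).symm
    have h10 : 32 * η * L * (2 * Real.sqrt B) = 64 * L * Real.sqrt η * (Real.sqrt η * Real.sqrt B) := by
      calc 32 * η * L * (2 * Real.sqrt B) = 64 * L * η * Real.sqrt B := by ring
        _ = 64 * L * (Real.sqrt η * Real.sqrt η) * Real.sqrt B := by rw [← h9]
        _ = _ := by ring
    rw [h10]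
    have h11 : 0 ≤ Real.sqrt η := Real.sqrt_nonneg _
    calc 64 * L * Real.sqrt η * (Real.sqrt η * Real.sqrt B)
        ≤ 64 * L * Real.sqrt η * (7 / 16) := mul_le_mul_of_nonneg_left h8 (by positivity)
      _ = 28 * L * Real.sqrt η := by ring
      _ ≤ 28 * L * (c / 112) := mul_le_mul_of_nonneg_left hη2 (by positivity)
      _ = c / 4 * L := by ring
  have h2L : (2 : ℝ) ^ L ≤ Real.exp y := by
    rw [← hNe]
    exact_mod_cast h2N
  have hLy : (L : ℝ) ≤ 2 * y := by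
    have h1 : Real.log ((2 : ℝ) ^ L) ≤ y := by
      rw [← Real.log_exp y]
      exact Real.log_le_log (by positivity) h2L
    rw [Real.log_pow] at h1
    have := Real.log_two_gt_d9
    nlinarith
  have hhalf : (1 / 2 : ℝ) ^ L ≤ y ^ 2 * Real.exp (-y) := by
    rw [one_div_pow, Real.exp_neg, ← hNe, div_le_iff₀ (by positivity)]
    have h1 : (1 : ℝ) ≤ 2 ^ L * y ^ 2 * (N : ℝ)⁻¹ := by
      rw [← div_eq_mul_inv, one_le_div hN0]
      exact hNL
    calc (1 : ℝ) ≤ 2 ^ L * y ^ 2 * (N : ℝ)⁻¹ := h1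
      _ = y ^ 2 * (N : ℝ)⁻¹ * 2 ^ L := by ring
  have hrpow : (N : ℝ) ^ (-1 + c) = Real.exp (-y) * Real.exp (c * y) := by
    rw [Real.rpow_def_of_pos hN0, ← hy, ← Real.exp_add]
    congr 1
    ring
  rw [hrpow]
  have hexp : 4 * y ^ 2 ≤ Real.exp (c / 2 * y) := by
    have h1 : (c / 2 * y) ^ 3 / (Nat.factorial 3 : ℝ) ≤ Real.exp (c / 2 * y) :=
      Real.pow_div_factorial_le_exp _ (by positivity) 3
    have h5 : (Nat.factorial 3 : ℝ) = 6 := by norm_num [Nat.factorial]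
    rw [h5] at h1
    refine le_trans ?_ h1
    rw [div_le_iff₀ (by positivity)] at hY2
    have h6 : (c / 2 * y) ^ 3 / 6 = y ^ 2 * (y * c ^ 3) / 48 := by ring
    rw [h6]
    nlinarith [mul_le_mul_of_nonneg_left hY2 (sq_nonneg y)]
  calc 4 * (1 / 2 : ℝ) ^ L * ∑ i ∈ range (⌊16 * η * L⌋₊ + 1), (L.choose i : ℝ)
      ≤ 4 * (y ^ 2 * Real.exp (-y)) * Real.exp (c / 4 * L) := by
        refine mul_le_mul (mul_le_mul_of_nonneg_left hhalf (by norm_num)) hsum
          (sum_nonneg fun i _ => Nat.cast_nonneg _) (by positivity)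
    _ ≤ 4 * (y ^ 2 * Real.exp (-y)) * Real.exp (c / 2 * y) := by
        refine mul_le_mul_of_nonneg_left (Real.exp_le_exp.2 ?_) (by positivity)
        nlinarith
    _ = Real.exp (-y) * ((4 * y ^ 2) * Real.exp (c / 2 * y)) := by ring
    _ ≤ Real.exp (-y) * (Real.exp (c / 2 * y) * Real.exp (c / 2 * y)) := by
        refine mul_le_mul_of_nonneg_left ?_ (Real.exp_pos _).le
        exact mul_le_mul_of_nonneg_right hexp (Real.exp_pos _).le
    _ = Real.exp (-y) * Real.exp (c * y) := by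
        rw [← Real.exp_add (c / 2 * y)]
        congr 2
        ring

end Pool.Agent.Lib.MP_629a14_nt.Lk
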