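import Pool.Agent.Lib.MP_629a14_nt.Lk.Main
import Pool.Agent.Lib.MP_629a14_nt.Lk.PowW

/-! Almost all sums of boundedly many powers of two. -/

set_option autoImplicit false

namespace Pool.Agent.Lib.MP_629a14_nt.Lk

open Finset Pool.Agent.Lib.MP_629a14_nt Pool.Agent.Lib.MP_629a14_nt.Th MeasureTheory

/-- The Hardy-Littlewood asymptotics fail for `n` by more than `ε`. -/
def Bad (ε : ℝ) (n : ℕ) : Prop := ε * En.HL n < |(En.r2 n : ℝ) - En.HL n|

private theorem Tuple_gg_le_one (L : ℕ) (α : ℝ) : ‖gg L α‖ ≤ 1 := by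
  unfold gg
  rcases Nat.eq_zero_or_pos L with hL | hL
  · subst hL; simp
  have hL0 : (0 : ℝ) < L := by exact_mod_cast hL
  rw [norm_mul]
  have h1 : ‖(1 / (L : ℂ))‖ = 1 / (L : ℝ) := by
    rw [norm_div, norm_one, Complex.norm_natCast]
  have h2 : ‖∑ a ∈ Icc 1 L, ee ((2 : ℝ) ^ a * α)‖ ≤ L := by
    refine le_trans (norm_sum_le _ _) ?_
    have : ∀ a ∈ Icc 1 L, ‖ee ((2 : ℝ) ^ a * α)‖ ≤ 1 := by
      intro a _
      exact (norm_ee _).le
    refine le_trans (sum_le_sum this) ?_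
    simp
  rw [h1]
  calc 1 / (L : ℝ) * ‖∑ a ∈ Icc 1 L, ee ((2 : ℝ) ^ a * α)‖ ≤ 1 / (L : ℝ) * L := by gcongr
    _ = 1 := by field_simp

private theorem Tuple_even (k L : ℕ) (s σ : ℤ) (hs : Even s) (a : Fin k → ℕ) (ha : a ∈ tup k L) :
    Even (xx s σ a) := by
  unfold xx
  refine Even.add hs (Even.mul_left ?_ σ)
  refine Finset.even_sum _ fun i _ => ?_
  unfold tup at ha
  rw [Fintype.mem_piFinset] at ha
  have h1 := (mem_Icc.1 (ha i)).1
  exact (even_two).pow_of_ne_zero (by omega)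

open Classical in
/-- Proof. `main` with `w = lw k L s σ`, `u = u4 L`, `δ = 1/4` (`u4_maj`, `lw_div`, `lw_hat`, `u4_four`); `gg_measure` for
the constant `c` of `main`; `‖gg‖^k ≤ (1-η)^(k-4) ‖gg‖⁴ ≤ c ‖gg‖⁴` where `‖gg‖ ≤ 1 - η`, if `k ≥ k₀`. -/
theorem tuple (ε : ℝ) (hε : 0 < ε) : ∃ k₀ N₀ : ℕ, ∀ N : ℕ, N₀ ≤ N → ∀ (k L : ℕ) (s σ : ℤ), k₀ ≤ k →
    (k : ℝ) ≤ Real.log N → (σ = 1 ∨ σ = -1) → Even s → (N : ℝ) ≤ 2 ^ L * (Real.log N) ^ 2 →
    (∀ a ∈ tup k L, (N : ℤ) ≤ 4 * xx s σ a ∧ xx s σ a ≤ N) →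
    (((tup k L).filter (fun a => Bad ε (xx s σ a).toNat)).card : ℝ) ≤ ε * (L : ℝ) ^ k := by
  obtain ⟨K1, hK1, N1, hmaj⟩ := u4_maj
  obtain ⟨K2, hK2, N2, hdiv⟩ := lw_div
  obtain ⟨c, hc, N3, hmain⟩ := main (max K1 K2) (1 / 4) ε (by norm_num) hε
  obtain ⟨η, hη, hη1, N4, hgg⟩ := gg_measure c hc
  obtain ⟨k1, hk1⟩ := exists_pow_lt_of_lt_one hc (show 1 - η < 1 by linarith)
  refine ⟨k1 + 4, N1 + N2 + N3 + N4 + 8, fun N hN k L s σ hk _ hσ hs hNL hx => ?_⟩
  have hk4 : 4 ≤ k := by omega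
  rcases Nat.eq_zero_or_pos L with hL | hL
  · subst hL
    have hemp : tup k 0 = ∅ := by
      unfold tup
      rw [Finset.eq_empty_iff_forall_notMem]
      intro a ha
      rw [Fintype.mem_piFinset] at ha
      have := ha ⟨0, by omega⟩
      simp at this
    rw [hemp]
    simp only [filter_empty, card_empty, Nat.cast_zero]
    positivity
  have hLk : (0 : ℝ) < (L : ℝ) ^ k := by
    have : (0 : ℝ) < L := by exact_mod_cast hL
    positivity
  have hN8 : 8 ≤ N := by omega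
  have hx' : ∀ a ∈ tup k L, 1 ≤ xx s σ a ∧ xx s σ a ≤ N := by
    intro a ha
    have := hx a ha
    constructor
    · have h1 : (8 : ℤ) ≤ (N : ℤ) := by exact_mod_cast hN8
      omega
    · exact this.2
  -- `2 ^ (L + 1) ≤ N`
  have hpow : 2 ^ (L + 1) ≤ N := by
    have hA : (fun _ => L : Fin k → ℕ) ∈ tup k L := by
      unfold tup
      rw [Fintype.mem_piFinset]
      intro i
      rw [mem_Icc]
      omega
    have hB : (fun _ => 1 : Fin k → ℕ) ∈ tup k L := by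
      unfold tup
      rw [Fintype.mem_piFinset]
      intro i
      rw [mem_Icc]
      omega
    have h1 := hx' _ hA
    have h2 := hx' _ hB
    unfold xx at h1 h2
    simp only [sum_const, card_univ, Fintype.card_fin, nsmul_eq_mul, pow_one] at h1 h2
    have hkz : (4 : ℤ) ≤ (k : ℤ) := by exact_mod_cast hk4
    have hp2 : (2 : ℤ) ≤ 2 ^ L := by
      calc (2 : ℤ) = 2 ^ 1 := by norm_num
        _ ≤ 2 ^ L := pow_le_pow_right₀ (by norm_num) hL
    have hkey : (k : ℤ) * (2 ^ L - 2) ≤ N - 1 := by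
      rcases hσ with rfl | rfl
      · linarith [h1.2, h2.1]
      · linarith [h1.1, h2.2]
    have h4 : (4 : ℤ) * (2 ^ L - 2) ≤ (k : ℤ) * (2 ^ L - 2) :=
      mul_le_mul_of_nonneg_right hkz (by linarith)
    have h5 : (2 : ℤ) ^ (L + 1) ≤ N := by
      rw [pow_succ]
      have : (8 : ℤ) ≤ (N : ℤ) := by exact_mod_cast hN8
      linarith
    exact_mod_cast h5
  have hpow' : 2 ^ L ≤ N := le_trans (Nat.pow_le_pow_right (by norm_num) (by omega)) hpow
  -- the hypotheses of the criterion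
  have hw0 : ∀ n, 0 ≤ lw k L s σ n := by
    intro n
    unfold lw
    positivity
  have hcard : ((tup k L).card : ℝ) = (L : ℝ) ^ k := by
    unfold tup
    rw [Fintype.card_piFinset]
    simp
  have hw1 : ∑ n ∈ Icc 1 N, lw k L s σ n ≤ 1 := by
    have h := lw_sum k L N s σ hx' (fun _ => True)
    rw [filter_true_of_mem (fun _ _ => trivial), filter_true_of_mem (fun _ _ => trivial), hcard,
      div_self hLk.ne'] at h
    exact h.le
  have hd : ∀ m : ℕ, Odd m → 3 ≤ m → ∑ n ∈ (Icc 1 N).filter (fun n => m ∣ n), lw k L s σ n ≤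
      max K1 K2 / Real.log m := by
    intro m hm hm3
    refine le_trans (hdiv k L N s σ (by omega) (by omega) hσ hNL hx' m hm hm3) ?_
    have : 0 ≤ Real.log m := Real.log_natCast_nonneg m
    gcongr
    exact le_max_right _ _
  have hM : Maj (u4 L) N (max K1 K2) := by
    have h := hmaj N L (by omega) hpow hNL
    exact ⟨h.1, h.2.1, le_trans h.2.2 (le_max_left _ _)⟩
  have hvol : volume {α : ℝ | α ∈ Set.Icc (0 : ℝ) 1 ∧ c * CU (u4 L) N α < ‖WW (lw k L s σ) N α‖} ≤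
      ENNReal.ofReal ((N : ℝ) ^ (-1 + c)) := by
    refine le_trans (measure_mono ?_) (hgg L N (by omega) hpow' hNL)
    intro α hα
    refine ⟨hα.1, ?_⟩
    by_contra hcon
    rw [not_lt] at hcon
    have h1 := hα.2
    rw [u4_four L N hL hpow α, lw_hat k L N s σ hσ hx' α] at h1
    have hg0 : 0 ≤ ‖gg L α‖ := norm_nonneg _
    obtain ⟨j, hj⟩ : ∃ j, k = j + k1 + 4 := ⟨k - k1 - 4, by omega⟩
    have h2 : ‖gg L α‖ ^ (j + k1) ≤ c := by
      calc ‖gg L α‖ ^ (j + k1) = ‖gg L α‖ ^ j * ‖gg L α‖ ^ k1 := pow_add _ _ _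
        _ ≤ 1 * (1 - η) ^ k1 := by
            apply mul_le_mul (pow_le_one₀ hg0 (Tuple_gg_le_one L α)) (pow_le_pow_left₀ hg0 hcon _)
              (by positivity) (by norm_num)
        _ ≤ c := by rw [one_mul]; exact hk1.le
    have h3 : ‖gg L α‖ ^ k ≤ c * ‖gg L α‖ ^ 4 := by
      rw [hj, pow_add]
      exact mul_le_mul_of_nonneg_right h2 (by positivity)
    exact absurd h1 (not_lt.2 h3)
  have hres := hmain N (by omega) (lw k L s σ) (u4 L) hw0 hw1 hd hM hvol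
  have hsum := lw_sum k L N s σ hx' (fun n : ℕ => Even n ∧ (1 / 4 : ℝ) * N ≤ n ∧
    ε * En.HL n < |(En.r2 n : ℝ) - En.HL n|)
  have hres2 : (((tup k L).filter (fun a => Even (xx s σ a).toNat ∧ (1 / 4 : ℝ) * N ≤ (xx s σ a).toNat ∧
      ε * En.HL (xx s σ a).toNat < |(En.r2 (xx s σ a).toNat : ℝ) - En.HL (xx s σ a).toNat|)).card : ℝ) /
      (L : ℝ) ^ k ≤ ε := by
    refine le_trans (le_of_eq ?_) (le_trans (le_of_eq hsum.symm) (le_trans (le_of_eq ?_) hres))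
    · congr!
    · congr!
  rw [div_le_iff₀ hLk] at hres2
  refine le_trans ?_ hres2
  rw [Nat.cast_le]
  apply card_le_card
  intro a ha
  rw [mem_filter] at ha ⊢
  obtain ⟨ha1, ha2⟩ := ha
  have hxa := hx a ha1
  have hxa' := hx' a ha1
  have hto : (((xx s σ a).toNat : ℕ) : ℤ) = xx s σ a := Int.toNat_of_nonneg (by linarith [hxa'.1])
  refine ⟨ha1, ?_, ?_, ha2⟩
  · have := Tuple_even k L s σ hs a ha1
    rw [← hto] at this
    exact_mod_cast this
  · have h1 : (N : ℤ) ≤ 4 * (((xx s σ a).toNat : ℕ) : ℤ) := by rw [hto]; exact hxa.1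
    have h2 : (N : ℝ) ≤ 4 * (((xx s σ a).toNat : ℕ) : ℝ) := by exact_mod_cast h1
    linarith

end Pool.Agent.Lib.MP_629a14_nt.Lk
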